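import Pool.Agent.H.MP_027d00_lc.unb.Defs

/-!
# Counting functions of small formula size (job C)
-/

set_option autoImplicit false

namespace UnbTop

open Fm

/-- formulas without constants -/
def countCF {V : Type} : Fm V → Prop
  | Fm.lit _ _ => True
  | Fm.cst _ => False
  | Fm.and F G => countCF F ∧ countCF G
  | Fm.or F G => countCF F ∧ countCF G

lemma count_size_pos {V : Type} (F : Fm V) (h : countCF F) : 1 ≤ F.size := by
  induction F with
  | lit v b => exact le_rfl
  | cst b => exact h.elim
  | and F G ihF _ => exact (ihF h.1).trans (Nat.le_add_right _ _)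
  | or F G ihF _ => exact (ihF h.1).trans (Nat.le_add_right _ _)

/-- removing constants -/
lemma count_nf {V : Type} (F : Fm V) :
    (∃ b, ∀ z, F.eval z = b) ∨
      ∃ F' : Fm V, countCF F' ∧ F'.size ≤ F.size ∧ ∀ z, F'.eval z = F.eval z := by
  induction F with
  | lit v b => exact Or.inr ⟨Fm.lit v b, trivial, le_rfl, fun _ => rfl⟩
  | cst b => exact Or.inl ⟨b, fun _ => rfl⟩
  | and F G ihF ihG =>
    have hs : (Fm.and F G).size = F.size + G.size := rfl
    rcases ihF with ⟨b, hb⟩ | ⟨F', hF1, hF2, hF3⟩
    · cases b with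
      | false => exact Or.inl ⟨false, fun z => by show (F.eval z && G.eval z) = _; rw [hb]; rfl⟩
      | true =>
        rcases ihG with ⟨c, hc⟩ | ⟨G', hG1, hG2, hG3⟩
        · exact Or.inl ⟨c, fun z => by show (F.eval z && G.eval z) = _; rw [hb, hc]; simp⟩
        · exact Or.inr ⟨G', hG1, by omega, fun z => by
            rw [hG3]; show _ = (F.eval z && G.eval z); rw [hb]; simp⟩
    · rcases ihG with ⟨c, hc⟩ | ⟨G', hG1, hG2, hG3⟩
      · cases c with
        | false => exact Or.inl ⟨false, fun z => by
            show (F.eval z && G.eval z) = _; rw [hc]; simp⟩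
        | true => exact Or.inr ⟨F', hF1, by omega, fun z => by
            rw [hF3]; show _ = (F.eval z && G.eval z); rw [hc]; simp⟩
      · exact Or.inr ⟨Fm.and F' G', ⟨hF1, hG1⟩, by
          show F'.size + G'.size ≤ F.size + G.size; omega, fun z => by
            show (F'.eval z && G'.eval z) = (F.eval z && G.eval z); rw [hF3, hG3]⟩
  | or F G ihF ihG =>
    have hs : (Fm.or F G).size = F.size + G.size := rfl
    rcases ihF with ⟨b, hb⟩ | ⟨F', hF1, hF2, hF3⟩
    · cases b with
      | true => exact Or.inl ⟨true, fun z => by show (F.eval z || G.eval z) = _; rw [hb]; rfl⟩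
      | false =>
        rcases ihG with ⟨c, hc⟩ | ⟨G', hG1, hG2, hG3⟩
        · exact Or.inl ⟨c, fun z => by show (F.eval z || G.eval z) = _; rw [hb, hc]; simp⟩
        · exact Or.inr ⟨G', hG1, by omega, fun z => by
            rw [hG3]; show _ = (F.eval z || G.eval z); rw [hb]; simp⟩
    · rcases ihG with ⟨c, hc⟩ | ⟨G', hG1, hG2, hG3⟩
      · cases c with
        | true => exact Or.inl ⟨true, fun z => by
            show (F.eval z || G.eval z) = _; rw [hc]; simp⟩
        | false => exact Or.inr ⟨F', hF1, by omega, fun z => by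
            rw [hF3]; show _ = (F.eval z || G.eval z); rw [hc]; simp⟩
      · exact Or.inr ⟨Fm.or F' G', ⟨hF1, hG1⟩, by
          show F'.size + G'.size ≤ F.size + G.size; omega, fun z => by
            show (F'.eval z || G'.eval z) = (F.eval z || G.eval z); rw [hF3, hG3]⟩

open Classical in
/-- functions of constant-free formulas with exactly `i` leaves -/
noncomputable def countNC (V : Type) [Fintype V] (i : ℕ) :
    Finset ((V → Bool) → Bool) :=
  Finset.univ.filter fun f => ∃ F : Fm V, countCF F ∧ F.size = i ∧ ∀ z, F.eval z = f z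

lemma count_mem_NC {V : Type} [Fintype V] (i : ℕ) (f : (V → Bool) → Bool) :
    f ∈ countNC V i ↔ ∃ F : Fm V, countCF F ∧ F.size = i ∧ ∀ z, F.eval z = f z := by
  classical
  unfold countNC
  rw [Finset.mem_filter]
  exact ⟨fun h => h.2, fun h => ⟨Finset.mem_univ _, h⟩⟩

lemma count_NC_one {V : Type} [Fintype V] : (countNC V 1).card ≤ 2 * Fintype.card V := by
  classical
  have h1 : countNC V 1 ⊆ Finset.image (fun p : V × Bool => fun z : V → Bool => (z p.1 == p.2))
      Finset.univ := by
    intro f hf
    rw [count_mem_NC] at hf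
    obtain ⟨F, hF1, hF2, hF3⟩ := hf
    rw [Finset.mem_image]
    cases F with
    | lit v b => exact ⟨(v, b), Finset.mem_univ _, funext fun z => hF3 z⟩
    | cst b => exact hF1.elim
    | and F G =>
      have h1 := count_size_pos F hF1.1
      have h2 := count_size_pos G hF1.2
      have h3 : F.size + G.size = 1 := hF2
      omega
    | or F G =>
      have h1 := count_size_pos F hF1.1
      have h2 := count_size_pos G hF1.2
      have h3 : F.size + G.size = 1 := hF2
      omega
  refine (Finset.card_le_card h1).trans (Finset.card_image_le.trans ?_)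
  rw [Finset.card_univ, Fintype.card_prod, Fintype.card_bool, mul_comm]

lemma count_NC_step {V : Type} [Fintype V] (i : ℕ) (hi : 2 ≤ i) :
    (countNC V i).card ≤
      ∑ a ∈ Finset.Ico 1 i, 2 * ((countNC V a).card * (countNC V (i - a)).card) := by
  classical
  have h1 : countNC V i ⊆ (Finset.Ico 1 i).biUnion fun a =>
      (Finset.image (fun p : ((V → Bool) → Bool) × ((V → Bool) → Bool) =>
        fun z => (p.1 z && p.2 z)) (countNC V a ×ˢ countNC V (i - a))) ∪
      (Finset.image (fun p : ((V → Bool) → Bool) × ((V → Bool) → Bool) =>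
        fun z => (p.1 z || p.2 z)) (countNC V a ×ˢ countNC V (i - a))) := by
    intro f hf
    rw [count_mem_NC] at hf
    obtain ⟨F, hF1, hF2, hF3⟩ := hf
    rw [Finset.mem_biUnion]
    cases F with
    | lit v b =>
      have : (1 : ℕ) = i := hF2
      omega
    | cst b => exact hF1.elim
    | and F G =>
      have h1 := count_size_pos F hF1.1
      have h2 := count_size_pos G hF1.2
      have h3 : F.size + G.size = i := hF2
      refine ⟨F.size, Finset.mem_Ico.2 ⟨h1, by omega⟩, Finset.mem_union_left _ ?_⟩
      rw [Finset.mem_image]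
      refine ⟨(fun z => F.eval z, fun z => G.eval z), Finset.mem_product.2 ⟨?_, ?_⟩,
        funext fun z => hF3 z⟩
      · rw [count_mem_NC]; exact ⟨F, hF1.1, rfl, fun _ => rfl⟩
      · rw [count_mem_NC]; exact ⟨G, hF1.2, by omega, fun _ => rfl⟩
    | or F G =>
      have h1 := count_size_pos F hF1.1
      have h2 := count_size_pos G hF1.2
      have h3 : F.size + G.size = i := hF2
      refine ⟨F.size, Finset.mem_Ico.2 ⟨h1, by omega⟩, Finset.mem_union_right _ ?_⟩
      rw [Finset.mem_image]
      refine ⟨(fun z => F.eval z, fun z => G.eval z), Finset.mem_product.2 ⟨?_, ?_⟩,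
        funext fun z => hF3 z⟩
      · rw [count_mem_NC]; exact ⟨F, hF1.1, rfl, fun _ => rfl⟩
      · rw [count_mem_NC]; exact ⟨G, hF1.2, by omega, fun _ => rfl⟩
  refine (Finset.card_le_card h1).trans (Finset.card_biUnion_le.trans ?_)
  refine Finset.sum_le_sum fun a _ => ?_
  refine (Finset.card_union_le _ _).trans ?_
  have h2 : ∀ g : ((V → Bool) → Bool) × ((V → Bool) → Bool) → ((V → Bool) → Bool),
      (Finset.image g (countNC V a ×ˢ countNC V (i - a))).card ≤
        (countNC V a).card * (countNC V (i - a)).card := fun g => by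
    rw [← Finset.card_product]; exact Finset.card_image_le
  have h3 := h2 (fun p => fun z => (p.1 z && p.2 z))
  have h4 := h2 (fun p => fun z => (p.1 z || p.2 z))
  omega

lemma count_NC_bound {V : Type} [Fintype V] (s B : ℕ)
    (hB : 2 * Fintype.card V + 2 * s + 2 ≤ B) :
    ∀ i, 1 ≤ i → i ≤ s → (countNC V i).card ≤ B ^ (2 * i - 1) := by
  intro i
  induction i using Nat.strong_induction_on with
  | _ i ih =>
    intro h1 h2
    rcases Nat.lt_or_ge i 2 with h | h
    · have hi : i = 1 := by omega
      subst hi
      refine count_NC_one.trans ?_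
      show 2 * Fintype.card V ≤ B ^ 1
      rw [pow_one]; omega
    · refine (count_NC_step i h).trans ?_
      calc ∑ a ∈ Finset.Ico 1 i, 2 * ((countNC V a).card * (countNC V (i - a)).card)
          ≤ ∑ a ∈ Finset.Ico 1 i, 2 * B ^ (2 * i - 2) := by
            refine Finset.sum_le_sum fun a ha => Nat.mul_le_mul_left _ ?_
            rw [Finset.mem_Ico] at ha
            have e1 := ih a ha.2 ha.1 (by omega)
            have e2 := ih (i - a) (by omega) (by omega) (by omega)
            refine (Nat.mul_le_mul e1 e2).trans (le_of_eq ?_)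
            rw [← pow_add]
            congr 1
            omega
        _ = (i - 1) * (2 * B ^ (2 * i - 2)) := by rw [Finset.sum_const, Nat.card_Ico, smul_eq_mul]
        _ = (2 * (i - 1)) * B ^ (2 * i - 2) := by ring
        _ ≤ B * B ^ (2 * i - 2) := Nat.mul_le_mul_right _ (by omega)
        _ = B ^ (2 * i - 1) := by
            rw [← pow_succ']
            congr 1
            omega

open Classical in
theorem count_fm {V : Type} [Fintype V] [DecidableEq V] (s B : ℕ)
    (hB : 2 * Fintype.card V + 2 * s + 2 ≤ B) :
    ((Finset.univ : Finset ((V → Bool) → Bool)).filter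
      (fun f => ∃ F : Fm V, F.size ≤ s ∧ ∀ z, F.eval z = f z)).card ≤ B ^ (2 * s) + 2 := by
  have h1 : ((Finset.univ : Finset ((V → Bool) → Bool)).filter
      (fun f => ∃ F : Fm V, F.size ≤ s ∧ ∀ z, F.eval z = f z)) ⊆
      ((Finset.Ico 1 (s + 1)).biUnion fun i => countNC V i) ∪
        Finset.image (fun b : Bool => fun _ : V → Bool => b) Finset.univ := by
    intro f hf
    rw [Finset.mem_filter] at hf
    obtain ⟨_, F, hF1, hF2⟩ := hf
    rw [Finset.mem_union]
    rcases count_nf F with ⟨b, hb⟩ | ⟨F', h1, h2, h3⟩
    · right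
      rw [Finset.mem_image]
      exact ⟨b, Finset.mem_univ _, funext fun z => by rw [← hF2, hb]⟩
    · left
      rw [Finset.mem_biUnion]
      refine ⟨F'.size, Finset.mem_Ico.2 ⟨count_size_pos F' h1, by omega⟩, ?_⟩
      rw [count_mem_NC]
      exact ⟨F', h1, rfl, fun z => by rw [h3, hF2]⟩
  refine (Finset.card_le_card h1).trans ((Finset.card_union_le _ _).trans ?_)
  refine Nat.add_le_add (Finset.card_biUnion_le.trans ?_)
    (Finset.card_image_le.trans (by simp))
  rcases Nat.eq_zero_or_pos s with hs | hs
  · subst hs; simp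
  · calc ∑ i ∈ Finset.Ico 1 (s + 1), (countNC V i).card
        ≤ ∑ i ∈ Finset.Ico 1 (s + 1), B ^ (2 * s - 1) := by
          refine Finset.sum_le_sum fun i hi => ?_
          rw [Finset.mem_Ico] at hi
          refine (count_NC_bound s B hB i hi.1 (by omega)).trans ?_
          exact Nat.pow_le_pow_right (by omega) (by omega)
      _ = s * B ^ (2 * s - 1) := by
          rw [Finset.sum_const, Nat.card_Ico, smul_eq_mul, Nat.add_sub_cancel]
      _ ≤ B * B ^ (2 * s - 1) := Nat.mul_le_mul_right _ (by omega)
      _ = B ^ (2 * s) := by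
          rw [← pow_succ']
          congr 1
          omega

end UnbTop
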