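import Pool.Agent.H.MP_027d00_lc.unb.Moment
import Pool.Agent.H.MP_027d00_lc.unb.Count

/-!
# Existence of good coefficients (job E)
-/

set_option autoImplicit false

namespace UnbTop

open Fm

/-- the point of `K` belonging to a setting `u` of the free variables -/
noncomputable def existIota {K : Type} [Field K] {N : ℕ} (β : K) (U : Finset (Fin N)) (z0 : K)
    (u : {i // i ∈ U} → Bool) : K :=
  z0 + ∑ i : {i // i ∈ U}, if u i then β ^ ((i : Fin N) : ℕ) else 0

theorem existIota_injective {K : Type} [Field K] [CharP K 2] {N k : ℕ} (β : K)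
    (hβ : ∀ S : Finset (Fin N), S.Nonempty → S.card ≤ k → ∑ i ∈ S, β ^ (i : ℕ) ≠ 0)
    (U : Finset (Fin N)) (hU : U.card = k) (z0 : K) :
    Function.Injective (existIota β U z0) := by
  classical
  intro u u' h
  by_contra hne
  obtain ⟨i0, hi0⟩ := Function.ne_iff.mp hne
  let T : Finset {i // i ∈ U} := Finset.univ.filter (fun i => u i ≠ u' i)
  let S : Finset (Fin N) := T.map (Function.Embedding.subtype _)
  have hSne : S.Nonempty := ⟨i0.1, by
    simp only [S, Finset.mem_map, T, Finset.mem_filter, Finset.mem_univ, true_and]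
    exact ⟨i0, hi0, rfl⟩⟩
  have hScard : S.card ≤ k := by
    rw [← hU]
    apply Finset.card_le_card
    intro i hi
    simp only [S, Finset.mem_map] at hi
    obtain ⟨j, _, rfl⟩ := hi
    exact j.2
  apply hβ S hSne hScard
  have h1 : ∑ i ∈ S, β ^ (i : ℕ) =
      ∑ i : {i // i ∈ U}, if u i ≠ u' i then β ^ ((i : Fin N) : ℕ) else 0 := by
    simp only [S, Finset.sum_map, T, Finset.sum_filter]
    rfl
  have h2 : ∀ i : {i // i ∈ U}, (if u i ≠ u' i then β ^ ((i : Fin N) : ℕ) else 0) =
      (if u i then β ^ ((i : Fin N) : ℕ) else 0) + (if u' i then β ^ ((i : Fin N) : ℕ) else 0) := by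
    intro i
    cases hu : u i <;> cases hu' : u' i <;> simp [CharTwo.add_self_eq_zero]
  rw [h1]
  simp only [h2]
  rw [Finset.sum_add_distrib]
  unfold existIota at h
  have h3 := add_left_cancel h
  rw [h3]
  exact CharTwo.add_self_eq_zero _

/-- extension of a setting of the free variables by `false` -/
def existExt {N : ℕ} (U : Finset (Fin N)) (u : {i // i ∈ U} → Bool) : Fin N → Bool :=
  fun i => if h : i ∈ U then u ⟨i, h⟩ else false

theorem exist_eval_congr {V : Type} (U : Finset V) (F : Fm V) (hF : F.VarsIn U)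
    (z z' : V → Bool) (h : ∀ i ∈ U, z i = z' i) : F.eval z = F.eval z' := by
  induction F with
  | lit v b => simp only [eval]; rw [h v hF]
  | cst b => rfl
  | and F G ihF ihG => simp only [eval]; rw [ihF hF.1, ihG hF.2]
  | or F G ihF ihG => simp only [eval]; rw [ihF hF.1, ihG hF.2]

/-- the signed sum -/
noncomputable def existS {K : Type} [Field K] (lam : K →+ ZMod 2) {N J : ℕ} (β : K)
    (U : Finset (Fin N)) (z0 : K) (g : (Fin N → Bool) → Bool) (x : Fin J → K) : ℝ :=
  ∑ u : {i // i ∈ U} → Bool, (if g (existExt U u) then (1 : ℝ) else 0) *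
    sgn (lam (∑ j : Fin J, x j * existIota β U z0 u ^ (j : ℕ)))

theorem exist_sum_restrict {N : ℕ} (U : Finset (Fin N)) (G : ({i // i ∈ U} → Bool) → ℝ) :
    ∑ z : Fin N → Bool, G (fun i => z i) = 2 ^ (N - U.card) * ∑ u : {i // i ∈ U} → Bool, G u := by
  classical
  have h := Fintype.sum_equiv (Equiv.piEquivPiSubtypeProd (fun i => i ∈ U) (fun _ : Fin N => Bool))
    (fun z : Fin N → Bool => G (fun i => z i)) (fun q => G q.1) (by
      intro z
      rfl)
  rw [h, Fintype.sum_prod_type]
  simp only [Finset.sum_const, Finset.card_univ, nsmul_eq_mul]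
  rw [← Finset.mul_sum]
  congr 1
  have h1 : Fintype.card ({i // ¬ i ∈ U} → Bool) = 2 ^ (N - U.card) := by
    rw [Fintype.card_fun, Fintype.card_bool]
    congr 1
    rw [Fintype.card_subtype_compl, Fintype.card_fin, Fintype.card_coe]
  rw [h1]
  push_cast
  rfl

theorem exist_avg {K : Type} [Field K] (lam : K →+ ZMod 2) {N J : ℕ} (β : K)
    (U : Finset (Fin N)) (a : Fin N → Bool) (F : Fm (Fin N)) (hF : F.VarsIn U)
    (g : (Fin N → Bool) → Bool) (hg : ∀ z, F.eval z = g z) (x : Fin J → K) :
    avg U a (fun z => sgn (lam (∑ j : Fin J, x j *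
        (∑ i : Fin N, if z i then β ^ (i : ℕ) else 0) ^ (j : ℕ))) *
          (if F.eval z then 1 else 0)) =
      existS lam β U (∑ i ∈ Uᶜ, if a i then β ^ (i : ℕ) else 0) g x / 2 ^ U.card := by
  classical
  have hUN : U.card ≤ N := by
    have := Finset.card_le_univ U
    simpa using this
  have key : ∀ z : Fin N → Bool, sgn (lam (∑ j : Fin J, x j *
        (∑ i : Fin N, if U.piecewise z a i then β ^ (i : ℕ) else 0) ^ (j : ℕ))) *
          (if F.eval (U.piecewise z a) then (1 : ℝ) else 0) =
      (fun u : {i // i ∈ U} → Bool => (if g (existExt U u) then (1 : ℝ) else 0) *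
        sgn (lam (∑ j : Fin J, x j * existIota β U
          (∑ i ∈ Uᶜ, if a i then β ^ (i : ℕ) else 0) u ^ (j : ℕ)))) (fun i => z i) := by
    intro z
    have h1 : F.eval (U.piecewise z a) = g (existExt U (fun i : {i // i ∈ U} => z i)) := by
      rw [← hg]
      apply exist_eval_congr U F hF
      intro i hi
      rw [Finset.piecewise_eq_of_mem _ _ _ hi]
      simp [existExt, hi]
    have h2 : (∑ i : Fin N, if U.piecewise z a i then β ^ (i : ℕ) else 0) =
        existIota β U (∑ i ∈ Uᶜ, if a i then β ^ (i : ℕ) else 0)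
          (fun i : {i // i ∈ U} => z i) := by
      unfold existIota
      rw [← Finset.sum_add_sum_compl U, add_comm]
      congr 1
      · apply Finset.sum_congr rfl
        intro i hi
        rw [Finset.piecewise_eq_of_notMem _ _ _ (Finset.mem_compl.mp hi)]
      · rw [← Finset.sum_coe_sort U]
        apply Finset.sum_congr rfl
        intro i _
        rw [Finset.piecewise_eq_of_mem _ _ _ i.2]
    simp only [h1, h2]
    ring
  unfold avg existS
  rw [Finset.sum_congr rfl (fun z _ => key z),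
    exist_sum_restrict U (fun u : {i // i ∈ U} → Bool =>
      (if g (existExt U u) then (1 : ℝ) else 0) *
        sgn (lam (∑ j : Fin J, x j * existIota β U
          (∑ i ∈ Uᶜ, if a i then β ^ (i : ℕ) else 0) u ^ (j : ℕ)))), Fintype.card_fin]
  have h3 : (2 : ℝ) ^ N = 2 ^ (N - U.card) * 2 ^ U.card := by
    rw [← pow_add]
    congr 1
    omega
  rw [h3]
  field_simp

open Classical in
/-- the coefficients for which the signed sum is large -/
noncomputable def existBad {K : Type} [Field K] [Fintype K] (lam : K →+ ZMod 2) {N : ℕ}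
    (J k κ : ℕ) (β : K) (q : Finset (Fin N) × K × ((Fin N → Bool) → Bool)) :
    Finset (Fin J → K) :=
  Finset.univ.filter (fun x => 2 ^ (k - κ) < |existS lam β q.1 q.2.1 q.2.2 x|)

theorem existBad_card {K : Type} [Field K] [Fintype K] [DecidableEq K] [CharP K 2]
    (lam : K →+ ZMod 2) (hlam : ∃ c, lam c ≠ 0) (N k κ t J : ℕ) (β : K)
    (hβ : ∀ S : Finset (Fin N), S.Nonempty → S.card ≤ k → ∑ i ∈ S, β ^ (i : ℕ) ≠ 0)
    (hκ : 3 * κ ≤ k) (ht : 1 ≤ t) (hJ : 2 * t ≤ J)
    (q : Finset (Fin N) × K × ((Fin N → Bool) → Bool)) (hq : q.1.card = k) :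
    (existBad lam J k κ β q).card * 2 ^ (κ * t) ≤ Fintype.card K ^ J * (6 * t) ^ t := by
  classical
  obtain ⟨U, z0, g⟩ := q
  simp only at hq
  have hm := moment lam hlam (existIota β U z0) (existIota_injective β hβ U hq z0)
    (fun u => if g (existExt U u) then (1 : ℝ) else 0) (by
      intro u
      split_ifs <;> simp) t J ht hJ
  have hcardI : Fintype.card ({i // i ∈ U} → Bool) = 2 ^ k := by
    rw [Fintype.card_fun, Fintype.card_bool, Fintype.card_coe, hq]
  rw [hcardI] at hm
  have h1 : ((existBad lam J k κ β (U, z0, g)).card : ℝ) * (2 ^ (k - κ)) ^ (2 * t) ≤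
      ∑ x : Fin J → K, (existS lam β U z0 g x) ^ (2 * t) := by
    calc ((existBad lam J k κ β (U, z0, g)).card : ℝ) * (2 ^ (k - κ)) ^ (2 * t)
        = ∑ _x ∈ existBad lam J k κ β (U, z0, g), ((2 : ℝ) ^ (k - κ)) ^ (2 * t) := by
          rw [Finset.sum_const, nsmul_eq_mul]
      _ ≤ ∑ x ∈ existBad lam J k κ β (U, z0, g), (existS lam β U z0 g x) ^ (2 * t) := by
          apply Finset.sum_le_sum
          intro x hx
          simp only [existBad, Finset.mem_filter, Finset.mem_univ, true_and] at hx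
          rw [pow_mul (existS lam β U z0 g x), ← sq_abs, ← pow_mul (|existS lam β U z0 g x|)]
          exact pow_le_pow_left₀ (by positivity) hx.le _
      _ ≤ ∑ x : Fin J → K, (existS lam β U z0 g x) ^ (2 * t) := by
          apply Finset.sum_le_sum_of_subset_of_nonneg (Finset.subset_univ _)
          intro x _ _
          rw [pow_mul]
          positivity
  have h2 : ((existBad lam J k κ β (U, z0, g)).card : ℝ) * (2 ^ (k - κ)) ^ (2 * t) ≤
      (Fintype.card K : ℝ) ^ J * (6 * t * (2 ^ k : ℕ)) ^ t := h1.trans hm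
  have h3 : ((existBad lam J k κ β (U, z0, g)).card) * (2 ^ (k - κ)) ^ (2 * t) ≤
      (Fintype.card K) ^ J * (6 * t * 2 ^ k) ^ t := by
    exact_mod_cast h2
  have h4 : (2 ^ (k - κ)) ^ (2 * t) = 2 ^ ((k - 2 * κ) * t) * 2 ^ (k * t) := by
    rw [← pow_mul, ← pow_add]
    congr 1
    have e1 : 2 * (k - κ) = (k - 2 * κ) + k := by omega
    calc (k - κ) * (2 * t) = (2 * (k - κ)) * t := by ring
      _ = ((k - 2 * κ) + k) * t := by rw [e1]
      _ = _ := by ring
  have h5 : (6 * t * 2 ^ k) ^ t = (6 * t) ^ t * 2 ^ (k * t) := by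
    rw [mul_pow, ← pow_mul]
  rw [h4, h5, ← mul_assoc, ← mul_assoc] at h3
  have h6 := Nat.le_of_mul_le_mul_right h3 (by positivity)
  refine le_trans ?_ h6
  apply Nat.mul_le_mul_left
  apply Nat.pow_le_pow_right (by norm_num)
  apply Nat.mul_le_mul_right
  omega

theorem exists_good {K : Type} [Field K] [Fintype K] [DecidableEq K] [CharP K 2]
    (lam : K →+ ZMod 2) (hlam : ∃ c, lam c ≠ 0) (m N k κ t s0 J B : ℕ)
    (hcard : Fintype.card K = 2 ^ m) (β : K)
    (hβ : ∀ S : Finset (Fin N), S.Nonempty → S.card ≤ k → ∑ i ∈ S, β ^ (i : ℕ) ≠ 0)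
    (hkN : k ≤ N) (hκ : 3 * κ ≤ k) (ht : 1 ≤ t) (hJ : 2 * t ≤ J)
    (hB : 2 * N + 2 * s0 + 2 ≤ B)
    (hcount : (6 * t) ^ t * ((N + 1) ^ k * 2 ^ m * (B ^ (2 * s0) + 2)) < 2 ^ (κ * t)) :
    ∃ x : Fin J → K, ∀ U : Finset (Fin N), U.card = k → ∀ a : Fin N → Bool, ∀ F : Fm (Fin N),
      F.VarsIn U → F.size ≤ s0 →
      |avg U a (fun z => sgn (lam (∑ j : Fin J, x j *
        (∑ i : Fin N, if z i then β ^ (i : ℕ) else 0) ^ (j : ℕ))) *
          (if F.eval z then 1 else 0))| ≤ (1 / 2) ^ κ := by
  classical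
  let G : Finset ((Fin N → Bool) → Bool) := (Finset.univ : Finset ((Fin N → Bool) → Bool)).filter
      (fun f => ∃ F : Fm (Fin N), F.size ≤ s0 ∧ ∀ z, F.eval z = f z)
  have hG : G.card ≤ B ^ (2 * s0) + 2 := by
    have := count_fm (V := Fin N) s0 B (by simpa using hB)
    convert this
  let T : Finset (Finset (Fin N) × K × ((Fin N → Bool) → Bool)) :=
    Finset.powersetCard k Finset.univ ×ˢ Finset.univ ×ˢ G
  have hT : T.card ≤ (N + 1) ^ k * 2 ^ m * (B ^ (2 * s0) + 2) := by
    simp only [T, Finset.card_product, Finset.card_powersetCard, Finset.card_univ,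
      Fintype.card_fin, hcard]
    rw [mul_assoc]
    apply Nat.mul_le_mul
    · calc N.choose k ≤ N ^ k := Nat.choose_le_pow N k
        _ ≤ (N + 1) ^ k := Nat.pow_le_pow_left (by omega) _
    · exact Nat.mul_le_mul_left _ hG
  have hbad : (T.biUnion (existBad lam J k κ β)).card < Fintype.card (Fin J → K) := by
    have h1 : (T.biUnion (existBad lam J k κ β)).card * 2 ^ (κ * t) ≤
        T.card * (Fintype.card K ^ J * (6 * t) ^ t) := by
      calc (T.biUnion (existBad lam J k κ β)).card * 2 ^ (κ * t)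
          ≤ (∑ q ∈ T, (existBad lam J k κ β q).card) * 2 ^ (κ * t) :=
            Nat.mul_le_mul_right _ Finset.card_biUnion_le
        _ = ∑ q ∈ T, (existBad lam J k κ β q).card * 2 ^ (κ * t) := by
            rw [Finset.sum_mul]
        _ ≤ ∑ _q ∈ T, Fintype.card K ^ J * (6 * t) ^ t := by
            apply Finset.sum_le_sum
            intro q hq
            apply existBad_card lam hlam N k κ t J β hβ hκ ht hJ q
            simp only [T, Finset.mem_product, Finset.mem_powersetCard] at hq
            exact hq.1.2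
        _ = _ := by rw [Finset.sum_const, smul_eq_mul]
    have h2 : T.card * (Fintype.card K ^ J * (6 * t) ^ t) <
        Fintype.card (Fin J → K) * 2 ^ (κ * t) := by
      rw [Fintype.card_fun, Fintype.card_fin]
      have hpos : 0 < Fintype.card K ^ J := by
        apply pow_pos
        exact Fintype.card_pos
      calc T.card * (Fintype.card K ^ J * (6 * t) ^ t)
          ≤ ((N + 1) ^ k * 2 ^ m * (B ^ (2 * s0) + 2)) * (Fintype.card K ^ J * (6 * t) ^ t) :=
            Nat.mul_le_mul_right _ hT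
        _ = Fintype.card K ^ J * ((6 * t) ^ t *
            ((N + 1) ^ k * 2 ^ m * (B ^ (2 * s0) + 2))) := by ring
        _ < Fintype.card K ^ J * 2 ^ (κ * t) := Nat.mul_lt_mul_of_pos_left hcount hpos
    exact lt_of_mul_lt_mul_right (lt_of_le_of_lt h1 h2) (Nat.zero_le _)
  obtain ⟨x, hx⟩ : ∃ x, x ∉ T.biUnion (existBad lam J k κ β) := by
    by_contra hcon
    push Not at hcon
    have : T.biUnion (existBad lam J k κ β) = Finset.univ := by
      ext x
      simp only [Finset.mem_univ, iff_true]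
      exact hcon x
    rw [this, Finset.card_univ] at hbad
    exact lt_irrefl _ hbad
  refine ⟨x, fun U hU a F hF hs => ?_⟩
  let g : (Fin N → Bool) → Bool := fun z => F.eval z
  have hgG : g ∈ G := by
    simp only [G, Finset.mem_filter, Finset.mem_univ, true_and]
    exact ⟨F, hs, fun z => rfl⟩
  rw [exist_avg lam β U a F hF g (fun z => rfl) x, hU]
  have h1 : x ∉ existBad lam J k κ β (U, ∑ i ∈ Uᶜ, if a i then β ^ (i : ℕ) else 0, g) := by
    intro hcon
    apply hx
    rw [Finset.mem_biUnion]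
    refine ⟨_, ?_, hcon⟩
    simp only [T, Finset.mem_product, Finset.mem_powersetCard, Finset.mem_univ, true_and]
    exact ⟨⟨Finset.subset_univ _, hU⟩, hgG⟩
  simp only [existBad, Finset.mem_filter, Finset.mem_univ, true_and, not_lt] at h1
  rw [abs_div, abs_of_pos (by positivity : (0 : ℝ) < 2 ^ k), div_le_iff₀ (by positivity)]
  refine h1.trans (le_of_eq ?_)
  rw [one_div, inv_pow]
  rw [eq_comm, inv_mul_eq_iff_eq_mul₀ (by positivity), ← pow_add]
  congr 1
  omega

end UnbTop
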