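import Pool.Agent.H.MP_027d00_lc.unb.Rep

/-!
# The discriminator lemma (job H)
-/

set_option autoImplicit false

namespace UnbTop

open Fm

lemma ptf_exp_quarter : Real.exp (1 / 4) ≤ 1.29 := by
  by_contra hcon
  push Not at hcon
  have h1 : Real.exp 1 = Real.exp (1 / 4) ^ 4 := by
    rw [← Real.exp_nat_mul]; norm_num
  have h2 : (1.29 : ℝ) ^ 4 ≤ Real.exp (1 / 4) ^ 4 := pow_le_pow_left₀ (by norm_num) hcon.le 4
  have h3 := Real.exp_one_lt_d9
  rw [h1] at h3
  norm_num at h2 h3
  linarith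

lemma ptf_prod_one_add {r : ℕ} (t : Finset (Fin r)) (a : Fin r → ℝ)
    (ha : ∀ v ∈ t, 4 * (r : ℝ) ≤ a v) :
    ∏ v ∈ t, (1 + a v) ≤ 1.29 * ∏ v ∈ t, a v ∧ 1 ≤ ∏ v ∈ t, a v := by
  rcases Nat.eq_zero_or_pos r with hr | hr
  · subst hr
    have : t = ∅ := by
      ext v; exact v.elim0
    subst this
    norm_num
  · have hr' : (1 : ℝ) ≤ r := by exact_mod_cast hr
    have ha1 : ∀ v ∈ t, 1 ≤ a v := fun v hv => by
      have := ha v hv
      linarith
    have h0 : 1 ≤ ∏ v ∈ t, a v := by
      have := Finset.prod_le_prod (s := t) (f := fun _ => (1 : ℝ)) (g := a)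
        (fun _ _ => zero_le_one) ha1
      simpa using this
    refine ⟨?_, h0⟩
    have h1 : ∏ v ∈ t, (1 + a v) ≤ ∏ v ∈ t, (a v * Real.exp (1 / (4 * r))) := by
      refine Finset.prod_le_prod (fun v hv => by linarith [ha1 v hv]) fun v hv => ?_
      have h2 := ha1 v hv
      have h3 : 1 / a v ≤ 1 / (4 * (r : ℝ)) := one_div_le_one_div_of_le (by linarith) (ha v hv)
      have h4 := Real.add_one_le_exp (1 / (4 * (r : ℝ)))
      have h5 : 1 + a v = a v * (1 + 1 / a v) := by field_simp; ring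
      rw [h5]
      exact mul_le_mul_of_nonneg_left (by linarith) (by linarith)
    refine h1.trans ?_
    rw [Finset.prod_mul_distrib, Finset.prod_const, ← Real.exp_nat_mul]
    have h6 : (t.card : ℝ) * (1 / (4 * r)) ≤ 1 / 4 := by
      have h7 : (t.card : ℝ) ≤ r := by
        have := Finset.card_le_univ t
        rw [Fintype.card_fin] at this
        exact_mod_cast this
      rw [mul_one_div, div_le_div_iff₀ (by positivity) (by norm_num)]
      linarith
    have h8 : Real.exp ((t.card : ℝ) * (1 / (4 * r))) ≤ 1.29 :=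
      (Real.exp_le_exp.2 h6).trans ptf_exp_quarter
    rw [mul_comm]
    exact mul_le_mul_of_nonneg_right h8 (by linarith)

/-- the number of satisfied formulas in block `v` -/
noncomputable def ptfS {V : Type} {r : ℕ} {M : Fin r → ℕ} (e : (v : Fin r) → Fin (M v) → Fm V)
    (v : Fin r) (z : V → Bool) : ℝ :=
  ∑ σ, if (e v σ).eval z then (1 : ℝ) else 0

lemma ptf_expand {V : Type} [Fintype V] [DecidableEq V] {r : ℕ} {w M : Fin r → ℕ}
    (e : (v : Fin r) → Fin (M v) → Fm V) (s W : ℕ) (hs : ∀ v σ, (e v σ).size ≤ w v * s)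
    (h : (V → Bool) → ℝ) (E : ℝ)
    (hE : ∀ F : Fm V, F.size ≤ W * s → |∑ z : V → Bool, h z * (if F.eval z then 1 else 0)| ≤ E)
    (t : Finset (Fin r)) : ∀ F : Fm V, F.size + (∑ v ∈ t, w v) * s ≤ W * s →
      |∑ z : V → Bool, h z * (if F.eval z then 1 else 0) * ∏ v ∈ t, ptfS e v z| ≤
        E * ∏ v ∈ t, (M v : ℝ) := by
  induction t using Finset.induction_on with
  | empty =>
    intro F hF
    simpa using hE F (by simpa using hF)
  | insert v t hv ih =>
    intro F hF
    rw [Finset.sum_insert hv] at hF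
    have h1 : ∑ z : V → Bool, h z * (if F.eval z then 1 else 0) * ∏ v ∈ insert v t, ptfS e v z =
        ∑ σ : Fin (M v), ∑ z : V → Bool,
          h z * (if (Fm.and F (e v σ)).eval z then 1 else 0) * ∏ v ∈ t, ptfS e v z := by
      rw [Finset.sum_comm]
      refine Finset.sum_congr rfl fun z _ => ?_
      rw [Finset.prod_insert hv]
      have h2 : ∀ σ : Fin (M v), h z * (if (Fm.and F (e v σ)).eval z then (1 : ℝ) else 0) *
          ∏ v ∈ t, ptfS e v z = h z * (if F.eval z then 1 else 0) * (∏ v ∈ t, ptfS e v z) *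
            (if (e v σ).eval z then (1 : ℝ) else 0) := by
        intro σ
        simp only [Fm.eval, Bool.and_eq_true]
        by_cases hF1 : F.eval z = true <;> by_cases hF2 : (e v σ).eval z = true <;>
          simp [hF1, hF2]
      rw [Finset.sum_congr rfl fun σ _ => h2 σ, ← Finset.mul_sum]
      rw [ptfS]
      ring
    rw [h1, Finset.prod_insert hv]
    calc |∑ σ : Fin (M v), ∑ z : V → Bool,
          h z * (if (Fm.and F (e v σ)).eval z then 1 else 0) * ∏ v ∈ t, ptfS e v z|
        ≤ ∑ σ : Fin (M v), |∑ z : V → Bool,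
          h z * (if (Fm.and F (e v σ)).eval z then 1 else 0) * ∏ v ∈ t, ptfS e v z| :=
          Finset.abs_sum_le_sum_abs _ _
      _ ≤ ∑ σ : Fin (M v), E * ∏ v ∈ t, (M v : ℝ) := by
          refine Finset.sum_le_sum fun σ _ => ih _ ?_
          have h3 := hs v σ
          have h4 : (w v + ∑ v ∈ t, w v) * s = w v * s + (∑ v ∈ t, w v) * s := by ring
          rw [h4] at hF
          show F.size + (e v σ).size + _ ≤ _
          omega
      _ = E * ((M v : ℝ) * ∏ v ∈ t, (M v : ℝ)) := by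
          rw [Finset.sum_const, Finset.card_univ, Fintype.card_fin, nsmul_eq_mul]
          ring

theorem exists_corr {V : Type} [Fintype V] [DecidableEq V] (s K W : ℕ) (hW : 1 ≤ W)
    (f : (V → Bool) → Bool) (h : HasRep s K W f) :
    ∃ F : Fm V, F.size ≤ W * s ∧
      1 / (2 * (8 * (W : ℝ)) ^ W * 2 ^ (K * W)) ≤
      |(∑ z : V → Bool, (if f z then (1 : ℝ) else -1) * (if F.eval z then 1 else 0)) /
        2 ^ (Fintype.card V)| := by
  classical
  obtain ⟨r, w, M, e, G, hw1, hwW, hM, hsz, hf⟩ := h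
  by_contra hcon
  push Not at hcon
  set T : ℝ := 2 ^ (Fintype.card V) with hT
  have hT0 : 0 < T := by positivity
  set D : ℝ := 2 * (8 * (W : ℝ)) ^ W * 2 ^ (K * W) with hD
  have hW' : (1 : ℝ) ≤ W := by exact_mod_cast hW
  have hD0 : 0 < D := by positivity
  set hh : (V → Bool) → ℝ := fun z => if f z then (1 : ℝ) else -1 with hhh
  have hE : ∀ F : Fm V, F.size ≤ W * s →
      |∑ z : V → Bool, hh z * (if F.eval z then 1 else 0)| ≤ T / D := by
    intro F hF
    have h1 := (hcon F hF).le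
    rw [abs_div, abs_of_pos hT0, div_le_iff₀ hT0] at h1
    calc _ ≤ 1 / D * T := h1
      _ = T / D := by ring
  -- the polynomial
  set c : Finset (Fin r) → ℝ := fun t => (if G (fun v => decide (v ∈ t)) then (1 : ℝ) else 0) - 1 / 2
    with hc
  have hcabs : ∀ t, |c t| = 1 / 2 := by
    intro t
    simp only [hc]
    split_ifs <;> norm_num
  set a : Fin r → (V → Bool) → ℝ := fun v z => 4 * (r : ℝ) * ptfS e v z with ha
  set P : (V → Bool) → ℝ := fun z => ∑ t ∈ (Finset.univ : Finset (Fin r)).powerset,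
    c t * ∏ v ∈ t, a v z with hP
  have hS0 : ∀ v z, 0 ≤ ptfS e v z := fun v z =>
    Finset.sum_nonneg fun σ _ => by split_ifs <;> norm_num
  -- pointwise lower bound
  have hlow : ∀ z, 0.355 ≤ hh z * P z := by
    intro z
    set V0 : Finset (Fin r) := Finset.univ.filter fun v => ∃ σ, (e v σ).eval z = true with hV0
    have hSout : ∀ v, v ∉ V0 → ptfS e v z = 0 := by
      intro v hv
      rw [hV0, Finset.mem_filter] at hv
      push Not at hv
      have h2 := hv (Finset.mem_univ v)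
      refine Finset.sum_eq_zero fun σ _ => ?_
      rw [if_neg (by simpa using h2 σ)]
    have hSin : ∀ v, v ∈ V0 → 1 ≤ ptfS e v z := by
      intro v hv
      rw [hV0, Finset.mem_filter] at hv
      obtain ⟨-, σ, hσ⟩ := hv
      have : (if (e v σ).eval z then (1 : ℝ) else 0) ≤ ptfS e v z :=
        Finset.single_le_sum (f := fun σ => if (e v σ).eval z then (1 : ℝ) else 0)
          (fun i _ => by split_ifs <;> norm_num) (Finset.mem_univ σ)
      simpa [hσ] using this
    have hPz : P z = ∑ t ∈ V0.powerset, c t * ∏ v ∈ t, a v z := by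
      show ∑ t ∈ (Finset.univ : Finset (Fin r)).powerset, c t * ∏ v ∈ t, a v z = _
      symm
      refine Finset.sum_subset (Finset.powerset_mono.2 (Finset.subset_univ _)) ?_
      intro t _ ht
      rw [Finset.mem_powerset, Finset.not_subset] at ht
      obtain ⟨v, hvt, hv⟩ := ht
      rw [Finset.prod_eq_zero hvt, mul_zero]
      show 4 * (r : ℝ) * ptfS e v z = 0
      rw [hSout v hv, mul_zero]
    have haV : ∀ v ∈ V0, 4 * (r : ℝ) ≤ a v z := by
      intro v hv
      have h1 := hSin v hv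
      have hr0 : (0 : ℝ) ≤ 4 * r := by positivity
      show 4 * (r : ℝ) ≤ 4 * (r : ℝ) * ptfS e v z
      nlinarith
    obtain ⟨hb1, hb2⟩ := ptf_prod_one_add V0 (fun v => a v z) haV
    have ha0 : ∀ v, 0 ≤ a v z := fun v => mul_nonneg (by positivity) (hS0 v z)
    have hsplit : ∑ t ∈ V0.powerset, c t * ∏ v ∈ t, a v z =
        c V0 * ∏ v ∈ V0, a v z + ∑ t ∈ V0.powerset.erase V0, c t * ∏ v ∈ t, a v z :=
      (Finset.add_sum_erase _ _ (Finset.mem_powerset_self V0)).symm
    have hrest : |∑ t ∈ V0.powerset.erase V0, c t * ∏ v ∈ t, a v z| ≤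
        1 / 2 * (∏ v ∈ V0, (1 + a v z) - ∏ v ∈ V0, a v z) := by
      have h1 : ∏ v ∈ V0, (1 + a v z) = ∑ t ∈ V0.powerset, ∏ v ∈ t, a v z :=
        Finset.prod_one_add V0
      rw [h1, ← Finset.add_sum_erase _ _ (Finset.mem_powerset_self V0), add_sub_cancel_left,
        Finset.mul_sum]
      refine (Finset.abs_sum_le_sum_abs _ _).trans (Finset.sum_le_sum fun t _ => ?_)
      rw [abs_mul, hcabs, abs_of_nonneg (Finset.prod_nonneg fun v _ => ha0 v)]
    have hcV0 : hh z * c V0 = 1 / 2 := by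
      have h1 : G (fun v => decide (v ∈ V0)) = f z := by
        rw [hf z]
        congr 1
        funext v
        simp [hV0]
      simp only [hc, hhh, h1]
      split_ifs <;> norm_num
    have hhabs : |hh z| = 1 := by
      simp only [hhh]; split_ifs <;> norm_num
    rw [hPz, hsplit, mul_add, ← mul_assoc, hcV0]
    have h3 : -(1 / 2 * (∏ v ∈ V0, (1 + a v z) - ∏ v ∈ V0, a v z)) ≤
        hh z * ∑ t ∈ V0.powerset.erase V0, c t * ∏ v ∈ t, a v z := by
      have h4 : |hh z * ∑ t ∈ V0.powerset.erase V0, c t * ∏ v ∈ t, a v z| ≤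
          1 / 2 * (∏ v ∈ V0, (1 + a v z) - ∏ v ∈ V0, a v z) := by
        rw [abs_mul, hhabs, one_mul]; exact hrest
      exact (abs_le.1 h4).1
    have e129 : (1.29 : ℝ) = 129 / 100 := by norm_num
    have e355 : (0.355 : ℝ) = 71 / 200 := by norm_num
    rw [e129] at hb1
    rw [e355]
    linarith
  -- upper bound
  have hup : |∑ z : V → Bool, hh z * P z| ≤ 1 / 2 * (T / D) * ∏ v : Fin r, (1 + 4 * (r : ℝ) * M v) := by
    have h1 : ∑ z : V → Bool, hh z * P z = ∑ t ∈ (Finset.univ : Finset (Fin r)).powerset,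
        c t * (4 * (r : ℝ)) ^ t.card * ∑ z : V → Bool, hh z *
          (if (Fm.cst true : Fm V).eval z then 1 else 0) * ∏ v ∈ t, ptfS e v z := by
      simp only [hP, Finset.mul_sum]
      rw [Finset.sum_comm]
      refine Finset.sum_congr rfl fun t _ => Finset.sum_congr rfl fun z _ => ?_
      have h2 : ∏ v ∈ t, a v z = (4 * (r : ℝ)) ^ t.card * ∏ v ∈ t, ptfS e v z := by
        rw [← Finset.prod_const, ← Finset.prod_mul_distrib]
      rw [h2]
      simp only [Fm.eval, if_true, mul_one]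
      ring
    rw [h1]
    have h3 : ∏ v : Fin r, (1 + 4 * (r : ℝ) * M v) =
        ∑ t ∈ (Finset.univ : Finset (Fin r)).powerset, ∏ v ∈ t, (4 * (r : ℝ) * M v) :=
      Finset.prod_one_add Finset.univ
    rw [h3, Finset.mul_sum]
    refine (Finset.abs_sum_le_sum_abs _ _).trans (Finset.sum_le_sum fun t _ => ?_)
    rw [abs_mul, abs_mul, hcabs, abs_of_nonneg (show (0 : ℝ) ≤ (4 * (r : ℝ)) ^ t.card by positivity)]
    have h4 := ptf_expand e s W hsz hh (T / D) hE t (Fm.cst true) (by
      show 0 + _ ≤ _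
      rw [zero_add]
      refine Nat.mul_le_mul_right s (le_trans ?_ hwW)
      exact Finset.sum_le_sum_of_subset (Finset.subset_univ t))
    have h5 : ∏ v ∈ t, (4 * (r : ℝ) * M v) = (4 * (r : ℝ)) ^ t.card * ∏ v ∈ t, (M v : ℝ) := by
      rw [← Finset.prod_const, ← Finset.prod_mul_distrib]
    rw [h5]
    calc 1 / 2 * (4 * (r : ℝ)) ^ t.card * |∑ z : V → Bool, hh z *
          (if (Fm.cst true : Fm V).eval z then 1 else 0) * ∏ v ∈ t, ptfS e v z|
        ≤ 1 / 2 * (4 * (r : ℝ)) ^ t.card * (T / D * ∏ v ∈ t, (M v : ℝ)) := by gcongr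
      _ = _ := by ring
  have hr : r ≤ W := by
    calc r = ∑ v : Fin r, 1 := by simp
      _ ≤ ∑ v, w v := Finset.sum_le_sum fun v _ => hw1 v
      _ ≤ W := hwW
  have hprod : ∏ v : Fin r, (1 + 4 * (r : ℝ) * M v) ≤ (8 * (W : ℝ)) ^ W * 2 ^ (K * W) := by
    have hrW : (r : ℝ) ≤ W := by exact_mod_cast hr
    calc ∏ v : Fin r, (1 + 4 * (r : ℝ) * M v) ≤ ∏ v : Fin r, (8 * (W : ℝ) * 2 ^ (K * w v)) := by
          refine Finset.prod_le_prod (fun v _ => by positivity) fun v _ => ?_
          have h1 : (M v : ℝ) ≤ 2 ^ (K * w v) := by exact_mod_cast hM v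
          have h2 : (1 : ℝ) ≤ 2 ^ (K * w v) := one_le_pow₀ (by norm_num)
          have h3 : (r : ℝ) * M v ≤ W * 2 ^ (K * w v) := by gcongr
          have h4 : (1 : ℝ) ≤ W * 2 ^ (K * w v) := one_le_mul_of_one_le_of_one_le hW' h2
          linarith
      _ = (8 * (W : ℝ)) ^ r * 2 ^ (K * ∑ v, w v) := by
          rw [Finset.prod_mul_distrib, Finset.prod_const, Finset.card_univ, Fintype.card_fin,
            Finset.prod_pow_eq_pow_sum, Finset.mul_sum]
      _ ≤ (8 * (W : ℝ)) ^ W * 2 ^ (K * W) := by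
          gcongr
          · linarith
          · norm_num
  have hsum : 0.355 * T ≤ ∑ z : V → Bool, hh z * P z := by
    calc 0.355 * T = ∑ z : V → Bool, (0.355 : ℝ) := by
          rw [Finset.sum_const, Finset.card_univ, Fintype.card_fun, Fintype.card_bool,
            nsmul_eq_mul, hT]
          push_cast
          ring
      _ ≤ _ := Finset.sum_le_sum fun z _ => hlow z
  have h9 : ∑ z : V → Bool, hh z * P z ≤ T / 4 := by
    refine (le_abs_self _).trans (hup.trans ?_)
    calc 1 / 2 * (T / D) * ∏ v : Fin r, (1 + 4 * (r : ℝ) * M v)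
        ≤ 1 / 2 * (T / D) * ((8 * (W : ℝ)) ^ W * 2 ^ (K * W)) := by gcongr
      _ = T / 4 := by
          rw [hD]
          field_simp
          norm_num
  norm_num at hsum
  linarith

end UnbTop
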