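import Pool.Agent.H.MP_027d00_lc.unb.Defs

/-!
# The field behind the explicit function (job F)
-/

set_option autoImplicit false

namespace UnbTop

open Polynomial

/-- Assemble an input of the explicit function. -/
def asm {m J N : ℕ} (p b : Fin m → Bool) (x : Fin J → Fin m → Bool) (y : Fin N → Bool) :
    Inp m J N → Bool
  | Inp.p i => p i
  | Inp.b i => b i
  | Inp.x j i => x j i
  | Inp.y i => y i

theorem setup_toPoly_coeff {m : ℕ} (v : Fin m → Bool) (n : ℕ) :
    (toPoly v).coeff n = if h : n < m then (if v ⟨n, h⟩ then 1 else 0) else 0 := by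
  unfold toPoly
  rw [Polynomial.finsetSum_coeff]
  have h1 : ∀ i : Fin m, (if v i = true then (X : (ZMod 2)[X]) ^ (i : ℕ) else 0).coeff n =
      if (i : ℕ) = n then (if v i then 1 else 0) else 0 := by
    intro i
    by_cases hv : v i = true
    · simp only [hv, if_true, Polynomial.coeff_X_pow]
      by_cases hn : (i : ℕ) = n
      · simp [hn]
      · simp [hn, Ne.symm hn]
    · simp [hv]
  simp only [h1]
  by_cases h : n < m
  · rw [dif_pos h, Finset.sum_eq_single (⟨n, h⟩ : Fin m)]
    · simp
    · intro i _ hi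
      have : (i : ℕ) ≠ n := fun h' => hi (Fin.ext h')
      simp [this]
    · simp
  · rw [dif_neg h]
    apply Finset.sum_eq_zero
    intro i _
    have : (i : ℕ) ≠ n := fun h' => h (h' ▸ i.2)
    simp [this]

theorem setup_toPoly_of_degree {m : ℕ} (Q : (ZMod 2)[X]) (hQ : Q.degree < m) :
    toPoly (fun i : Fin m => decide (Q.coeff (i : ℕ) = 1)) = Q := by
  ext n
  rw [setup_toPoly_coeff]
  by_cases h : n < m
  · rw [dif_pos h]
    have h2 : ∀ c : ZMod 2, (if decide (c = 1) = true then (1 : ZMod 2) else 0) = c := by decide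
    exact h2 _
  · rw [dif_neg h]
    symm
    apply Polynomial.coeff_eq_zero_of_degree_lt
    refine lt_of_lt_of_le hQ ?_
    exact_mod_cast (not_lt.1 h)

theorem setup_irred (m : ℕ) (hm : 1 ≤ m) :
    ∃ P : (ZMod 2)[X], P.Monic ∧ Irreducible P ∧ P.natDegree = m := by
  obtain ⟨α, hα⟩ := Field.exists_primitive_element (ZMod 2) (GaloisField 2 m)
  have hint : IsIntegral (ZMod 2) α := IsIntegral.of_finite _ _
  refine ⟨minpoly (ZMod 2) α, minpoly.monic hint, minpoly.irreducible hint, ?_⟩
  rw [(Field.primitive_element_iff_minpoly_natDegree_eq (ZMod 2) α).1 hα]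
  exact GaloisField.finrank 2 (by omega)

theorem setup_beta {K : Type} [Field K] [Fintype K] (N k : ℕ)
    (h : (N + 1) ^ (k + 1) < Fintype.card K) :
    ∃ β : K, ∀ S : Finset (Fin N), S.Nonempty → S.card ≤ k → ∑ i ∈ S, β ^ (i : ℕ) ≠ 0 := by
  classical
  let Sf : (Fin k → Option (Fin N)) → Finset (Fin N) :=
    fun f => Finset.univ.filter (fun i => ∃ j, f j = some i)
  let q : (Fin k → Option (Fin N)) → K[X] := fun f => ∑ i ∈ Sf f, X ^ (i : ℕ)
  have hqc : ∀ f (n : ℕ), (q f).coeff n = if ∃ i ∈ Sf f, (i : ℕ) = n then 1 else 0 := by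
    intro f n
    simp only [q]
    rw [Polynomial.finsetSum_coeff]
    simp only [Polynomial.coeff_X_pow]
    by_cases hn : ∃ i ∈ Sf f, (i : ℕ) = n
    · rw [if_pos hn]
      obtain ⟨i, hi, rfl⟩ := hn
      rw [Finset.sum_eq_single i]
      · simp
      · intro j _ hj
        have : (i : ℕ) ≠ (j : ℕ) := fun h' => hj (Fin.ext h'.symm)
        simp [this]
      · intro h'; exact absurd hi h'
    · rw [if_neg hn]
      apply Finset.sum_eq_zero
      intro i hi
      have : n ≠ (i : ℕ) := fun h' => hn ⟨i, hi, h'.symm⟩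
      simp [this]
  have hcard : ∀ f, (q f).roots.toFinset.card ≤ N := by
    intro f
    refine (Multiset.toFinset_card_le _).trans ((Polynomial.card_roots' _).trans ?_)
    rw [Polynomial.natDegree_le_iff_coeff_eq_zero]
    intro n hn
    rw [hqc, if_neg]
    rintro ⟨i, _, rfl⟩
    exact absurd i.2 (by omega)
  have hbad : (Finset.univ.biUnion (fun f => (q f).roots.toFinset)).card < Fintype.card K := by
    refine lt_of_le_of_lt ?_ h
    refine Finset.card_biUnion_le.trans ?_
    refine (Finset.sum_le_card_nsmul _ _ N (fun f _ => hcard f)).trans ?_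
    simp only [Finset.card_univ, Fintype.card_fun, Fintype.card_option, Fintype.card_fin,
      smul_eq_mul]
    rw [pow_succ]
    exact Nat.mul_le_mul_left _ (Nat.le_succ N)
  obtain ⟨β, hβ⟩ : ∃ β, β ∉ Finset.univ.biUnion (fun f => (q f).roots.toFinset) := by
    by_contra hcon
    push Not at hcon
    have : Finset.univ.biUnion (fun f => (q f).roots.toFinset) = Finset.univ :=
      Finset.eq_univ_iff_forall.2 hcon
    rw [this, Finset.card_univ] at hbad
    exact lt_irrefl _ hbad
  refine ⟨β, fun S hS hk h0 => hβ ?_⟩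
  let f : Fin k → Option (Fin N) :=
    fun j => if hj : (j : ℕ) < S.card then some (S.equivFin.symm ⟨j, hj⟩ : Fin N) else none
  have hSf : Sf f = S := by
    ext i
    simp only [Sf, Finset.mem_filter, Finset.mem_univ, true_and]
    constructor
    · rintro ⟨j, hj⟩
      simp only [f] at hj
      split_ifs at hj with h1
      rw [← Option.some.inj hj]
      exact (S.equivFin.symm ⟨j, h1⟩).2
    · intro hi
      refine ⟨⟨(S.equivFin ⟨i, hi⟩ : ℕ), lt_of_lt_of_le (S.equivFin ⟨i, hi⟩).2 hk⟩, ?_⟩
      simp only [f]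
      rw [dif_pos (S.equivFin ⟨i, hi⟩).2]
      simp
  rw [Finset.mem_biUnion]
  refine ⟨f, Finset.mem_univ _, ?_⟩
  rw [Multiset.mem_toFinset, Polynomial.mem_roots']
  constructor
  · intro hq
    obtain ⟨i, hi⟩ := hS
    have h1 := hqc f (i : ℕ)
    rw [hq, if_pos ⟨i, by rw [hSf]; exact hi, rfl⟩] at h1
    simp at h1
  · rw [Polynomial.IsRoot.def]
    simp only [q]
    rw [Polynomial.eval_finsetSum, hSf]
    simpa using h0

/-- The field data: a field `K` with `2^m` elements, an additive functional `lam`, an element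
`β` no `k` powers of which (exponents `< N`) sum to zero, and bit strings that make `hfun`
compute `lam (∑ x_j (∑ y_i β^i)^j)`. -/
theorem setup (m N k : ℕ) (hm : 1 ≤ m) (hbig : (N + 1) ^ (k + 1) < 2 ^ m) :
    ∃ (K : Type) (_ : Field K) (_ : Fintype K) (_ : DecidableEq K) (_ : CharP K 2)
      (lam : K →+ ZMod 2) (β : K) (p b : Fin m → Bool) (e : K → (Fin m → Bool)),
      Fintype.card K = 2 ^ m ∧ (∃ c, lam c ≠ 0) ∧
      (∀ S : Finset (Fin N), S.Nonempty → S.card ≤ k → ∑ i ∈ S, β ^ (i : ℕ) ≠ 0) ∧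
      ∀ (J : ℕ) (x : Fin J → K) (y : Fin N → Bool),
        hfun m J N (asm p b (fun j => e (x j)) y) =
          decide (lam (∑ j : Fin J, x j *
            (∑ i : Fin N, if y i then β ^ (i : ℕ) else 0) ^ (j : ℕ)) = 1) := by
  classical
  obtain ⟨P, hPm, hPi, hPd⟩ := setup_irred m hm
  have : Fact (Irreducible P) := ⟨hPi⟩
  have hPdeg : P.degree = (m : WithBot ℕ) := by
    rw [Polynomial.degree_eq_natDegree hPm.ne_zero, hPd]
  have hfin : Module.Finite (ZMod 2) (AdjoinRoot P) := hPm.finite_adjoinRoot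
  have : Finite (AdjoinRoot P) := Module.finite_of_finite (ZMod 2)
  let : Fintype (AdjoinRoot P) := Fintype.ofFinite _
  have hchar : CharP (AdjoinRoot P) 2 :=
    charP_of_injective_algebraMap (algebraMap (ZMod 2) (AdjoinRoot P)).injective 2
  have hfr : Module.finrank (ZMod 2) (AdjoinRoot P) = m := by
    rw [(AdjoinRoot.powerBasis' hPm).finrank, AdjoinRoot.powerBasis'_dim, hPd]
  have hcardK : Fintype.card (AdjoinRoot P) = 2 ^ m := by
    rw [Module.card_eq_pow_finrank (K := ZMod 2) (V := AdjoinRoot P), ZMod.card, hfr]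
  obtain ⟨β, hβ⟩ := setup_beta (K := AdjoinRoot P) N k (by rw [hcardK]; exact hbig)
  let lam : AdjoinRoot P →+ ZMod 2 :=
    ((Polynomial.lcoeff (ZMod 2) 0).comp (AdjoinRoot.modByMonicHom hPm)).toAddMonoidHom
  have hlam : ∀ Q : (ZMod 2)[X], lam (AdjoinRoot.mk P Q) = (Q %ₘ P).coeff 0 := by
    intro Q
    simp only [lam, LinearMap.toAddMonoidHom_coe, LinearMap.comp_apply,
      AdjoinRoot.modByMonicHom_mk, Polynomial.lcoeff_apply]
  let e : AdjoinRoot P → (Fin m → Bool) :=
    fun x i => decide ((AdjoinRoot.modByMonicHom hPm x).coeff (i : ℕ) = 1)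
  have he : ∀ x, AdjoinRoot.mk P (toPoly (e x)) = x := by
    intro x
    have h1 : toPoly (e x) = AdjoinRoot.modByMonicHom hPm x := by
      apply setup_toPoly_of_degree
      obtain ⟨Q, rfl⟩ := AdjoinRoot.mk_surjective x
      rw [AdjoinRoot.modByMonicHom_mk, ← hPdeg]
      exact Polynomial.degree_modByMonic_lt _ hPm
    rw [h1]
    exact AdjoinRoot.mk_leftInverse hPm x
  let p : Fin m → Bool := fun i => decide ((P - X ^ m).coeff (i : ℕ) = 1)
  have hp : X ^ m + toPoly p = P := by
    have h1 : toPoly p = P - X ^ m := by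
      apply setup_toPoly_of_degree
      rw [← hPdeg]
      apply Polynomial.degree_sub_lt_left
      · rw [hPdeg, Polynomial.degree_X_pow]
      · exact hPm.ne_zero
      · rw [hPm.leadingCoeff, Polynomial.leadingCoeff_X_pow]
    rw [h1]; ring
  refine ⟨AdjoinRoot P, inferInstance, inferInstance, inferInstance, hchar, lam, β, p, e β, e,
    hcardK, ⟨1, ?_⟩, hβ, ?_⟩
  · have h1 : (1 : AdjoinRoot P) = AdjoinRoot.mk P 1 := by simp
    rw [h1, hlam, (Polynomial.modByMonic_eq_self_iff hPm).2]
    · simp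
    · rw [hPdeg, Polynomial.degree_one]
      exact_mod_cast hm
  · intro J x y
    unfold hfun
    simp only [asm]
    rw [hp]
    have h2 : ∀ Q : (ZMod 2)[X], ∀ w : AdjoinRoot P, AdjoinRoot.mk P Q = w →
        decide ((Q %ₘ P).coeff 0 = 1) = decide (lam w = 1) := by
      intro Q w hQ
      rw [← hlam, hQ]
    apply h2
    rw [map_sum]
    apply Finset.sum_congr rfl
    intro j _
    rw [map_mul, he, map_pow, map_sum]
    congr 2
    apply Finset.sum_congr rfl
    intro i _
    by_cases hy : y i = true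
    · simp only [hy, if_true]
      rw [map_pow, he]
    · simp only [hy]
      simp

end UnbTop
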