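import Pool.Agent.H.MP_027d00_lc.unb.Corr
import Pool.Agent.H.MP_027d00_lc.unb.Exist
import Pool.Agent.H.MP_027d00_lc.unb.Setup
import Pool.Agent.H.MP_027d00_lc.unb.Ptf

/-!
# Assembly
-/

set_option autoImplicit false

namespace UnbTop

open Fm

namespace Fm

variable {V V' : Type}

/-- substitute variables or constants for variables -/
def sub (s : V → V' ⊕ Bool) : Fm V → Fm V'
  | lit v b => match s v with
    | Sum.inl v' => lit v' b
    | Sum.inr c => cst (c == b)
  | cst b => cst b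
  | and F G => and (F.sub s) (G.sub s)
  | or F G => or (F.sub s) (G.sub s)

/-- the assignment behind a substitution -/
def pull (s : V → V' ⊕ Bool) (z : V' → Bool) (v : V) : Bool :=
  match s v with
  | Sum.inl v' => z v'
  | Sum.inr c => c

theorem depth_sub (s : V → V' ⊕ Bool) (F : Fm V) : (F.sub s).depth = F.depth := by
  induction F with
  | lit v b =>
    simp only [sub]
    cases s v <;> rfl
  | cst b => rfl
  | and F G ihF ihG => simp only [sub, depth, ihF, ihG]
  | or F G ihF ihG => simp only [sub, depth, ihF, ihG]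

theorem eval_sub (s : V → V' ⊕ Bool) (F : Fm V) (z : V' → Bool) :
    (F.sub s).eval z = F.eval (pull s z) := by
  induction F with
  | lit v b =>
    simp only [sub, eval, pull]
    cases s v <;> rfl
  | cst b => rfl
  | and F G ihF ihG => simp only [sub, eval, ihF, ihG]
  | or F G ihF ihG => simp only [sub, eval, ihF, ihG]

theorem paths_sub (s : V → V' ⊕ Bool) (F : Fm V) : ∀ K, (F.sub s).paths K = F.paths K := by
  induction F with
  | lit v b =>
    intro K
    cases K with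
    | zero => simp [paths]
    | succ K =>
      simp only [sub]
      cases s v <;> simp [paths]
  | cst b =>
    intro K
    cases K <;> simp [sub, paths]
  | and F G ihF ihG =>
    intro K
    cases K with
    | zero => simp [paths]
    | succ K => simp [sub, paths, ihF, ihG]
  | or F G ihF ihG =>
    intro K
    cases K with
    | zero => simp [paths]
    | succ K => simp [sub, paths, ihF, ihG]

end Fm

theorem sgn_abs (a : ZMod 2) : |sgn a| ≤ 1 := by
  unfold sgn
  split_ifs <;> simp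

theorem zmod2_cases (a : ZMod 2) : a = 0 ∨ a = 1 := by
  fin_cases a
  · left; rfl
  · right; rfl

theorem sgn_decide (a : ZMod 2) : (if decide (a = 1) = true then (1 : ℝ) else -1) = -sgn a := by
  rcases zmod2_cases a with h | h
  · subst h
    simp [sgn]
  · subst h
    simp [sgn]

theorem core (m N J k κ t s0 B K q1 q2 d : ℕ) (hm : 1 ≤ m) (hk : 1 ≤ k) (hkN : k ≤ N)
    (ht : 1 ≤ t) (hs0 : 1 ≤ s0) (hκ : 3 * κ ≤ k) (hJ : 2 * t ≤ J)
    (hB : 2 * N + 2 * s0 + 2 ≤ B) (hbig : (N + 1) ^ (k + 1) < 2 ^ m)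
    (hcount : (6 * t) ^ t * ((N + 1) ^ k * 2 ^ m * (B ^ (2 * s0) + 2)) < 2 ^ (κ * t))
    (hsize : 9 * (2 ^ (q1 + q2 + 1) * 2 ^ d) ^ 2 * (k + 1) ^ 3 ≤ s0 ^ 2 * (N + 1) ^ 3)
    (hK : 4 * (8 * 2 ^ (q1 + q2 + 1)) ^ (2 ^ (q1 + q2 + 1)) * 2 ^ (K * 2 ^ (q1 + q2 + 1)) <
      2 ^ κ)
    (F : Fm (Inp m J N)) (hF : ∀ z, F.eval z = hfun m J N z)
    (hp : ∀ p ∈ F.paths K, p.2 ≤ q1 ∨ p.1 ≤ q2) : K + d < F.depth := by
  by_contra hcon
  have hcon : F.depth ≤ K + d := not_lt.mp hcon
  obtain ⟨KK, iF, iFt, iD, iC, lam, β, p, b, e, hcard, hlam, hβ, hh⟩ := setup m N k hm hbig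
  obtain ⟨x, hx⟩ := exists_good (K := KK) lam hlam m N k κ t s0 J B hcard β hβ hkN hκ ht hJ hB
    hcount
  -- substitute
  let s : Inp m J N → Fin N ⊕ Bool := fun v =>
    match v with
    | Inp.p i => Sum.inr (p i)
    | Inp.b i => Sum.inr (b i)
    | Inp.x j i => Sum.inr (e (x j) i)
    | Inp.y i => Sum.inl i
  have hs : ∀ y : Fin N → Bool, Fm.pull s y = asm p b (fun j => e (x j)) y := by
    intro y
    funext v
    cases v <;> rfl
  set T : (Fin N → Bool) → ZMod 2 := fun z => lam (∑ j : Fin J, x j *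
        (∑ i : Fin N, if z i then β ^ (i : ℕ) else 0) ^ (j : ℕ)) with hT
  have hev : ∀ z, (F.sub s).eval z = decide (T z = 1) := by
    intro z
    rw [Fm.eval_sub, hF, hs, hh]
  set W : ℕ := 2 ^ (q1 + q2 + 1) with hW
  have hrep : HasRep (2 ^ d) K W (F.sub s).eval := by
    apply hasRep_of_paths K q1 q2 d
    · rw [Fm.depth_sub]; exact hcon
    · intro q hq
      rw [Fm.paths_sub] at hq
      exact hp q hq
  have hW1 : 1 ≤ W := Nat.one_le_two_pow
  obtain ⟨G, hGs, hGc⟩ := exists_corr (2 ^ d) K W hW1 _ hrep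
  have hkN' : k ≤ Fintype.card (Fin N) := by simpa using hkN
  have hcf := corr_final (V := Fin N) (fun z => sgn (T z)) (fun z => sgn_abs _) k s0 hk hs0
    ((1 / 2) ^ κ) (by positivity)
    (by
      intro U hU a G' hG' hG's
      exact hx U hU a G' hG' hG's) hkN' G
    (by
      rw [Fintype.card_fin]
      refine le_trans ?_ hsize
      gcongr)
  have e1 : (∑ z : Fin N → Bool, (if (F.sub s).eval z then (1 : ℝ) else -1) *
      (if G.eval z then 1 else 0)) =
      -(∑ z : Fin N → Bool, sgn (T z) * (if G.eval z then 1 else 0)) := by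
    rw [← Finset.sum_neg_distrib]
    apply Finset.sum_congr rfl
    intro z _
    rw [hev z, sgn_decide]
    ring
  rw [e1, neg_div, abs_neg] at hGc
  have h3 := hGc.trans hcf
  -- numeric contradiction
  have hkκ : κ ≤ k := by omega
  have h4 : ((1 : ℝ) / 2) ^ κ + (1 / 2) ^ k ≤ 2 * (1 / 2) ^ κ := by
    have : ((1 : ℝ) / 2) ^ k ≤ (1 / 2) ^ κ :=
      pow_le_pow_of_le_one (by norm_num) (by norm_num) hkκ
    linarith
  have h5 := h3.trans h4
  have hKr : (4 * (8 * (W : ℝ)) ^ W * 2 ^ (K * W)) < 2 ^ κ := by exact_mod_cast hK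
  have hpos : (0 : ℝ) < 2 * (8 * (W : ℝ)) ^ W * 2 ^ (K * W) := by positivity
  rw [div_le_iff₀ hpos] at h5
  have h2κ : ((1 : ℝ) / 2) ^ κ * 2 ^ κ = 1 := by
    rw [← mul_pow]; norm_num
  have h6 : 2 * ((1 : ℝ) / 2) ^ κ * (2 * (8 * (W : ℝ)) ^ W * 2 ^ (K * W)) <
      ((1 : ℝ) / 2) ^ κ * 2 ^ κ := by
    have : 2 * ((1 : ℝ) / 2) ^ κ * (2 * (8 * (W : ℝ)) ^ W * 2 ^ (K * W)) =
      ((1 : ℝ) / 2) ^ κ * (4 * (8 * (W : ℝ)) ^ W * 2 ^ (K * W)) := by ring
    rw [this]
    exact mul_lt_mul_of_pos_left hKr (by positivity)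
  rw [h2κ] at h6
  linarith

end UnbTop
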