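import Pool.Agent.H.MP_027d00_lc.unb.Shrink

/-!
# From hardness on small subcubes to correlation bounds (job B)
-/

set_option autoImplicit false

namespace UnbTop

open Fm

/-- flipping one coordinate -/
def corrFlip {V : Type} [DecidableEq V] (x : V) : Equiv.Perm (V → Bool) where
  toFun z := Function.update z x (!z x)
  invFun z := Function.update z x (!z x)
  left_inv z := by
    funext i
    by_cases h : i = x
    · subst h; simp
    · simp [Function.update_of_ne h]
  right_inv z := by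
    funext i
    by_cases h : i = x
    · subst h; simp
    · simp [Function.update_of_ne h]

lemma corr_piecewise {V : Type} [DecidableEq V] (U : Finset V) (a z : V → Bool) (x : V)
    (hx : x ∈ U) :
    U.piecewise z a = (U.erase x).piecewise z (Function.update a x (z x)) := by
  funext i
  by_cases h : i = x
  · subst h
    rw [Finset.piecewise_eq_of_mem _ _ _ hx, Finset.piecewise_eq_of_notMem _ _ _ (by simp)]
    simp
  · by_cases hi : i ∈ U
    · rw [Finset.piecewise_eq_of_mem _ _ _ hi,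
        Finset.piecewise_eq_of_mem _ _ _ (Finset.mem_erase.2 ⟨h, hi⟩)]
    · rw [Finset.piecewise_eq_of_notMem _ _ _ hi,
        Finset.piecewise_eq_of_notMem _ _ _ (fun h' => hi (Finset.mem_of_mem_erase h')),
        Function.update_of_ne h]

lemma corr_piecewise_flip {V : Type} [DecidableEq V] (U : Finset V) (a z : V → Bool) (x : V) :
    (U.erase x).piecewise (corrFlip x z) a = (U.erase x).piecewise z a := by
  funext i
  by_cases hi : i ∈ U.erase x
  · rw [Finset.piecewise_eq_of_mem _ _ _ hi, Finset.piecewise_eq_of_mem _ _ _ hi]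
    show Function.update z x (!z x) i = z i
    rw [Function.update_of_ne (Finset.ne_of_mem_erase hi)]
  · rw [Finset.piecewise_eq_of_notMem _ _ _ hi, Finset.piecewise_eq_of_notMem _ _ _ hi]

/-- averages split along a free variable -/
theorem avg_split {V : Type} [Fintype V] [DecidableEq V] (U : Finset V) (a : V → Bool) (x : V)
    (hx : x ∈ U) (f : (V → Bool) → ℝ) :
    avg U a f = (avg (U.erase x) (Function.update a x true) f +
      avg (U.erase x) (Function.update a x false) f) / 2 := by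
  have h1 : ∑ z : V → Bool, f (U.piecewise z a) =
      ∑ z : V → Bool, f (U.piecewise (corrFlip x z) a) :=
    (Equiv.sum_comp (corrFlip x) (fun z => f (U.piecewise z a))).symm
  have h2 : ∀ z : V → Bool, f (U.piecewise z a) + f (U.piecewise (corrFlip x z) a) =
      f ((U.erase x).piecewise z (Function.update a x true)) +
      f ((U.erase x).piecewise z (Function.update a x false)) := by
    intro z
    rw [corr_piecewise U a z x hx, corr_piecewise U a (corrFlip x z) x hx, corr_piecewise_flip]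
    have h3 : (corrFlip x z) x = !z x := by
      show Function.update z x (!z x) x = !z x
      simp
    rw [h3]
    cases hz : z x
    · simp only [Bool.not_false]; ring
    · simp only [Bool.not_true]
  have h4 : 2 * ∑ z : V → Bool, f (U.piecewise z a) =
      ∑ z : V → Bool, f ((U.erase x).piecewise z (Function.update a x true)) +
      ∑ z : V → Bool, f ((U.erase x).piecewise z (Function.update a x false)) := by
    rw [two_mul]
    nth_rewrite 2 [h1]
    rw [← Finset.sum_add_distrib, ← Finset.sum_add_distrib]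
    exact Finset.sum_congr rfl fun z _ => h2 z
  unfold avg
  rw [← add_div, ← h4]
  ring

lemma corr_abs_avg_le {V : Type} [Fintype V] [DecidableEq V] (U : Finset V) (a : V → Bool)
    (f : (V → Bool) → ℝ) (hf : ∀ z, |f z| ≤ 1) : |avg U a f| ≤ 1 := by
  unfold avg
  rw [abs_div, abs_of_pos (show (0 : ℝ) < 2 ^ Fintype.card V by positivity), div_le_one (by positivity)]
  calc |∑ z : V → Bool, f (U.piecewise z a)| ≤ ∑ z : V → Bool, |f (U.piecewise z a)| :=
        Finset.abs_sum_le_sum_abs _ _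
    _ ≤ ∑ z : V → Bool, (1 : ℝ) := Finset.sum_le_sum fun z _ => hf _
    _ = 2 ^ Fintype.card V := by simp

lemma corr_abs_le {V : Type} (H : (V → Bool) → ℝ) (hH : ∀ z, |H z| ≤ 1) (F : Fm V)
    (z : V → Bool) : |H z * (if F.eval z then 1 else 0)| ≤ 1 := by
  split_ifs
  · simpa using hH z
  · simp

/-- the two point convexity inequality -/
lemma corr_convex (θ : ℕ) {p q A B : ℝ} (hp0 : 0 ≤ p) (hq0 : 0 ≤ q) (hpA : p ≤ A) (hqA : q ≤ A)
    (hB : 0 ≤ B) (hBA : B ≤ A) (hs : p + q ≤ A + B) : p ^ θ + q ^ θ ≤ A ^ θ + B ^ θ := by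
  wlog hpq : q ≤ p generalizing p q with Hw
  · have := Hw hq0 hp0 hqA hpA (by linarith) (by linarith)
    linarith
  rcases le_or_gt q B with h | h
  · exact add_le_add (pow_le_pow_left₀ hp0 hpA θ) (pow_le_pow_left₀ hq0 h θ)
  · have hAB : 0 < A - B := by linarith
    have hc := convexOn_pow (𝕜 := ℝ) θ
    set t : ℝ := (q - B) / (A - B) with ht
    have ht0 : 0 ≤ t := div_nonneg (by linarith) hAB.le
    have ht1 : t ≤ 1 := (div_le_one hAB).2 (by linarith)
    have htm : t * (A - B) = q - B := div_mul_cancel₀ _ hAB.ne'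
    have e1 : q = t * A + (1 - t) * B := by linarith
    have e2 : A + B - q = (1 - t) * A + t * B := by linarith
    have hA : (0 : ℝ) ≤ A := hB.trans hBA
    have i1 : (t * A + (1 - t) * B) ^ θ ≤ t * A ^ θ + (1 - t) * B ^ θ := by
      have := hc.2 (Set.mem_Ici.2 hA) (Set.mem_Ici.2 hB) ht0 (by linarith : (0:ℝ) ≤ 1 - t) (by ring)
      simpa [smul_eq_mul] using this
    have i2 : ((1 - t) * A + t * B) ^ θ ≤ (1 - t) * A ^ θ + t * B ^ θ := by
      have := hc.2 (Set.mem_Ici.2 hA) (Set.mem_Ici.2 hB) (by linarith : (0:ℝ) ≤ 1 - t) ht0 (by ring)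
      simpa [smul_eq_mul] using this
    have i3 : p ^ θ ≤ (A + B - q) ^ θ := pow_le_pow_left₀ hp0 (by linarith) θ
    rw [e2] at i3
    have i4 : q ^ θ ≤ t * A ^ θ + (1 - t) * B ^ θ := by
      calc q ^ θ = (t * A + (1 - t) * B) ^ θ := by rw [← e1]
        _ ≤ _ := i1
    linarith

theorem corr_bound {V : Type} [Fintype V] [DecidableEq V] (H : (V → Bool) → ℝ)
    (hH : ∀ z, |H z| ≤ 1) (k θ s0 : ℕ) (hk : 1 ≤ k) (hθ : 1 ≤ θ) (hs0 : 1 ≤ s0) (δ : ℝ)
    (hδ : 0 ≤ δ)
    (base : ∀ U : Finset V, U.card = k → ∀ a : V → Bool, ∀ F : Fm V, F.VarsIn U → F.size ≤ s0 →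
      |avg U a (fun z => H z * (if F.eval z then 1 else 0))| ≤ δ) :
    ∀ U : Finset V, k ≤ U.card → ∀ a : V → Bool, ∀ F : Fm V, F.VarsIn U →
      |avg U a (fun z => H z * (if F.eval z then 1 else 0))| ≤
        δ + ((F.size : ℝ) / s0) ^ θ *
          ∏ i ∈ Finset.Ioc k U.card, (((1 - 1 / (i : ℝ)) ^ θ + (1 - 2 / (i : ℝ)) ^ θ) / 2) := by
  suffices key : ∀ n, k ≤ n → ∀ U : Finset V, U.card = n → ∀ a : V → Bool, ∀ F : Fm V,
      F.VarsIn U → |avg U a (fun z => H z * (if F.eval z then 1 else 0))| ≤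
        δ + ((F.size : ℝ) / s0) ^ θ *
          ∏ i ∈ Finset.Ioc k n, (((1 - 1 / (i : ℝ)) ^ θ + (1 - 2 / (i : ℝ)) ^ θ) / 2) by
    intro U hU a F hF
    exact key U.card hU U rfl a F hF
  have hs0' : (0 : ℝ) < s0 := by exact_mod_cast hs0
  have hprod : ∀ n, (0 : ℝ) ≤ ∏ i ∈ Finset.Ioc k n,
      (((1 - 1 / (i : ℝ)) ^ θ + (1 - 2 / (i : ℝ)) ^ θ) / 2) := by
    intro n
    refine Finset.prod_nonneg fun i hi => ?_
    have hi2 : (2 : ℝ) ≤ i := by
      have := (Finset.mem_Ioc.1 hi).1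
      exact_mod_cast (show 2 ≤ i by omega)
    have h1 : (0 : ℝ) ≤ 1 - 1 / (i : ℝ) := by
      rw [sub_nonneg, div_le_one (by linarith)]; linarith
    have h2 : (0 : ℝ) ≤ 1 - 2 / (i : ℝ) := by
      rw [sub_nonneg, div_le_one (by linarith)]; linarith
    positivity
  intro n hn
  induction n, hn using Nat.le_induction with
  | base =>
    intro U hU a F hF
    simp only [Finset.Ioc_self, Finset.prod_empty, mul_one]
    rcases le_or_gt F.size s0 with h | h
    · have := base U hU a F hF h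
      have h2 : (0 : ℝ) ≤ ((F.size : ℝ) / s0) ^ θ := by positivity
      linarith
    · have h1 := corr_abs_avg_le U a _ (corr_abs_le H hH F)
      have h2 : (1 : ℝ) ≤ ((F.size : ℝ) / s0) ^ θ := by
        apply one_le_pow₀
        rw [le_div_iff₀ hs0', one_mul]
        exact_mod_cast h.le
      linarith
  | succ u hu ih =>
    intro U hU a F hF
    have hv2 : 2 ≤ U.card := by omega
    obtain ⟨x, hx, G, hG1, hG2, hG3, hG4⟩ := shrink_step U hv2 F hF
    have hcard : (U.erase x).card = u := by rw [Finset.card_erase_of_mem hx, hU]; rfl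
    have hb : ∀ b : Bool, |avg (U.erase x) (Function.update a x b)
        (fun z => H z * (if F.eval z then 1 else 0))| ≤ δ + (((G b).size : ℝ) / s0) ^ θ *
          ∏ i ∈ Finset.Ioc k u, (((1 - 1 / (i : ℝ)) ^ θ + (1 - 2 / (i : ℝ)) ^ θ) / 2) := by
      intro b
      have h1 : avg (U.erase x) (Function.update a x b)
          (fun z => H z * (if F.eval z then 1 else 0)) =
          avg (U.erase x) (Function.update a x b)
          (fun z => H z * (if (G b).eval z then 1 else 0)) := by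
        unfold avg
        congr 1
        refine Finset.sum_congr rfl fun z _ => ?_
        have h2 : ((U.erase x).piecewise z (Function.update a x b)) x = b := by
          rw [Finset.piecewise_eq_of_notMem _ _ _ (by simp)]; simp
        have h3 : (G b).eval ((U.erase x).piecewise z (Function.update a x b)) =
            F.eval ((U.erase x).piecewise z (Function.update a x b)) := by
          rw [hG1]
          congr 1
          conv_rhs => rw [← Function.update_eq_self x
            ((U.erase x).piecewise z (Function.update a x b))]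
          rw [h2]
        simp only [h3]
      rw [h1]
      exact ih (U.erase x) hcard (Function.update a x b) (G b) (hG2 b)
    rw [avg_split U a x hx]
    have hP := hprod u
    set P := ∏ i ∈ Finset.Ioc k u, (((1 - 1 / (i : ℝ)) ^ θ + (1 - 2 / (i : ℝ)) ^ θ) / 2) with hPdef
    have hsucc : ∏ i ∈ Finset.Ioc k (u + 1),
        (((1 - 1 / (i : ℝ)) ^ θ + (1 - 2 / (i : ℝ)) ^ θ) / 2) =
        P * (((1 - 1 / ((u + 1 : ℕ) : ℝ)) ^ θ + (1 - 2 / ((u + 1 : ℕ) : ℝ)) ^ θ) / 2) := by
      rw [hPdef, Finset.prod_Ioc_succ_top (by omega)]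
    rw [hsucc]
    have hv : ((U.card : ℕ) : ℝ) = ((u + 1 : ℕ) : ℝ) := by rw [hU]
    rw [hv] at hG3 hG4
    set v : ℝ := ((u + 1 : ℕ) : ℝ) with hvdef
    have hv2' : (2 : ℝ) ≤ v := by rw [← hv]; exact_mod_cast hv2
    have hv0 : (0 : ℝ) < v := by linarith
    have hsz : (0 : ℝ) ≤ F.size := Nat.cast_nonneg _
    have h1v : (1 : ℝ) / v ≤ 2 / v := by gcongr; norm_num
    have h2v : (2 : ℝ) / v ≤ 1 := (div_le_one hv0).2 hv2'
    have hconv : ((G true).size : ℝ) ^ θ + ((G false).size : ℝ) ^ θ ≤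
        ((F.size : ℝ) * (1 - 1 / v)) ^ θ + ((F.size : ℝ) * (1 - 2 / v)) ^ θ := by
      refine corr_convex θ (Nat.cast_nonneg _) (Nat.cast_nonneg _) (hG3 true) (hG3 false) ?_ ?_ ?_
      · exact mul_nonneg hsz (by linarith)
      · exact mul_le_mul_of_nonneg_left (by linarith) hsz
      · refine hG4.trans (le_of_eq ?_)
        ring
    have hfin : ((((G true).size : ℝ) / s0) ^ θ + (((G false).size : ℝ) / s0) ^ θ) ≤
        ((F.size : ℝ) / s0) ^ θ * ((1 - 1 / v) ^ θ + (1 - 2 / v) ^ θ) := by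
      rw [div_pow, div_pow, div_pow, ← add_div, div_mul_eq_mul_div]
      refine div_le_div_of_nonneg_right ?_ (by positivity)
      refine hconv.trans (le_of_eq ?_)
      rw [mul_pow, mul_pow]; ring
    have hT := hb true
    have hF' := hb false
    have habs : |(avg (U.erase x) (Function.update a x true)
        (fun z => H z * (if F.eval z then 1 else 0)) +
        avg (U.erase x) (Function.update a x false)
        (fun z => H z * (if F.eval z then 1 else 0))) / 2| ≤
        (|avg (U.erase x) (Function.update a x true)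
        (fun z => H z * (if F.eval z then 1 else 0))| +
        |avg (U.erase x) (Function.update a x false)
        (fun z => H z * (if F.eval z then 1 else 0))|) / 2 := by
      rw [abs_div, abs_of_pos (show (0 : ℝ) < 2 by norm_num)]
      gcongr
      exact abs_add_le _ _
    refine habs.trans ?_
    have := mul_le_mul_of_nonneg_right hfin hP
    calc _ ≤ ((δ + (((G true).size : ℝ) / s0) ^ θ * P) +
        (δ + (((G false).size : ℝ) / s0) ^ θ * P)) / 2 := by gcongr
      _ = δ + ((((G true).size : ℝ) / s0) ^ θ + (((G false).size : ℝ) / s0) ^ θ) * P / 2 := by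
          ring
      _ ≤ δ + ((F.size : ℝ) / s0) ^ θ * ((1 - 1 / v) ^ θ + (1 - 2 / v) ^ θ) * P / 2 := by
          gcongr
      _ = _ := by ring

lemma corr_factor (θ i : ℕ) (hi : 2 ≤ i) :
    (((1 - 1 / (i : ℝ)) ^ θ + (1 - 2 / (i : ℝ)) ^ θ) / 2) ≤
      Real.exp (-(3 / 2) * θ * (1 / i) + (θ : ℝ) ^ 2 / 8 * (1 / (i : ℝ) ^ 2)) := by
  have hi2 : (2 : ℝ) ≤ i := by exact_mod_cast hi
  have hi0 : (0 : ℝ) < i := by linarith
  have h1 : (0 : ℝ) ≤ 1 - 1 / (i : ℝ) := by
    rw [sub_nonneg, div_le_one (by linarith)]; linarith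
  have h2 : (0 : ℝ) ≤ 1 - 2 / (i : ℝ) := by
    rw [sub_nonneg, div_le_one (by linarith)]; linarith
  have e1 : (1 - 1 / (i : ℝ)) ^ θ ≤ Real.exp (-(θ * (1 / (i : ℝ)))) := by
    calc (1 - 1 / (i : ℝ)) ^ θ ≤ (Real.exp (-(1 / (i : ℝ)))) ^ θ := by
          refine pow_le_pow_left₀ h1 ?_ θ
          have := Real.add_one_le_exp (-(1 / (i : ℝ)))
          linarith
      _ = _ := by rw [← Real.exp_nat_mul]; congr 1; ring
  have e2 : (1 - 2 / (i : ℝ)) ^ θ ≤ Real.exp (-(θ * (2 / (i : ℝ)))) := by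
    calc (1 - 2 / (i : ℝ)) ^ θ ≤ (Real.exp (-(2 / (i : ℝ)))) ^ θ := by
          refine pow_le_pow_left₀ h2 ?_ θ
          have := Real.add_one_le_exp (-(2 / (i : ℝ)))
          linarith
      _ = _ := by rw [← Real.exp_nat_mul]; congr 1; ring
  have e3 : (Real.exp (-(θ * (1 / (i : ℝ)))) + Real.exp (-(θ * (2 / (i : ℝ))))) / 2 =
      Real.exp (-(3 / 2) * θ * (1 / i)) * Real.cosh ((θ : ℝ) * (1 / (2 * i))) := by
    have c1 : Real.exp (-(θ * (1 / (i : ℝ)))) =
        Real.exp (-(3 / 2) * θ * (1 / i)) * Real.exp ((θ : ℝ) * (1 / (2 * i))) := by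
      rw [← Real.exp_add]; congr 1; field_simp; ring
    have c2 : Real.exp (-(θ * (2 / (i : ℝ)))) =
        Real.exp (-(3 / 2) * θ * (1 / i)) * Real.exp (-((θ : ℝ) * (1 / (2 * i)))) := by
      rw [← Real.exp_add]; congr 1; field_simp; ring
    rw [Real.cosh_eq, c1, c2]
    ring
  have e4 := Real.cosh_le_exp_half_sq ((θ : ℝ) * (1 / (2 * i)))
  calc _ ≤ (Real.exp (-(θ * (1 / (i : ℝ)))) + Real.exp (-(θ * (2 / (i : ℝ))))) / 2 := by
        gcongr
    _ = Real.exp (-(3 / 2) * θ * (1 / i)) * Real.cosh ((θ : ℝ) * (1 / (2 * i))) := e3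
    _ ≤ Real.exp (-(3 / 2) * θ * (1 / i)) * Real.exp (((θ : ℝ) * (1 / (2 * i))) ^ 2 / 2) := by
        gcongr
    _ = _ := by
        rw [← Real.exp_add]
        congr 2
        field_simp
        norm_num

theorem prod_bound (k θ N : ℕ) (hk : 1 ≤ k) (hkN : k ≤ N) :
    ∏ i ∈ Finset.Ioc k N, (((1 - 1 / (i : ℝ)) ^ θ + (1 - 2 / (i : ℝ)) ^ θ) / 2) ≤
      Real.exp (-(3 / 2) * θ * Real.log (((N : ℝ) + 1) / (k + 1)) + (θ : ℝ) ^ 2 / (8 * k)) := by
  have hk0 : (0 : ℝ) < k := by exact_mod_cast hk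
  have key : ∏ i ∈ Finset.Ioc k N, (((1 - 1 / (i : ℝ)) ^ θ + (1 - 2 / (i : ℝ)) ^ θ) / 2) ≤
      Real.exp (-(3 / 2) * θ * Real.log (((N : ℝ) + 1) / (k + 1)) +
        (θ : ℝ) ^ 2 / 8 * (1 / k - 1 / N)) := by
    induction N, hkN using Nat.le_induction with
    | base => simp [div_self (show (k : ℝ) + 1 ≠ 0 by positivity)]
    | succ n hn ih =>
      have hn0 : (0 : ℝ) < n := lt_of_lt_of_le hk0 (by exact_mod_cast hn)
      rw [Finset.prod_Ioc_succ_top (by omega)]
      have hf := corr_factor θ (n + 1) (by omega)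
      have hnn : (0 : ℝ) ≤ (((1 - 1 / ((n + 1 : ℕ) : ℝ)) ^ θ +
          (1 - 2 / ((n + 1 : ℕ) : ℝ)) ^ θ) / 2) := by
        have hi2 : (2 : ℝ) ≤ ((n + 1 : ℕ) : ℝ) := by exact_mod_cast (show 2 ≤ n + 1 by omega)
        have h1 : (0 : ℝ) ≤ 1 - 1 / ((n + 1 : ℕ) : ℝ) := by
          rw [sub_nonneg, div_le_one (by linarith)]; linarith
        have h2 : (0 : ℝ) ≤ 1 - 2 / ((n + 1 : ℕ) : ℝ) := by
          rw [sub_nonneg, div_le_one (by linarith)]; linarith
        positivity
      calc _ ≤ Real.exp (-(3 / 2) * θ * Real.log (((n : ℝ) + 1) / (k + 1)) +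
            (θ : ℝ) ^ 2 / 8 * (1 / k - 1 / n)) *
            Real.exp (-(3 / 2) * θ * (1 / ((n + 1 : ℕ) : ℝ)) +
              (θ : ℝ) ^ 2 / 8 * (1 / ((n + 1 : ℕ) : ℝ) ^ 2)) := by gcongr
        _ = Real.exp ((-(3 / 2) * θ * Real.log (((n : ℝ) + 1) / (k + 1)) +
            (θ : ℝ) ^ 2 / 8 * (1 / k - 1 / n)) + (-(3 / 2) * θ * (1 / ((n + 1 : ℕ) : ℝ)) +
              (θ : ℝ) ^ 2 / 8 * (1 / ((n + 1 : ℕ) : ℝ) ^ 2))) := (Real.exp_add _ _).symm
        _ ≤ _ := by
            apply Real.exp_le_exp.2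
            have hlog : Real.log ((((n + 1 : ℕ) : ℝ) + 1) / (k + 1)) ≤
                Real.log (((n : ℝ) + 1) / (k + 1)) + 1 / ((n + 1 : ℕ) : ℝ) := by
              push_cast
              rw [Real.log_div (by positivity) (by positivity),
                Real.log_div (by positivity) (by positivity)]
              have h1 : Real.log ((n : ℝ) + 1 + 1) = Real.log ((n : ℝ) + 1) +
                  Real.log (1 + 1 / ((n : ℝ) + 1)) := by
                rw [← Real.log_mul (by positivity) (by positivity)]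
                congr 1
                field_simp
              have h2 : Real.log (1 + 1 / ((n : ℝ) + 1)) ≤ 1 / ((n : ℝ) + 1) := by
                have := Real.log_le_sub_one_of_pos
                  (show (0 : ℝ) < 1 + 1 / ((n : ℝ) + 1) by positivity)
                linarith
              linarith
            have hsq : 1 / (((n + 1 : ℕ) : ℝ)) ^ 2 ≤ 1 / (n : ℝ) - 1 / ((n + 1 : ℕ) : ℝ) := by
              push_cast
              rw [div_sub_div _ _ hn0.ne' (by positivity), div_le_div_iff₀ (by positivity)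
                (by positivity)]
              nlinarith
            have hθ2 : (0 : ℝ) ≤ (θ : ℝ) ^ 2 / 8 := by positivity
            have hθ1 : (0 : ℝ) ≤ 3 / 2 * (θ : ℝ) := by positivity
            nlinarith [mul_le_mul_of_nonneg_left hlog hθ1, mul_le_mul_of_nonneg_left hsq hθ2]
  refine key.trans (Real.exp_le_exp.2 ?_)
  have hN0 : (0 : ℝ) < N := lt_of_lt_of_le hk0 (by exact_mod_cast hkN)
  have h1 : (θ : ℝ) ^ 2 / 8 * (1 / k - 1 / N) ≤ (θ : ℝ) ^ 2 / (8 * k) := by
    have h2 : (θ : ℝ) ^ 2 / (8 * k) = (θ : ℝ) ^ 2 / 8 * (1 / k) := by field_simp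
    rw [h2]
    have h3 : (0 : ℝ) < 1 / N := by positivity
    have hθ2 : (0 : ℝ) ≤ (θ : ℝ) ^ 2 / 8 := by positivity
    exact mul_le_mul_of_nonneg_left (by linarith) hθ2
  linarith

/-- The correlation bound in final form. -/
theorem corr_final {V : Type} [Fintype V] [DecidableEq V] (H : (V → Bool) → ℝ)
    (hH : ∀ z, |H z| ≤ 1) (k s0 : ℕ) (hk : 1 ≤ k) (hs0 : 1 ≤ s0) (δ : ℝ) (hδ : 0 ≤ δ)
    (base : ∀ U : Finset V, U.card = k → ∀ a : V → Bool, ∀ F : Fm V, F.VarsIn U → F.size ≤ s0 →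
      |avg U a (fun z => H z * (if F.eval z then 1 else 0))| ≤ δ)
    (hkN : k ≤ Fintype.card V) (F : Fm V)
    (hsize : 9 * F.size ^ 2 * (k + 1) ^ 3 ≤ s0 ^ 2 * (Fintype.card V + 1) ^ 3) :
    |(∑ z : V → Bool, H z * (if F.eval z then 1 else 0)) / 2 ^ (Fintype.card V)| ≤
      δ + (1 / 2) ^ k := by
  have hV : ∀ F : Fm V, F.VarsIn (Finset.univ : Finset V) := by
    intro F
    induction F with
    | lit v b => exact Finset.mem_univ v
    | cst b => trivial
    | and F G h1 h2 => exact ⟨h1, h2⟩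
    | or F G h1 h2 => exact ⟨h1, h2⟩
  have h1 := corr_bound H hH k (4 * k) s0 hk (by omega) hs0 δ hδ base Finset.univ
    (by simpa using hkN) (fun _ => false) F (hV F)
  have h2 : avg (Finset.univ : Finset V) (fun _ => false)
      (fun z => H z * (if F.eval z then 1 else 0)) =
      (∑ z : V → Bool, H z * (if F.eval z then 1 else 0)) / 2 ^ (Fintype.card V) := by
    unfold avg
    simp only [Finset.piecewise_univ]
  rw [h2, Finset.card_univ] at h1
  refine h1.trans ?_
  have h3 := prod_bound k (4 * k) (Fintype.card V) hk hkN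
  have hk0 : (0 : ℝ) < k := by exact_mod_cast hk
  have hs0' : (0 : ℝ) < s0 := by exact_mod_cast hs0
  set N : ℕ := Fintype.card V with hN
  set R : ℝ := ((N : ℝ) + 1) / (k + 1) with hR
  have hR0 : 0 < R := by positivity
  have h4 : Real.exp (-(3 / 2) * ((4 * k : ℕ) : ℝ) * Real.log R +
      (((4 * k : ℕ) : ℝ)) ^ 2 / (8 * k)) = ((R ^ 6)⁻¹ * Real.exp 2) ^ k := by
    have e1 : -(3 / 2) * ((4 * k : ℕ) : ℝ) * Real.log R +
      (((4 * k : ℕ) : ℝ)) ^ 2 / (8 * k) = (k : ℝ) * (-(Real.log (R ^ 6)) + 2) := by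
      rw [Real.log_pow]
      push_cast
      field_simp
      ring
    rw [e1, Real.exp_nat_mul, Real.exp_add, Real.exp_neg, Real.exp_log (by positivity)]
  rw [h4] at h3
  have h5 : ((F.size : ℝ) / s0) ^ 2 ≤ R ^ 3 / 9 := by
    have h6 : 9 * (F.size : ℝ) ^ 2 * ((k : ℝ) + 1) ^ 3 ≤ (s0 : ℝ) ^ 2 * ((N : ℝ) + 1) ^ 3 := by
      exact_mod_cast hsize
    rw [hR, div_pow, div_pow, div_div, div_le_div_iff₀ (by positivity) (by positivity)]
    nlinarith
  have h7 : ((F.size : ℝ) / s0) ^ (4 * k) ≤ ((R ^ 3 / 9) ^ 2) ^ k := by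
    have : ((F.size : ℝ) / s0) ^ (4 * k) = (((((F.size : ℝ) / s0) ^ 2)) ^ 2) ^ k := by
      rw [← pow_mul, ← pow_mul]
      congr 1
      ring
    rw [this]
    gcongr
  have hprod0 : (0 : ℝ) ≤ ((R ^ 6)⁻¹ * Real.exp 2) ^ k := by positivity
  have h8 : ((F.size : ℝ) / s0) ^ (4 * k) * ∏ i ∈ Finset.Ioc k N,
      (((1 - 1 / (i : ℝ)) ^ (4 * k) + (1 - 2 / (i : ℝ)) ^ (4 * k)) / 2) ≤
      ((R ^ 3 / 9) ^ 2) ^ k * ((R ^ 6)⁻¹ * Real.exp 2) ^ k := by
    calc _ ≤ ((F.size : ℝ) / s0) ^ (4 * k) * ((R ^ 6)⁻¹ * Real.exp 2) ^ k := by gcongr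
      _ ≤ _ := by gcongr
  have h9 : ((R ^ 3 / 9) ^ 2) ^ k * ((R ^ 6)⁻¹ * Real.exp 2) ^ k = (Real.exp 2 / 81) ^ k := by
    rw [← mul_pow]
    congr 1
    have e1 : (R ^ 3 / 9) ^ 2 = R ^ 6 / 81 := by ring
    have e2 : R ^ 6 * (R ^ 6)⁻¹ = 1 := mul_inv_cancel₀ (by positivity)
    rw [e1]
    calc R ^ 6 / 81 * ((R ^ 6)⁻¹ * Real.exp 2) = (R ^ 6 * (R ^ 6)⁻¹) * Real.exp 2 / 81 := by ring
      _ = Real.exp 2 / 81 := by rw [e2, one_mul]
  have h10 : Real.exp 2 / 81 ≤ 1 / 2 := by
    have := Real.exp_one_lt_d9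
    have e2 : Real.exp 2 = Real.exp 1 * Real.exp 1 := by rw [← Real.exp_add]; norm_num
    have h0 := Real.exp_pos 1
    rw [e2]
    nlinarith
  have h11 : (Real.exp 2 / 81) ^ k ≤ (1 / 2 : ℝ) ^ k :=
    pow_le_pow_left₀ (by positivity) h10 k
  rw [h9] at h8
  linarith

end UnbTop
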