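import Mathlib

/-!
# De Morgan formulas, gate counts on paths, and the explicit function
-/

set_option autoImplicit false

namespace UnbTop

open Polynomial

/-- De Morgan formulas over the variables `V`: literals, constants, fan-in two AND and OR.
(A circuit with negations at the inputs unfolds to such a formula of the same depth.) -/
inductive Fm (V : Type) : Type
  | lit (v : V) (b : Bool) : Fm V
  | cst (b : Bool) : Fm V
  | and (F G : Fm V) : Fm V
  | or (F G : Fm V) : Fm V

namespace Fm

variable {V : Type}

/-- The value: `lit v true` is the variable `v`, `lit v false` its negation. -/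
def eval (z : V → Bool) : Fm V → Bool
  | lit v b => z v == b
  | cst b => b
  | and F G => F.eval z && G.eval z
  | or F G => F.eval z || G.eval z

/-- The largest number of gates on a path. -/
def depth : Fm V → ℕ
  | lit _ _ => 0
  | cst _ => 0
  | and F G => max F.depth G.depth + 1
  | or F G => max F.depth G.depth + 1

/-- The number of literals. -/
def size : Fm V → ℕ
  | lit _ _ => 1
  | cst _ => 0
  | and F G => F.size + G.size
  | or F G => F.size + G.size

/-- For every path from the output towards the inputs, cut off after `K` gates (or ending at a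
leaf before): the pair (number of AND gates on it, number of OR gates on it). -/
def paths : ℕ → Fm V → List (ℕ × ℕ)
  | 0, _ => [(0, 0)]
  | _ + 1, lit _ _ => [(0, 0)]
  | _ + 1, cst _ => [(0, 0)]
  | K + 1, and F G => (paths K F ++ paths K G).map (fun p => (p.1 + 1, p.2))
  | K + 1, or F G => (paths K F ++ paths K G).map (fun p => (p.1, p.2 + 1))

/-- all variables of the formula lie in `U` -/
def VarsIn (U : Finset V) : Fm V → Prop
  | lit v _ => v ∈ U
  | cst _ => True
  | and F G => F.VarsIn U ∧ G.VarsIn U
  | or F G => F.VarsIn U ∧ G.VarsIn U

end Fm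

/-- Average over the subcube through `a` whose free variables are those in `U`. -/
noncomputable def avg {V : Type} [Fintype V] [DecidableEq V] (U : Finset V) (a : V → Bool)
    (f : (V → Bool) → ℝ) : ℝ :=
  (∑ z : V → Bool, f (U.piecewise z a)) / 2 ^ (Fintype.card V)

/-- The input variables of the explicit function: `m` bits for the modulus, `m` bits for the
base, `J` blocks of `m` bits, and `N` further bits. -/
inductive Inp (m J N : ℕ) : Type
  | p (i : Fin m) : Inp m J N
  | b (i : Fin m) : Inp m J N
  | x (j : Fin J) (i : Fin m) : Inp m J N
  | y (i : Fin N) : Inp m J N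
  deriving DecidableEq, Fintype

/-- The polynomial over the field with two elements with coefficient vector `v`. -/
noncomputable def toPoly {m : ℕ} (v : Fin m → Bool) : (ZMod 2)[X] :=
  ∑ i : Fin m, if v i then X ^ (i : ℕ) else 0

/-- The explicit function.  Put `P = X^m + ∑ p_i X^i`, `B = ∑ b_i X^i`, `Y = ∑_{i<N} y_i B^i`
and `S = ∑_{j<J} (∑_i x_{j,i} X^i) Y^j`; the value is the constant coefficient of the
remainder of `S` modulo `P`. -/
noncomputable def hfun (m J N : ℕ) (z : Inp m J N → Bool) : Bool :=
  decide (((∑ j : Fin J, toPoly (fun i => z (Inp.x j i)) *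
      (∑ i : Fin N, if z (Inp.y i) then toPoly (fun l => z (Inp.b l)) ^ (i : ℕ) else 0) ^ (j : ℕ))
    %ₘ (X ^ m + toPoly (fun i => z (Inp.p i)))).coeff 0 = 1)

/-- `+1` on `0`, `-1` on `1` -/
noncomputable def sgn (a : ZMod 2) : ℝ := if a = 0 then 1 else -1

end UnbTop
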