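import Pool.Agent.H.MP_027d00_lc.unb.Defs

/-!
# The explicit function in small pieces
-/

set_option autoImplicit false

namespace UnbTop

open Polynomial

/-- `Y = ∑_{i<N} y_i B^i`, where `B = ∑_{l<m} b_l X^l`. -/
noncomputable def pointPoly (m J N : ℕ) (z : Inp m J N → Bool) : (ZMod 2)[X] :=
  ∑ i : Fin N, if z (Inp.y i) then toPoly (fun l => z (Inp.b l)) ^ (i : ℕ) else 0

/-- `S = ∑_{j<J} (∑_{i<m} x_{j,i} X^i) Y^j`. -/
noncomputable def sumPoly (m J N : ℕ) (z : Inp m J N → Bool) : (ZMod 2)[X] :=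
  ∑ j : Fin J, toPoly (fun i => z (Inp.x j i)) * pointPoly m J N z ^ (j : ℕ)

/-- `P = X^m + ∑_{i<m} p_i X^i`. -/
noncomputable def modPoly (m J N : ℕ) (z : Inp m J N → Bool) : (ZMod 2)[X] :=
  X ^ m + toPoly (fun i => z (Inp.p i))

/-- The explicit function: the constant coefficient of the remainder of `S` modulo `P`. -/
noncomputable def polyFn (m J N : ℕ) (z : Inp m J N → Bool) : Bool :=
  decide ((sumPoly m J N z %ₘ modPoly m J N z).coeff 0 = 1)

theorem polyFn_eq (m J N : ℕ) (z : Inp m J N → Bool) : polyFn m J N z = hfun m J N z := rfl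

end UnbTop
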