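import Pool.Agent.H.MP_027d00_lc.unb.Defs

/-!
# Moments of the signed sums (job D)
-/

set_option autoImplicit false

namespace UnbTop

open Classical in
/-- the tuples of length `n` whose first `J` power sums vanish -/
noncomputable def momentS {K I : Type} [Field K] [Fintype I] (ι : I → K) (J n : ℕ) :
    Finset (Fin n → I) :=
  Finset.univ.filter (fun p => ∀ j < J, ∑ i, ι (p i) ^ j = 0)

theorem moment_mem {K I : Type} [Field K] [Fintype I] (ι : I → K) (J n : ℕ) (p : Fin n → I) :
    p ∈ momentS ι J n ↔ ∀ j < J, ∑ i, ι (p i) ^ j = 0 := by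
  simp [momentS]

/-- the first entry of such a tuple occurs again -/
theorem moment_exists {K : Type} [Field K] {I : Type} [Fintype I] (ι : I → K)
    (hι : Function.Injective ι) (J n : ℕ) (hJ : n + 2 ≤ J) (p : Fin (n + 2) → I)
    (hp : p ∈ momentS ι J (n + 2)) : ∃ i : Fin (n + 1), p i.succ = p 0 := by
  rw [moment_mem] at hp
  let q : Polynomial K := ∏ i : Fin (n + 1), (Polynomial.X - Polynomial.C (ι (p i.succ)))
  have hdeg : q.natDegree < J := by
    have h1 : q.natDegree = n + 1 := by
      have := Polynomial.natDegree_prod_of_monic (Finset.univ : Finset (Fin (n + 1)))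
        (fun i => (Polynomial.X - Polynomial.C (ι (p i.succ)) : Polynomial K))
        (fun i _ => Polynomial.monic_X_sub_C _)
      simp only [q]
      rw [this]
      simp
    omega
  have h0 : ∑ i : Fin (n + 2), q.eval (ι (p i)) = 0 := by
    simp only [Polynomial.eval_eq_sum_range' hdeg]
    rw [Finset.sum_comm]
    apply Finset.sum_eq_zero
    intro j hj
    rw [← Finset.mul_sum, hp j (Finset.mem_range.mp hj), mul_zero]
  rw [Fin.sum_univ_succ] at h0
  have h1 : ∑ i : Fin (n + 1), q.eval (ι (p i.succ)) = 0 := by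
    apply Finset.sum_eq_zero
    intro i _
    simp only [q, Polynomial.eval_prod]
    apply Finset.prod_eq_zero (Finset.mem_univ i)
    simp
  rw [h1, add_zero] at h0
  simp only [q, Polynomial.eval_prod, Finset.prod_eq_zero_iff] at h0
  obtain ⟨i, _, hi⟩ := h0
  refine ⟨i, hι ?_⟩
  simp only [Polynomial.eval_sub, Polynomial.eval_X, Polynomial.eval_C] at hi
  exact (sub_eq_zero.mp hi).symm

theorem moment_step {K : Type} [Field K] [CharP K 2] {I : Type} [Fintype I] (ι : I → K)
    (hι : Function.Injective ι) (J n : ℕ) (hJ : n + 2 ≤ J) :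
    (momentS ι J (n + 2)).card ≤ (n + 1) * Fintype.card I * (momentS ι J n).card := by
  classical
  have hsub : momentS ι J (n + 2) ⊆
      ((Finset.univ : Finset I) ×ˢ (Finset.univ : Finset (Fin (n + 1))) ×ˢ momentS ι J n).image
        (fun q => (Fin.cons q.1 (Fin.insertNth q.2.1 q.1 q.2.2 : Fin (n + 1) → I) :
          Fin (n + 2) → I)) := by
    intro p hp
    obtain ⟨i, hi⟩ := moment_exists ι hι J n hJ p hp
    rw [Finset.mem_image]
    have hins : (Fin.insertNth i (p 0) (i.removeNth (Fin.tail p)) : Fin (n + 1) → I) =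
        Fin.tail p := by
      rw [Fin.insertNth_eq_iff]
      exact ⟨hi.symm, rfl⟩
    refine ⟨(p 0, i, i.removeNth (Fin.tail p)), ?_, ?_⟩
    · simp only [Finset.mem_product, Finset.mem_univ, true_and]
      rw [moment_mem] at hp ⊢
      intro j hj
      have h1 := hp j hj
      rw [Fin.sum_univ_succ, Fin.sum_univ_succAbove _ i, hi, ← add_assoc,
        CharTwo.add_self_eq_zero, zero_add] at h1
      exact h1
    · simp only
      rw [hins]
      exact Fin.cons_self_tail p
  refine (Finset.card_le_card hsub).trans (Finset.card_image_le.trans ?_)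
  rw [Finset.card_product, Finset.card_product, Finset.card_univ, Finset.card_univ,
    Fintype.card_fin]
  apply le_of_eq
  ring

theorem moment_count {K : Type} [Field K] [CharP K 2] {I : Type} [Fintype I] (ι : I → K)
    (hι : Function.Injective ι) (J T : ℕ) (t : ℕ) (htT : t ≤ T) (hJ : 2 * T ≤ J) :
    (momentS ι J (2 * t)).card ≤ (2 * T * Fintype.card I) ^ t := by
  induction t with
  | zero =>
    simp only [Nat.mul_zero, pow_zero]
    calc (momentS ι J 0).card ≤ Fintype.card (Fin 0 → I) := Finset.card_le_univ _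
      _ = 1 := by simp
  | succ t ih =>
    have h1 := moment_step ι hι J (2 * t) (by omega)
    have h2 := ih (by omega)
    rw [show 2 * (t + 1) = 2 * t + 2 from by ring]
    calc (momentS ι J (2 * t + 2)).card
        ≤ (2 * t + 1) * Fintype.card I * (momentS ι J (2 * t)).card := h1
      _ ≤ (2 * T) * Fintype.card I * (2 * T * Fintype.card I) ^ t := by
          apply Nat.mul_le_mul (Nat.mul_le_mul_right _ (by omega)) h2
      _ = (2 * T * Fintype.card I) ^ (t + 1) := by ring

theorem moment_sgn_add (a b : ZMod 2) : sgn (a + b) = sgn a * sgn b := by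
  have h01 : ∀ c : ZMod 2, c = 0 ∨ c = 1 := by decide
  have h11 : (1 : ZMod 2) + 1 = 0 := by decide
  unfold sgn
  rcases h01 a with rfl | rfl <;> rcases h01 b with rfl | rfl <;> simp [h11]

theorem moment_sgn_sum {ι' : Type} (s : Finset ι') (f : ι' → ZMod 2) :
    sgn (∑ i ∈ s, f i) = ∏ i ∈ s, sgn (f i) := by
  classical
  induction s using Finset.induction_on with
  | empty => simp [sgn]
  | insert a s ha ih => rw [Finset.sum_insert ha, Finset.prod_insert ha, moment_sgn_add, ih]

theorem moment_sgn_abs (a : ZMod 2) : |sgn a| = 1 := by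
  unfold sgn
  split_ifs <;> simp

/-- character sum -/
theorem moment_char {K : Type} [Field K] [Fintype K] (lam : K →+ ZMod 2)
    (hlam : ∃ c, lam c ≠ 0) (J : ℕ) (v : Fin J → K) (j : Fin J) (hv : v j ≠ 0) :
    ∑ x : Fin J → K, sgn (lam (∑ i : Fin J, x i * v i)) = 0 := by
  classical
  obtain ⟨c, hc⟩ := hlam
  have hneg : ∀ a : ZMod 2, sgn (a + lam c) = - sgn a := by
    intro a
    rw [moment_sgn_add]
    have : sgn (lam c) = -1 := by simp [sgn, hc]
    rw [this]; ring
  have key : ∑ x : Fin J → K, sgn (lam (∑ i : Fin J, x i * v i)) =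
      ∑ x : Fin J → K, - sgn (lam (∑ i : Fin J, x i * v i)) := by
    rw [← Equiv.sum_comp (Equiv.addRight (Pi.single j (c / v j) : Fin J → K))]
    apply Finset.sum_congr rfl
    intro x _
    rw [← hneg, ← map_add]
    congr 2
    have : ∀ i, (Equiv.addRight (Pi.single j (c / v j) : Fin J → K)) x i * v i =
        x i * v i + (Pi.single j (c / v j) : Fin J → K) i * v i := by
      intro i
      simp [Equiv.coe_addRight, add_mul]
    simp only [this]
    rw [Finset.sum_add_distrib]
    congr 1
    rw [Finset.sum_eq_single j]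
    · rw [Pi.single_eq_same]
      field_simp
    · intro b _ hb
      rw [Pi.single_eq_of_ne hb, zero_mul]
    · intro h
      exact absurd (Finset.mem_univ j) h
  rw [Finset.sum_neg_distrib] at key
  linarith

theorem moment {K : Type} [Field K] [Fintype K] [DecidableEq K] [CharP K 2]
    (lam : K →+ ZMod 2) (hlam : ∃ c, lam c ≠ 0)
    {I : Type} [Fintype I] [Nonempty I] (ι : I → K) (hι : Function.Injective ι)
    (w : I → ℝ) (hw : ∀ u, |w u| ≤ 1) (t J : ℕ) (ht : 1 ≤ t) (hJ : 2 * t ≤ J) :
    ∑ x : Fin J → K,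
      (∑ u : I, w u * sgn (lam (∑ j : Fin J, x j * ι u ^ (j : ℕ)))) ^ (2 * t) ≤
      (Fintype.card K : ℝ) ^ J * (6 * t * Fintype.card I) ^ t := by
  classical
  have hexp : ∀ x : Fin J → K,
      (∑ u : I, w u * sgn (lam (∑ j : Fin J, x j * ι u ^ (j : ℕ)))) ^ (2 * t) =
      ∑ p : Fin (2 * t) → I, (∏ i, w (p i)) *
        sgn (lam (∑ j : Fin J, x j * ∑ i, ι (p i) ^ (j : ℕ))) := by
    intro x
    rw [Fintype.sum_pow]
    apply Finset.sum_congr rfl
    intro p _
    rw [Finset.prod_mul_distrib]
    congr 1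
    rw [← moment_sgn_sum, ← map_sum]
    congr 2
    rw [Finset.sum_comm]
    apply Finset.sum_congr rfl
    intro j _
    rw [Finset.mul_sum]
  simp only [hexp]
  rw [Finset.sum_comm]
  have hterm : ∀ p : Fin (2 * t) → I,
      ∑ x : Fin J → K, (∏ i, w (p i)) *
        sgn (lam (∑ j : Fin J, x j * ∑ i, ι (p i) ^ (j : ℕ))) ≤
      if p ∈ momentS ι J (2 * t) then (Fintype.card K : ℝ) ^ J else 0 := by
    intro p
    rw [← Finset.mul_sum]
    split_ifs with hp
    · have h1 : |∏ i, w (p i)| ≤ 1 := by
        rw [Finset.abs_prod]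
        exact Finset.prod_le_one (fun i _ => abs_nonneg _) (fun i _ => hw _)
      have h2 : |∑ x : Fin J → K,
          sgn (lam (∑ j : Fin J, x j * ∑ i, ι (p i) ^ (j : ℕ)))| ≤
          (Fintype.card K : ℝ) ^ J := by
        refine (Finset.abs_sum_le_sum_abs _ _).trans ?_
        simp only [moment_sgn_abs]
        simp
      calc (∏ i, w (p i)) * ∑ x : Fin J → K,
            sgn (lam (∑ j : Fin J, x j * ∑ i, ι (p i) ^ (j : ℕ)))
          ≤ |(∏ i, w (p i)) * ∑ x : Fin J → K,
            sgn (lam (∑ j : Fin J, x j * ∑ i, ι (p i) ^ (j : ℕ)))| := le_abs_self _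
        _ = |∏ i, w (p i)| * |∑ x : Fin J → K,
            sgn (lam (∑ j : Fin J, x j * ∑ i, ι (p i) ^ (j : ℕ)))| := abs_mul _ _
        _ ≤ 1 * (Fintype.card K : ℝ) ^ J :=
            mul_le_mul h1 h2 (abs_nonneg _) zero_le_one
        _ = _ := one_mul _
    · rw [moment_mem] at hp
      push Not at hp
      obtain ⟨j, hj, hne⟩ := hp
      rw [moment_char lam hlam J (fun j => ∑ i, ι (p i) ^ (j : ℕ)) ⟨j, hj⟩ hne, mul_zero]
  refine (Finset.sum_le_sum (fun p _ => hterm p)).trans ?_
  rw [← Finset.sum_filter, Finset.sum_const, nsmul_eq_mul, mul_comm]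
  apply mul_le_mul_of_nonneg_left _ (by positivity)
  have hc : ((Finset.univ.filter (fun p => p ∈ momentS ι J (2 * t))).card : ℝ) ≤
      ((2 * t * Fintype.card I) ^ t : ℕ) := by
    have : Finset.univ.filter (fun p => p ∈ momentS ι J (2 * t)) = momentS ι J (2 * t) := by
      ext p; simp
    rw [this]
    exact_mod_cast moment_count ι hι J t t le_rfl hJ
  refine hc.trans ?_
  push_cast
  apply pow_le_pow_left₀ (by positivity)
  have : (0 : ℝ) ≤ t * Fintype.card I := by positivity
  nlinarith

end UnbTop
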