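import Pool.Agent.H.MP_027d00_lc.unb.Defs

/-!
# The parameters (job J)
-/

set_option autoImplicit false

namespace UnbTop

open Filter

/-- powers of the logarithm are eventually smaller than powers -/
lemma params_log (c : ℝ) (hc : 0 < c) (p : ℕ) (C : ℝ) :
    ∀ᶠ n : ℕ in atTop, C * (Real.logb 2 n) ^ p ≤ (n : ℝ) ^ c := by
  have h1 := (isLittleO_log_rpow_rpow_atTop (p : ℝ) hc)
  have hC : 0 < (|C| + 1)⁻¹ * (Real.log 2) ^ p := by
    have : 0 < Real.log 2 := Real.log_pos one_lt_two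
    positivity
  have h2 := h1.bound hC
  have h3 := (tendsto_natCast_atTop_atTop (R := ℝ)).eventually h2
  filter_upwards [h3, eventually_ge_atTop 1] with n hn hn1
  have hn1' : (1 : ℝ) ≤ n := by exact_mod_cast hn1
  have hlog : 0 ≤ Real.log n := Real.log_nonneg hn1'
  have hl2 : 0 < Real.log 2 := Real.log_pos one_lt_two
  rw [Real.rpow_natCast, Real.norm_of_nonneg (by positivity), Real.norm_of_nonneg (by positivity)]
    at hn
  have h4 : (Real.logb 2 n) ^ p * (Real.log 2) ^ p = (Real.log n) ^ p := by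
    rw [← mul_pow, Real.logb, div_mul_cancel₀ _ hl2.ne']
  have h5 : (Real.logb 2 n) ^ p * (Real.log 2) ^ p ≤
      ((|C| + 1)⁻¹ * (n : ℝ) ^ c) * (Real.log 2) ^ p := by
    rw [h4]; linarith
  have h6 : (Real.logb 2 n) ^ p ≤ (|C| + 1)⁻¹ * (n : ℝ) ^ c :=
    le_of_mul_le_mul_right h5 (by positivity)
  have h7 : 0 ≤ (Real.logb 2 n) ^ p := by
    have : 0 ≤ Real.logb 2 n := Real.logb_nonneg one_lt_two hn1'
    positivity
  have hC1 : 0 < |C| + 1 := by positivity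
  calc C * (Real.logb 2 n) ^ p ≤ (|C| + 1) * (Real.logb 2 n) ^ p :=
        mul_le_mul_of_nonneg_right ((le_abs_self C).trans (by linarith)) h7
    _ ≤ (|C| + 1) * ((|C| + 1)⁻¹ * (n : ℝ) ^ c) := mul_le_mul_of_nonneg_left h6 hC1.le
    _ = (n : ℝ) ^ c := by rw [← mul_assoc, mul_inv_cancel₀ hC1.ne', one_mul]

/-- `2 ^ ⌊a log₂ n⌋ ≤ n ^ a` -/
lemma params_floor {n : ℕ} (hn : 1 ≤ n) {a : ℝ} (ha : 0 ≤ a) :
    (2 : ℝ) ^ ⌊a * Real.logb 2 n⌋₊ ≤ (n : ℝ) ^ a := by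
  have hn1' : (1 : ℝ) ≤ n := by exact_mod_cast hn
  have h0 : 0 ≤ Real.logb 2 n := Real.logb_nonneg one_lt_two hn1'
  rw [← Real.rpow_natCast]
  calc (2 : ℝ) ^ ((⌊a * Real.logb 2 n⌋₊ : ℕ) : ℝ) ≤ (2 : ℝ) ^ (a * Real.logb 2 n) :=
        Real.rpow_le_rpow_of_exponent_le one_le_two (Nat.floor_le (by positivity))
    _ = ((2 : ℝ) ^ (Real.logb 2 n)) ^ a := by rw [mul_comm, Real.rpow_mul (by norm_num)]
    _ = (n : ℝ) ^ a := by
        rw [Real.rpow_logb (by norm_num) (by norm_num) (by linarith)]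

/-- `2 ^ ⌈a log₂ n⌉ ≤ 2 n ^ (max a 0)` -/
lemma params_ceil {n : ℕ} (hn : 1 ≤ n) (a : ℝ) :
    (2 : ℝ) ^ ⌈a * Real.logb 2 n⌉₊ ≤ 2 * (n : ℝ) ^ (max a 0) := by
  have hn1' : (1 : ℝ) ≤ n := by exact_mod_cast hn
  have h0 : 0 ≤ Real.logb 2 n := Real.logb_nonneg one_lt_two hn1'
  rw [← Real.rpow_natCast]
  have h1 : ((⌈a * Real.logb 2 n⌉₊ : ℕ) : ℝ) ≤ max a 0 * Real.logb 2 n + 1 := by
    have h2 : ⌈a * Real.logb 2 n⌉₊ ≤ ⌈max a 0 * Real.logb 2 n⌉₊ :=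
      Nat.ceil_mono (mul_le_mul_of_nonneg_right (le_max_left _ _) h0)
    have h3 : ((⌈max a 0 * Real.logb 2 n⌉₊ : ℕ) : ℝ) < max a 0 * Real.logb 2 n + 1 :=
      Nat.ceil_lt_add_one (mul_nonneg (le_max_right _ _) h0)
    have h4 : ((⌈a * Real.logb 2 n⌉₊ : ℕ) : ℝ) ≤ ((⌈max a 0 * Real.logb 2 n⌉₊ : ℕ) : ℝ) := by
      exact_mod_cast h2
    linarith
  calc (2 : ℝ) ^ ((⌈a * Real.logb 2 n⌉₊ : ℕ) : ℝ) ≤ (2 : ℝ) ^ (max a 0 * Real.logb 2 n + 1) :=
        Real.rpow_le_rpow_of_exponent_le one_le_two h1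
    _ = 2 * ((2 : ℝ) ^ (Real.logb 2 n)) ^ (max a 0) := by
        rw [Real.rpow_add (by norm_num), Real.rpow_one, mul_comm (max a 0),
          Real.rpow_mul (by norm_num), mul_comm]
    _ = 2 * (n : ℝ) ^ (max a 0) := by
        rw [Real.rpow_logb (by norm_num) (by norm_num) (by linarith)]

/-- the exponent inequality -/
lemma params_real (n X Y ℓ L m a b t k κ s : ℝ) (hXY : X * Y = n) (hX0 : 0 < X) (hY0 : 0 < Y)
    (hX : 1000 * ℓ ^ 2 ≤ X) (hY : 1000 * ℓ ^ 2 ≤ Y) (hℓ2 : ℓ ≤ ℓ ^ 2) (hℓ16 : 16 ≤ ℓ ^ 2)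
    (hLup : L ≤ 2 * ℓ) (hL1 : 1 ≤ L) (hL2 : L ^ 2 ≤ 4 * ℓ ^ 2) (hmpos : 0 < m) (hmX : m ≤ X)
    (haL : a * L = m) (ha50 : 50 ≤ a) (hbm : b * (8 * m) = n) (hb2000 : 2000 ≤ b)
    (hb_up : b ≤ Y / 4) (ht_up : t ≤ b) (ht_lo : b - 1 ≤ t) (h3 : L * k ≤ m)
    (hκ_lo : (a - 5) / 3 ≤ κ) (hs_up : s * (100 * L ^ 2) ≤ n) (hℓn : 16000 * 1000 * ℓ ^ 2 ≤ n)
    (hmn' : m ≤ n / 16000) :
    L * t + (L * k + m + (L * (2 * s) + 1)) < κ * t := by
  have hLpos : 0 < L := by linarith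
  have hb0 : 0 < b := by linarith
  have hκ0 : 0 ≤ κ := by linarith
  have h1 : ((a - 5) / 3) * (b - 1) ≤ κ * t :=
    mul_le_mul hκ_lo ht_lo (by linarith) hκ0
  have h2 : L * t ≤ L * b := mul_le_mul_of_nonneg_left ht_up hLpos.le
  have h5 : L * (L * b) ≤ n / 1000 := by
    have h4 : L ^ 2 * b ≤ (4 * ℓ ^ 2) * (Y / 4) :=
      mul_le_mul hL2 hb_up hb0.le (by positivity)
    have h6 : 1000 * ℓ ^ 2 * Y ≤ X * Y := mul_le_mul_of_nonneg_right hX hY0.le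
    rw [hXY] at h6
    have h7 : L * (L * b) = L ^ 2 * b := by ring
    have h8 : (4 * ℓ ^ 2) * (Y / 4) = (1000 * ℓ ^ 2 * Y) / 1000 := by ring
    rw [h7]
    linarith
  have h6 : L * m ≤ n / 500 := by
    have h7 : L * m ≤ (2 * ℓ) * X := mul_le_mul hLup hmX hmpos.le (by linarith)
    have h8 : X * (1000 * ℓ ^ 2) ≤ X * Y := mul_le_mul_of_nonneg_left hY hX0.le
    rw [hXY] at h8
    have h9 : X * ℓ ≤ X * ℓ ^ 2 := mul_le_mul_of_nonneg_left hℓ2 hX0.le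
    have h10 : (2 * ℓ) * X = 2 * (X * ℓ) := by ring
    have h11 : X * (1000 * ℓ ^ 2) = 1000 * (X * ℓ ^ 2) := by ring
    rw [h10] at h7
    rw [h11] at h8
    linarith
  have h7 : L * b ≤ n / 1000 := by
    have h8 : 1 * (L * b) ≤ L * (L * b) := mul_le_mul_of_nonneg_right hL1 (by positivity)
    linarith
  have h8 : L * (L * (2 * s)) ≤ n / 50 := by
    have : L * (L * (2 * s)) = (s * (100 * L ^ 2)) / 50 := by ring
    rw [this]; linarith
  have h9 : L * 1 ≤ n / 1000 := by linarith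
  have h10 : L * (((a - 5) / 3) * (b - 1)) = n / 24 - m / 3 - 5 / 3 * (L * b) + 5 / 3 * L := by
    have h11 : (a * L) * b = n / 8 := by rw [haL]; linarith
    have h12 : L * (((a - 5) / 3) * (b - 1)) =
      ((a * L) * b) / 3 - (a * L) / 3 - 5 / 3 * (L * b) + 5 / 3 * L := by ring
    rw [h12, h11, haL]; ring
  have h13 : L * (((a - 5) / 3) * (b - 1)) ≤ L * (κ * t) :=
    mul_le_mul_of_nonneg_left h1 hLpos.le
  have h14 : L * (L * t) ≤ L * (L * b) := mul_le_mul_of_nonneg_left h2 hLpos.le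
  have h15 : L * (L * k) ≤ L * m := mul_le_mul_of_nonneg_left h3 hLpos.le
  have h16 : L * (L * t + (L * k + m + (L * (2 * s) + 1))) =
    L * (L * t) + L * (L * k) + L * m + L * (L * (2 * s)) + L * 1 := by ring
  have hfin : L * (L * t + (L * k + m + (L * (2 * s) + 1))) < L * (κ * t) := by
    rw [h16]
    linarith
  exact lt_of_mul_lt_mul_left hfin hLpos.le

theorem params (γ α β η ε : ℝ) (hγ0 : 0 < γ) (hγ : γ < 1) (hα : 0 ≤ α) (hβ : 0 ≤ β) (hη : 0 ≤ η)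
    (hsum : α + β + η < γ) (hε : 0 < ε) :
    ∀ᶠ n : ℕ in atTop, ∀ m N J q1 q2 d : ℕ, m = ⌊(n : ℝ) ^ γ⌋₊ → N = n / 4 → J = n / (4 * m) →
      q1 = ⌊α * Real.logb 2 n⌋₊ → q2 = ⌊β * Real.logb 2 n⌋₊ →
      d = ⌈(5 / 2 - 3 / 2 * γ - α - β - ε) * Real.logb 2 n⌉₊ →
      2 * m + J * m + N ≤ n ∧
      ∃ k κ t s0 B : ℕ, 1 ≤ m ∧ 1 ≤ k ∧ k ≤ N ∧ 1 ≤ t ∧ 1 ≤ s0 ∧ 3 * κ ≤ k ∧ 2 * t ≤ J ∧
        2 * N + 2 * s0 + 2 ≤ B ∧ (N + 1) ^ (k + 1) < 2 ^ m ∧
        (6 * t) ^ t * ((N + 1) ^ k * 2 ^ m * (B ^ (2 * s0) + 2)) < 2 ^ (κ * t) ∧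
        9 * (2 ^ (q1 + q2 + 1) * 2 ^ d) ^ 2 * (k + 1) ^ 3 ≤ s0 ^ 2 * (N + 1) ^ 3 ∧
        ∀ K : ℕ, (K : ℝ) ≤ (n : ℝ) ^ η →
          4 * (8 * 2 ^ (q1 + q2 + 1)) ^ (2 ^ (q1 + q2 + 1)) * 2 ^ (K * 2 ^ (q1 + q2 + 1)) <
            2 ^ κ := by
  set δ : ℝ := min (2 * ε) (5 - 5 * γ) with hδ
  have hδ0 : 0 < δ := lt_min (by linarith) (by linarith)
  filter_upwards [params_log γ hγ0 2 1000, params_log (1 - γ) (by linarith) 2 1000,
    params_log (γ - (α + β + η)) (by linarith) 2 200, params_log δ hδ0 4 5898240000,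
    eventually_ge_atTop 16] with n hX hY hS hD hn16
  intro m N J q1 q2 d hm hN hJ hq1 hq2 hd
  set ℓ : ℝ := Real.logb 2 n with hℓ
  have hn1 : 1 ≤ n := by omega
  have hn1' : (1 : ℝ) ≤ n := by exact_mod_cast hn1
  have hnpos : (0 : ℝ) < n := by linarith
  have hn16' : (16 : ℝ) ≤ n := by exact_mod_cast hn16
  have hℓ4 : 4 ≤ ℓ := by
    rw [hℓ, Real.le_logb_iff_rpow_le one_lt_two hnpos]
    refine le_trans ?_ hn16'
    norm_num
  set X : ℝ := (n : ℝ) ^ γ with hXdef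
  set Y : ℝ := (n : ℝ) ^ (1 - γ) with hYdef
  have hXY : X * Y = n := by
    rw [hXdef, hYdef, ← Real.rpow_add hnpos, add_sub_cancel, Real.rpow_one]
  have hX0 : 0 < X := Real.rpow_pos_of_pos hnpos _
  have hY0 : 0 < Y := Real.rpow_pos_of_pos hnpos _
  have hℓ2 : ℓ ≤ ℓ ^ 2 := le_self_pow₀ (by linarith) two_ne_zero
  have hℓ16 : 16 ≤ ℓ ^ 2 := by
    have : (4 : ℝ) ^ 2 ≤ ℓ ^ 2 := pow_le_pow_left₀ (by norm_num) hℓ4 2
    linarith
  have hX16 : 16000 ≤ X := by linarith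
  have hY16 : 16000 ≤ Y := by linarith
  have hXn : 16000 * X ≤ n := by
    have := mul_le_mul_of_nonneg_left hY16 hX0.le
    rw [hXY] at this; linarith
  have hYn : 16000 * Y ≤ n := by
    have := mul_le_mul_of_nonneg_right hX16 hY0.le
    rw [hXY] at this; exact this
  have hℓn : 16000 * 1000 * ℓ ^ 2 ≤ n := by
    have : 16000 * (1000 * ℓ ^ 2) ≤ X * Y := mul_le_mul hX16 hY (by positivity) hX0.le
    rw [hXY] at this; linarith
  -- m
  have hmX : (m : ℝ) ≤ X := by rw [hm]; exact Nat.floor_le hX0.le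
  have hmX' : X / 2 ≤ m := by
    have : X < m + 1 := by rw [hm]; exact Nat.lt_floor_add_one X
    linarith
  have hm1 : 1 ≤ m := by
    have : (1 : ℝ) ≤ m := by linarith
    exact_mod_cast this
  have hmpos : (0 : ℝ) < m := by linarith
  -- L
  set L : ℕ := Nat.clog 2 (4 * n) with hL
  have hL4 : 4 * n ≤ 2 ^ L := Nat.le_pow_clog one_lt_two _
  have hLup : (L : ℝ) ≤ 2 * ℓ := by
    have h1 : 2 ^ (L - 1) < 4 * n := by
      have := Nat.pow_pred_clog_lt_self (b := 2) one_lt_two (x := 4 * n) (by omega)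
      rwa [Nat.pred_eq_sub_one] at this
    have h2 : ((2 : ℝ)) ^ ((L - 1 : ℕ) : ℝ) < 4 * n := by
      rw [Real.rpow_natCast]; exact_mod_cast h1
    have h3 : ((L - 1 : ℕ) : ℝ) < Real.logb 2 (4 * n) := by
      rw [Real.lt_logb_iff_rpow_lt one_lt_two (by linarith)]; exact h2
    have h4 : Real.logb 2 (4 * n) = 2 + ℓ := by
      rw [Real.logb_mul (by norm_num) hnpos.ne']
      congr 1
      rw [Real.logb_eq_iff_rpow_eq (by norm_num) (by norm_num) (by norm_num)]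
      norm_num
    rw [h4] at h3
    have h5 : (L : ℝ) ≤ ((L - 1 : ℕ) : ℝ) + 1 := by
      have : L ≤ (L - 1) + 1 := by omega
      exact_mod_cast this
    linarith
  have hL1 : 1 ≤ L := by
    rcases Nat.eq_zero_or_pos L with h | h
    · rw [h, pow_zero] at hL4; omega
    · exact h
  have hLpos : (0 : ℝ) < L := by exact_mod_cast hL1
  have hL2 : (L : ℝ) ^ 2 ≤ 4 * ℓ ^ 2 := by
    have : (L : ℝ) ^ 2 ≤ (2 * ℓ) ^ 2 := pow_le_pow_left₀ hLpos.le hLup 2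
    rw [mul_pow] at this; linarith
  -- q = m / L
  set q : ℕ := m / L with hq
  set a : ℝ := (m : ℝ) / L with ha
  have haL : a * L = m := by rw [ha]; field_simp
  have hqa : (q : ℝ) ≤ a := Nat.cast_div_le
  have hqa' : a < q + 1 := by
    rw [ha, div_lt_iff₀ hLpos]
    have : m < (q + 1) * L := by
      rw [hq, mul_comm]; exact Nat.lt_mul_div_succ m hL1
    exact_mod_cast this
  have hLX : 4 * ℓ * 50 ≤ X := by linarith
  have ha_lo : X / (4 * ℓ) ≤ a := by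
    rw [ha, div_le_div_iff₀ (by positivity) hLpos]
    have h1 : X * L ≤ X * (2 * ℓ) := mul_le_mul_of_nonneg_left hLup hX0.le
    have h2 : X / 2 * (4 * ℓ) ≤ m * (4 * ℓ) := mul_le_mul_of_nonneg_right hmX' (by positivity)
    linarith
  have ha50 : 50 ≤ a := by
    refine le_trans ?_ ha_lo
    rw [le_div_iff₀ (by positivity)]; linarith
  have hq6 : 6 ≤ q := by
    have : (6 : ℝ) < q + 1 := by linarith
    have h2 : (5 : ℝ) < q := by linarith
    have : 5 < q := by exact_mod_cast h2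
    omega
  have ham : a ≤ m := by
    rw [ha]; exact div_le_self hmpos.le (by exact_mod_cast hL1)
  -- k, κ
  set k : ℕ := q - 2 with hk
  have hkq : k + 2 = q := by omega
  have hk_r : (k : ℝ) + 2 = q := by exact_mod_cast hkq
  set κ : ℕ := k / 3 with hκ
  have hκ3 : 3 * κ ≤ k := by omega
  have hκ3' : k ≤ 3 * κ + 2 := by omega
  have hκ_r : (k : ℝ) ≤ 3 * κ + 2 := by exact_mod_cast hκ3'
  have hκ_lo : (a - 5) / 3 ≤ κ := by linarith
  -- J, t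
  set b : ℝ := (n : ℝ) / (8 * m) with hb
  have hbm : b * (8 * m) = n := by rw [hb]; field_simp
  have hJ_up : (J : ℝ) ≤ 2 * b := by
    have h1 : (J : ℝ) ≤ (n : ℝ) / ((4 * m : ℕ) : ℝ) := by rw [hJ]; exact Nat.cast_div_le
    refine h1.trans (le_of_eq ?_)
    rw [hb]; push_cast; field_simp; ring
  have hJ_lo : 2 * b < J + 1 := by
    have h1 : n < (J + 1) * (4 * m) := by
      rw [hJ, mul_comm]; exact Nat.lt_mul_div_succ n (by omega)
    have h2 : (n : ℝ) < (J + 1) * (4 * m) := by exact_mod_cast h1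
    rw [← hbm] at h2
    have h3 : (2 * b) * (4 * m) < (J + 1) * (4 * m) := by linarith
    exact lt_of_mul_lt_mul_right h3 (by positivity)
  have hb_up : b ≤ Y / 4 := by
    rw [hb, div_le_div_iff₀ (by positivity) (by norm_num), ← hXY]
    have h1 : X / 2 * Y ≤ m * Y := mul_le_mul_of_nonneg_right hmX' hY0.le
    have h2 : X / 2 * Y = X * Y / 2 := by ring
    have h3 : Y * (8 * m) = 8 * (m * Y) := by ring
    rw [h3]; linarith
  have hb_lo : Y / 8 ≤ b := by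
    rw [hb, div_le_div_iff₀ (by norm_num) (by positivity), ← hXY]
    have h1 : m * Y ≤ X * Y := mul_le_mul_of_nonneg_right hmX hY0.le
    have h3 : Y * (8 * m) = 8 * (m * Y) := by ring
    rw [h3]; linarith
  have hb2000 : 2000 ≤ b := by linarith
  set t : ℕ := J / 2 with ht
  have ht2 : 2 * t ≤ J := by omega
  have ht2' : J ≤ 2 * t + 1 := by omega
  have ht_up : (t : ℝ) ≤ b := by
    have : (2 * t : ℝ) ≤ J := by exact_mod_cast ht2
    linarith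
  have ht_lo : b - 1 ≤ t := by
    have : (J : ℝ) ≤ 2 * t + 1 := by exact_mod_cast ht2'
    linarith
  have ht1 : 1 ≤ t := by
    have : (1 : ℝ) ≤ t := by linarith
    exact_mod_cast this
  -- s0
  set s0 : ℕ := n / (100 * L ^ 2) with hs0
  have hs_up : (s0 : ℝ) * (100 * L ^ 2) ≤ n := by
    have : s0 * (100 * L ^ 2) ≤ n := Nat.div_mul_le_self _ _
    exact_mod_cast this
  have hs_lo : (n : ℝ) < (s0 + 1) * (100 * L ^ 2) := by
    have : n < (s0 + 1) * (100 * L ^ 2) := by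
      rw [hs0, mul_comm]; exact Nat.lt_mul_div_succ n (by positivity)
    exact_mod_cast this
  have hs_lo2 : (n : ℝ) / (800 * ℓ ^ 2) ≤ s0 := by
    rw [div_le_iff₀ (by positivity)]
    have h1 : ((s0 : ℝ) + 1) * (100 * L ^ 2) ≤ (s0 + 1) * (400 * ℓ ^ 2) := by
      refine mul_le_mul_of_nonneg_left (by linarith) (by positivity)
    have h2 : ((s0 : ℝ) + 1) * (400 * ℓ ^ 2) = s0 * (800 * ℓ ^ 2) / 2 + 400 * ℓ ^ 2 := by ring
    rw [h2] at h1
    linarith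
  have hs1 : 1 ≤ s0 := by
    have h1 : (1 : ℝ) ≤ (n : ℝ) / (800 * ℓ ^ 2) := by
      rw [le_div_iff₀ (by positivity)]; linarith
    have : (1 : ℝ) ≤ s0 := h1.trans hs_lo2
    exact_mod_cast this
  have hs100 : 100 * s0 ≤ n := by
    have h1 : s0 * (100 * L ^ 2) ≤ n := Nat.div_mul_le_self _ _
    have h2 : 1 ≤ L ^ 2 := Nat.one_le_pow _ _ hL1
    calc 100 * s0 = s0 * (100 * 1) := by ring
      _ ≤ s0 * (100 * L ^ 2) := Nat.mul_le_mul_left _ (Nat.mul_le_mul_left _ h2)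
      _ ≤ n := h1
  -- N
  have hN4 : 4 * N ≤ n := by omega
  have hmn : 16000 * m ≤ n := by
    have : (16000 : ℝ) * m ≤ n := by linarith
    exact_mod_cast this
  have hJm : J * (4 * m) ≤ n := by rw [hJ]; exact Nat.div_mul_le_self _ _
  have hkm : k ≤ m := by
    have : (k : ℝ) ≤ m := by linarith
    exact_mod_cast this
  have hLkm : L * (k + 2) ≤ m := by
    rw [hkq, hq]; exact Nat.mul_div_le m L
  have hJm' : 4 * (J * m) ≤ n := by
    calc 4 * (J * m) = J * (4 * m) := by ring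
      _ ≤ n := hJm
  have hLkm1 : L * (k + 1) < m := by
    have : L * (k + 1) < L * (k + 2) := Nat.mul_lt_mul_of_pos_left (by omega) hL1
    exact lt_of_lt_of_le this hLkm
  have hJn : 4 * J ≤ n := by
    calc 4 * J = 4 * (J * 1) := by ring
      _ ≤ 4 * (J * m) := Nat.mul_le_mul_left _ (Nat.mul_le_mul_left _ hm1)
      _ ≤ n := hJm'
  refine ⟨by omega, k, κ, t, s0, 2 * N + 2 * s0 + 2, hm1, by omega, by omega, ht1, hs1, hκ3,
    ht2, le_rfl, ?_, ?_, ?_, ?_⟩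
  · -- (N + 1) ^ (k + 1) < 2 ^ m
    calc (N + 1) ^ (k + 1) ≤ (2 ^ L) ^ (k + 1) := Nat.pow_le_pow_left (by omega) _
      _ = 2 ^ (L * (k + 1)) := by rw [← pow_mul]
      _ < 2 ^ m := Nat.pow_lt_pow_right one_lt_two hLkm1
  · -- the counting inequality
    have e1 : (6 * t) ^ t ≤ 2 ^ (L * t) := by
      rw [pow_mul]
      refine Nat.pow_le_pow_left ?_ _
      omega
    have e2 : (N + 1) ^ k ≤ 2 ^ (L * k) := by
      rw [pow_mul]
      exact Nat.pow_le_pow_left (by omega) _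
    have e3 : (2 * N + 2 * s0 + 2) ^ (2 * s0) + 2 ≤ 2 ^ (L * (2 * s0) + 1) := by
      have h1 : (2 * N + 2 * s0 + 2) ^ (2 * s0) ≤ 2 ^ (L * (2 * s0)) :=
        calc (2 * N + 2 * s0 + 2) ^ (2 * s0) ≤ (2 ^ L) ^ (2 * s0) :=
              Nat.pow_le_pow_left (by omega) _
          _ = 2 ^ (L * (2 * s0)) := by rw [← pow_mul]
      have h2 : 2 ≤ 2 ^ (L * (2 * s0)) := by
        calc 2 = 2 ^ 1 := (pow_one 2).symm
          _ ≤ _ := Nat.pow_le_pow_right (by norm_num)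
            (Nat.mul_pos hL1 (Nat.mul_pos two_pos hs1))
      rw [pow_succ]; omega
    have e4 : L * t + (L * k + m + (L * (2 * s0) + 1)) < κ * t := by
      have h3 : (L : ℝ) * k ≤ m := by
        have : L * k ≤ m := le_trans (Nat.mul_le_mul_left L (Nat.le_add_right k 2)) hLkm
        exact_mod_cast this
      have hL1' : (1 : ℝ) ≤ L := by exact_mod_cast hL1
      have hfin2 := params_real (n : ℝ) X Y ℓ L m a b t k κ s0 hXY hX0 hY0 hX hY hℓ2 hℓ16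
        hLup hL1' hL2 hmpos hmX haL ha50 hbm hb2000 hb_up ht_up ht_lo h3 hκ_lo hs_up hℓn
        (by linarith)
      exact_mod_cast hfin2
    calc (6 * t) ^ t * ((N + 1) ^ k * 2 ^ m * ((2 * N + 2 * s0 + 2) ^ (2 * s0) + 2))
        ≤ 2 ^ (L * t) * (2 ^ (L * k) * 2 ^ m * 2 ^ (L * (2 * s0) + 1)) := by gcongr
      _ = 2 ^ (L * t + (L * k + m + (L * (2 * s0) + 1))) := by
          rw [pow_add 2 (L * t), pow_add 2 (L * k + m), pow_add 2 (L * k)]
      _ < 2 ^ (κ * t) := Nat.pow_lt_pow_right one_lt_two e4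
  · -- the size inequality
    have hW : (2 : ℝ) ^ (q1 + q2 + 1) ≤ 2 * (n : ℝ) ^ (α + β) := by
      rw [pow_succ, pow_add, hq1, hq2, Real.rpow_add hnpos]
      have h1 := params_floor hn1 hα
      have h2 := params_floor hn1 hβ
      have h3 : (2 : ℝ) ^ ⌊α * Real.logb 2 n⌋₊ * 2 ^ ⌊β * Real.logb 2 n⌋₊ ≤
          (n : ℝ) ^ α * (n : ℝ) ^ β := mul_le_mul h1 h2 (by positivity) (by positivity)
      linarith
    have hD2 : (2 : ℝ) ^ d ≤ 2 * (n : ℝ) ^ (max (5 / 2 - 3 / 2 * γ - α - β - ε) 0) := by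
      rw [hd]; exact params_ceil hn1 _
    have hk1 : ((k : ℝ) + 1) ≤ X := by linarith
    have h1 : (9 : ℝ) * (2 ^ (q1 + q2 + 1) * 2 ^ d) ^ 2 * (k + 1) ^ 3 ≤
        9 * ((2 * (n : ℝ) ^ (α + β)) *
          (2 * (n : ℝ) ^ (max (5 / 2 - 3 / 2 * γ - α - β - ε) 0))) ^ 2 * X ^ 3 := by
      gcongr
    have h2 : 9 * ((2 * (n : ℝ) ^ (α + β)) *
          (2 * (n : ℝ) ^ (max (5 / 2 - 3 / 2 * γ - α - β - ε) 0))) ^ 2 * X ^ 3 =
        144 * (n : ℝ) ^ (2 * (α + β) + 2 * max (5 / 2 - 3 / 2 * γ - α - β - ε) 0 + 3 * γ) := by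
      have e1 : (n : ℝ) ^ (2 * (α + β) + 2 * max (5 / 2 - 3 / 2 * γ - α - β - ε) 0 + 3 * γ) =
          ((n : ℝ) ^ (α + β)) ^ 2 * ((n : ℝ) ^ (max (5 / 2 - 3 / 2 * γ - α - β - ε) 0)) ^ 2 *
            X ^ 3 := by
        rw [Real.rpow_add hnpos, Real.rpow_add hnpos, hXdef]
        congr 1
        · congr 1
          · rw [mul_comm, Real.rpow_mul hnpos.le, Real.rpow_two]
          · rw [mul_comm, Real.rpow_mul hnpos.le, Real.rpow_two]
        · rw [mul_comm, Real.rpow_mul hnpos.le]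
          exact_mod_cast Real.rpow_natCast _ 3
      rw [e1]; ring
    have h3 : 2 * (α + β) + 2 * max (5 / 2 - 3 / 2 * γ - α - β - ε) 0 + 3 * γ ≤ 5 - δ := by
      have h4 : δ ≤ 2 * ε := min_le_left _ _
      have h5 : δ ≤ 5 - 5 * γ := min_le_right _ _
      rcases le_total (5 / 2 - 3 / 2 * γ - α - β - ε) 0 with h | h
      · rw [max_eq_right h]; linarith
      · rw [max_eq_left h]; linarith
    have h4 : (n : ℝ) ^ (2 * (α + β) + 2 * max (5 / 2 - 3 / 2 * γ - α - β - ε) 0 + 3 * γ) ≤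
        (n : ℝ) ^ (5 - δ) := Real.rpow_le_rpow_of_exponent_le hn1' h3
    have h5 : (n : ℝ) ^ (5 - δ) * (n : ℝ) ^ δ = (n : ℝ) ^ 5 := by
      rw [← Real.rpow_add hnpos, sub_add_cancel]
      exact_mod_cast Real.rpow_natCast (n : ℝ) 5
    have h6 : (n : ℝ) ^ (5 - δ) * (5898240000 * ℓ ^ 4) ≤ (n : ℝ) ^ 5 := by
      rw [← h5]
      exact mul_le_mul_of_nonneg_left hD (by positivity)
    have h7 : ((n : ℝ) / (800 * ℓ ^ 2)) ^ 2 * ((n : ℝ) / 4) ^ 3 ≤ (s0 : ℝ) ^ 2 * (N + 1) ^ 3 := by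
      have h8 : (n : ℝ) / 4 ≤ N + 1 := by
        have : n ≤ 4 * (N + 1) := by omega
        have : (n : ℝ) ≤ 4 * (N + 1) := by exact_mod_cast this
        linarith
      gcongr
    have h9 : 144 * (n : ℝ) ^ (5 - δ) ≤ ((n : ℝ) / (800 * ℓ ^ 2)) ^ 2 * ((n : ℝ) / 4) ^ 3 := by
      have e2 : ((n : ℝ) / (800 * ℓ ^ 2)) ^ 2 * ((n : ℝ) / 4) ^ 3 =
          (n : ℝ) ^ 5 / (40960000 * ℓ ^ 4) := by
        field_simp
        ring
      rw [e2, le_div_iff₀ (by positivity)]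
      linarith
    have h10 : (9 : ℝ) * (2 ^ (q1 + q2 + 1) * 2 ^ d) ^ 2 * (k + 1) ^ 3 ≤
        (s0 : ℝ) ^ 2 * (N + 1) ^ 3 := by
      refine h1.trans ?_
      rw [h2]
      linarith
    exact_mod_cast h10
  · -- the last inequality
    intro K hK
    set W : ℕ := 2 ^ (q1 + q2 + 1) with hWdef
    have hW : (W : ℝ) ≤ 2 * (n : ℝ) ^ (α + β) := by
      rw [hWdef]; push_cast
      rw [pow_succ, pow_add, hq1, hq2, Real.rpow_add hnpos]
      have h1 := params_floor hn1 hα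
      have h2 := params_floor hn1 hβ
      have h3 : (2 : ℝ) ^ ⌊α * Real.logb 2 n⌋₊ * 2 ^ ⌊β * Real.logb 2 n⌋₊ ≤
          (n : ℝ) ^ α * (n : ℝ) ^ β := mul_le_mul h1 h2 (by positivity) (by positivity)
      linarith
    have hq12 : (q1 : ℝ) + q2 ≤ ℓ := by
      have h1 : (q1 : ℝ) ≤ α * ℓ := by rw [hq1]; exact Nat.floor_le (by positivity)
      have h2 : (q2 : ℝ) ≤ β * ℓ := by rw [hq2]; exact Nat.floor_le (by positivity)
      have h3 : (α + β) * ℓ ≤ 1 * ℓ := mul_le_mul_of_nonneg_right (by linarith) (by linarith)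
      linarith
    have hη1 : (1 : ℝ) ≤ (n : ℝ) ^ η := Real.one_le_rpow hn1' hη
    have hαβ1 : (1 : ℝ) ≤ (n : ℝ) ^ (α + β) := Real.one_le_rpow hn1' (by linarith)
    have h1 : ((q1 : ℝ) + q2 + 4 + K) ≤ 3 * ℓ * (n : ℝ) ^ η := by
      have e1 : (2 * ℓ) * 1 ≤ (2 * ℓ) * (n : ℝ) ^ η :=
        mul_le_mul_of_nonneg_left hη1 (by linarith)
      have e2 : 1 * (n : ℝ) ^ η ≤ ℓ * (n : ℝ) ^ η :=
        mul_le_mul_of_nonneg_right (by linarith) (by linarith)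
      have e3 : 3 * ℓ * (n : ℝ) ^ η = (2 * ℓ) * (n : ℝ) ^ η + ℓ * (n : ℝ) ^ η := by ring
      rw [e3]; linarith
    have h2 : ((q1 : ℝ) + q2 + 4 + K) * W ≤ (3 * ℓ * (n : ℝ) ^ η) * (2 * (n : ℝ) ^ (α + β)) :=
      mul_le_mul h1 hW (by positivity) (by positivity)
    set Z : ℝ := (n : ℝ) ^ (α + β + η) with hZ
    have hZ1 : 1 ≤ Z := Real.one_le_rpow hn1' (by linarith)
    have h3 : (n : ℝ) ^ (α + β) * (n : ℝ) ^ η = Z := by rw [hZ, Real.rpow_add hnpos (α + β) η]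
    have h4 : ((q1 : ℝ) + q2 + 4 + K) * W ≤ 6 * ℓ * Z := by
      refine h2.trans (le_of_eq ?_)
      rw [← h3]; ring
    have h5 : Z * (200 * ℓ ^ 2) ≤ X := by
      have : X = Z * (n : ℝ) ^ (γ - (α + β + η)) := by
        rw [hXdef, hZ, ← Real.rpow_add hnpos, add_sub_cancel]
      rw [this]
      exact mul_le_mul_of_nonneg_left hS (by linarith)
    have h6 : 50 * ℓ * Z ≤ a := by
      refine le_trans ?_ ha_lo
      rw [le_div_iff₀ (by positivity)]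
      refine le_trans (le_of_eq ?_) h5
      ring
    have h7 : (2 : ℝ) + ((q1 : ℝ) + q2 + 4 + K) * W < κ := by
      have e1 : 4 * 1 ≤ ℓ * Z := mul_le_mul hℓ4 hZ1 zero_le_one (by linarith)
      have e2 : 50 * ℓ * Z = 50 * (ℓ * Z) := by ring
      have e3 : 6 * ℓ * Z = 6 * (ℓ * Z) := by ring
      rw [e2] at h6
      rw [e3] at h4
      linarith
    have h8 : 2 + (q1 + q2 + 4 + K) * W < κ := by exact_mod_cast h7
    calc 4 * (8 * 2 ^ (q1 + q2 + 1)) ^ W * 2 ^ (K * W)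
        = 2 ^ (2 + (q1 + q2 + 4 + K) * W) := by
          have e1 : (8 : ℕ) * 2 ^ (q1 + q2 + 1) = 2 ^ (q1 + q2 + 4) := by
            rw [show q1 + q2 + 4 = (q1 + q2 + 1) + 3 by ring, pow_add _ _ 3]; ring
          rw [e1, ← pow_mul, add_mul, pow_add, pow_add]
          ring
      _ < 2 ^ κ := Nat.pow_lt_pow_right one_lt_two h8

end UnbTop
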