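import Pool.Agent.H.MP_027d00_lc.unb.Defs

/-!
# The top part of an unbalanced formula (job G)
-/

set_option autoImplicit false

namespace UnbTop

open Fm

/-- De Morgan negation of a formula. -/
def repNeg {V : Type} : Fm V → Fm V
  | .lit v b => .lit v (!b)
  | .cst b => .cst (!b)
  | .and F G => .or (repNeg F) (repNeg G)
  | .or F G => .and (repNeg F) (repNeg G)

theorem rep_neg_eval {V : Type} (z : V → Bool) (F : Fm V) :
    (repNeg F).eval z = !(F.eval z) := by
  induction F with
  | lit v b =>
    show (z v == !b) = !(z v == b)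
    cases z v <;> cases b <;> rfl
  | cst b => rfl
  | and F G hF hG => simp only [repNeg, eval, hF, hG, Bool.not_and]
  | or F G hF hG => simp only [repNeg, eval, hF, hG, Bool.not_or]

theorem rep_neg_size {V : Type} (F : Fm V) : (repNeg F).size = F.size := by
  induction F with
  | lit v b => rfl
  | cst b => rfl
  | and F G hF hG => simp only [repNeg, size, hF, hG]
  | or F G hF hG => simp only [repNeg, size, hF, hG]

theorem rep_size_le {V : Type} (F : Fm V) : F.size ≤ 2 ^ F.depth := by
  induction F with
  | lit v b => simp [size, depth]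
  | cst b => simp [size]
  | and F G hF hG =>
    have h1 : 2 ^ F.depth ≤ 2 ^ max F.depth G.depth :=
      Nat.pow_le_pow_right (by norm_num) (le_max_left _ _)
    have h2 : 2 ^ G.depth ≤ 2 ^ max F.depth G.depth :=
      Nat.pow_le_pow_right (by norm_num) (le_max_right _ _)
    simp only [size, depth, pow_succ]
    omega
  | or F G hF hG =>
    have h1 : 2 ^ F.depth ≤ 2 ^ max F.depth G.depth :=
      Nat.pow_le_pow_right (by norm_num) (le_max_left _ _)
    have h2 : 2 ^ G.depth ≤ 2 ^ max F.depth G.depth :=
      Nat.pow_le_pow_right (by norm_num) (le_max_right _ _)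
    simp only [size, depth, pow_succ]
    omega

theorem rep_size_le' {V : Type} (F : Fm V) (d : ℕ) (h : F.depth ≤ d) : F.size ≤ 2 ^ d :=
  (rep_size_le F).trans (Nat.pow_le_pow_right (by norm_num) h)

theorem rep_paths_ne {V : Type} (K : ℕ) (F : Fm V) : ∃ p, p ∈ F.paths K := by
  induction K generalizing F with
  | zero => exact ⟨(0, 0), by simp [paths]⟩
  | succ K ih =>
    cases F with
    | lit v b => exact ⟨(0, 0), by simp [paths]⟩
    | cst b => exact ⟨(0, 0), by simp [paths]⟩
    | and F G =>
      obtain ⟨p, hp⟩ := ih F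
      refine ⟨(p.1 + 1, p.2), ?_⟩
      simp only [paths, List.mem_map, List.mem_append]
      exact ⟨p, Or.inl hp, rfl⟩
    | or F G =>
      obtain ⟨p, hp⟩ := ih F
      refine ⟨(p.1, p.2 + 1), ?_⟩
      simp only [paths, List.mem_map, List.mem_append]
      exact ⟨p, Or.inl hp, rfl⟩

theorem rep_mem_and_left {V : Type} {K : ℕ} {F G : Fm V} {p : ℕ × ℕ} (hp : p ∈ F.paths K) :
    (p.1 + 1, p.2) ∈ (Fm.and F G).paths (K + 1) := by
  simp only [paths, List.mem_map, List.mem_append]
  exact ⟨p, Or.inl hp, rfl⟩

theorem rep_mem_and_right {V : Type} {K : ℕ} {F G : Fm V} {p : ℕ × ℕ} (hp : p ∈ G.paths K) :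
    (p.1 + 1, p.2) ∈ (Fm.and F G).paths (K + 1) := by
  simp only [paths, List.mem_map, List.mem_append]
  exact ⟨p, Or.inr hp, rfl⟩

theorem rep_mem_or_left {V : Type} {K : ℕ} {F G : Fm V} {p : ℕ × ℕ} (hp : p ∈ F.paths K) :
    (p.1, p.2 + 1) ∈ (Fm.or F G).paths (K + 1) := by
  simp only [paths, List.mem_map, List.mem_append]
  exact ⟨p, Or.inl hp, rfl⟩

theorem rep_mem_or_right {V : Type} {K : ℕ} {F G : Fm V} {p : ℕ × ℕ} (hp : p ∈ G.paths K) :
    (p.1, p.2 + 1) ∈ (Fm.or F G).paths (K + 1) := by
  simp only [paths, List.mem_map, List.mem_append]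
  exact ⟨p, Or.inr hp, rfl⟩

theorem rep_and_exists {V : Type} {K : ℕ} {F G : Fm V} {p : ℕ × ℕ}
    (hp : p ∈ (Fm.and F G).paths (K + 1)) :
    1 ≤ p.1 := by
  simp only [paths, List.mem_map, List.mem_append] at hp
  obtain ⟨q, _, rfl⟩ := hp
  exact Nat.succ_pos _

theorem rep_or_exists {V : Type} {K : ℕ} {F G : Fm V} {p : ℕ × ℕ}
    (hp : p ∈ (Fm.or F G).paths (K + 1)) :
    1 ≤ p.2 := by
  simp only [paths, List.mem_map, List.mem_append] at hp
  obtain ⟨q, _, rfl⟩ := hp
  exact Nat.succ_pos _

/-- all pairwise conjunctions -/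
def repProd {V : Type} (l1 l2 : List (Fm V)) : List (Fm V) :=
  (l1.product l2).map (fun p => Fm.and p.1 p.2)

theorem rep_prod_length {V : Type} (l1 l2 : List (Fm V)) :
    (repProd l1 l2).length = l1.length * l2.length := by
  rw [repProd, List.length_map]
  exact List.length_product l1 l2

theorem rep_prod_mem {V : Type} (l1 l2 : List (Fm V)) (e : Fm V) :
    e ∈ repProd l1 l2 ↔ ∃ a ∈ l1, ∃ b ∈ l2, Fm.and a b = e := by
  simp only [repProd, List.mem_map, Prod.exists]
  constructor
  · rintro ⟨a, b, h, rfl⟩
    rw [List.pair_mem_product] at h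
    exact ⟨a, h.1, b, h.2, rfl⟩
  · rintro ⟨a, ha, b, hb, rfl⟩
    exact ⟨a, b, List.pair_mem_product.mpr ⟨ha, hb⟩, rfl⟩

theorem rep_prod_any {V : Type} (l1 l2 : List (Fm V)) (z : V → Bool) :
    (repProd l1 l2).any (fun e => e.eval z) =
      (l1.any (fun e => e.eval z) && l2.any (fun e => e.eval z)) := by
  rw [Bool.eq_iff_iff, Bool.and_eq_true, List.any_eq_true, List.any_eq_true, List.any_eq_true]
  constructor
  · rintro ⟨e, he, hz⟩
    rw [rep_prod_mem] at he
    obtain ⟨a, ha, b, hb, rfl⟩ := he
    simp only [eval, Bool.and_eq_true] at hz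
    exact ⟨⟨a, ha, hz.1⟩, ⟨b, hb, hz.2⟩⟩
  · rintro ⟨⟨a, ha, hza⟩, ⟨b, hb, hzb⟩⟩
    refine ⟨Fm.and a b, (rep_prod_mem _ _ _).mpr ⟨a, ha, b, hb, rfl⟩, ?_⟩
    simp only [eval, Bool.and_eq_true]
    exact ⟨hza, hzb⟩

theorem rep_one_le (K i : ℕ) : 1 ≤ 2 ^ (K * 2 ^ i) := Nat.one_le_two_pow

theorem rep_pow_step (K w : ℕ) (hw : 1 ≤ w) : 2 * 2 ^ (K * w) ≤ 2 ^ ((K + 1) * w) := by
  rw [← pow_succ']
  apply Nat.pow_le_pow_right (by norm_num)
  nlinarith

theorem rep_pow_mono (K w : ℕ) : 2 ^ (K * w) ≤ 2 ^ ((K + 1) * w) := by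
  apply Nat.pow_le_pow_right (by norm_num)
  nlinarith

theorem rep_pow_sq (K i : ℕ) :
    2 ^ (K * 2 ^ i) * 2 ^ (K * 2 ^ i) ≤ 2 ^ ((K + 1) * 2 ^ (i + 1)) := by
  rw [← pow_add]
  apply Nat.pow_le_pow_right (by norm_num)
  rw [pow_succ]
  nlinarith [Nat.zero_le (2 ^ i)]

/-- If every cut path has at most `i` OR gates, the formula is a conjunction of few small
formulas. -/
theorem rep_andType {V : Type} (K d i : ℕ) (F : Fm V) (hd : F.depth ≤ K + d)
    (hp : ∀ p ∈ F.paths K, p.2 ≤ i) :
    ∃ l : List (Fm V), l.length ≤ 2 ^ (K * 2 ^ i) ∧ (∀ e ∈ l, e.size ≤ 2 ^ i * 2 ^ d) ∧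
      ∀ z, F.eval z = !(l.any (fun e => e.eval z)) := by
  induction K generalizing i F with
  | zero =>
    refine ⟨[repNeg F], by simp, ?_, ?_⟩
    · intro e he
      rw [List.mem_singleton] at he
      subst he
      rw [rep_neg_size]
      have h1 := rep_size_le' F d (by simpa using hd)
      have h2 : 1 * 2 ^ d ≤ 2 ^ i * 2 ^ d := Nat.mul_le_mul_right _ Nat.one_le_two_pow
      omega
    · intro z
      simp [rep_neg_eval]
  | succ K ih =>
    cases F with
    | lit v b =>
      refine ⟨[repNeg (lit v b)], ?_, ?_, ?_⟩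
      · simpa using rep_one_le (K + 1) i
      · intro e he
        rw [List.mem_singleton] at he
        subst he
        rw [rep_neg_size]
        have : 0 < 2 ^ i * 2 ^ d := by positivity
        show 1 ≤ 2 ^ i * 2 ^ d
        omega
      · intro z
        simp [rep_neg_eval]
    | cst b =>
      refine ⟨[repNeg (cst b)], ?_, ?_, ?_⟩
      · simpa using rep_one_le (K + 1) i
      · intro e he
        rw [List.mem_singleton] at he
        subst he
        rw [rep_neg_size]
        simp [size]
      · intro z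
        simp [rep_neg_eval]
    | and F G =>
      have hd' : max F.depth G.depth + 1 ≤ K + 1 + d := hd
      obtain ⟨l1, h11, h12, h13⟩ := ih i F (by have := le_max_left F.depth G.depth; omega)
        (fun p hp' => by have := hp _ (rep_mem_and_left hp'); simpa using this)
      obtain ⟨l2, h21, h22, h23⟩ := ih i G (by have := le_max_right F.depth G.depth; omega)
        (fun p hp' => by have := hp _ (rep_mem_and_right hp'); simpa using this)
      refine ⟨l1 ++ l2, ?_, ?_, ?_⟩
      · rw [List.length_append]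
        have := rep_pow_step K (2 ^ i) Nat.one_le_two_pow
        omega
      · intro e he
        rw [List.mem_append] at he
        rcases he with he | he
        · exact h12 e he
        · exact h22 e he
      · intro z
        simp only [eval, h13 z, h23 z, List.any_append, Bool.not_or]
    | or F G =>
      have hd' : max F.depth G.depth + 1 ≤ K + 1 + d := hd
      obtain ⟨p0, hp0⟩ := rep_paths_ne (K + 1) (Fm.or F G)
      have hi : 1 ≤ i := (rep_or_exists hp0).trans (hp p0 hp0)
      obtain ⟨i, rfl⟩ : ∃ i', i = i' + 1 := ⟨i - 1, by omega⟩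
      obtain ⟨l1, h11, h12, h13⟩ := ih i F (by have := le_max_left F.depth G.depth; omega)
        (fun p hp' => by have := hp _ (rep_mem_or_left hp'); simpa using this)
      obtain ⟨l2, h21, h22, h23⟩ := ih i G (by have := le_max_right F.depth G.depth; omega)
        (fun p hp' => by have := hp _ (rep_mem_or_right hp'); simpa using this)
      refine ⟨repProd l1 l2, ?_, ?_, ?_⟩
      · rw [rep_prod_length]
        exact (Nat.mul_le_mul h11 h21).trans (rep_pow_sq K i)
      · intro e he
        rw [rep_prod_mem] at he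
        obtain ⟨a, ha, b, hb, rfl⟩ := he
        have h1 := h12 a ha
        have h2 := h22 b hb
        show a.size + b.size ≤ 2 ^ (i + 1) * 2 ^ d
        rw [pow_succ]
        nlinarith
      · intro z
        rw [rep_prod_any]
        simp only [eval, h13 z, h23 z, Bool.not_and]

/-- If every cut path has at most `j` AND gates, the formula is a disjunction of few small
formulas. -/
theorem rep_orType {V : Type} (K d j : ℕ) (F : Fm V) (hd : F.depth ≤ K + d)
    (hp : ∀ p ∈ F.paths K, p.1 ≤ j) :
    ∃ l : List (Fm V), l.length ≤ 2 ^ (K * 2 ^ j) ∧ (∀ e ∈ l, e.size ≤ 2 ^ j * 2 ^ d) ∧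
      ∀ z, F.eval z = l.any (fun e => e.eval z) := by
  induction K generalizing j F with
  | zero =>
    refine ⟨[F], by simp, ?_, ?_⟩
    · intro e he
      rw [List.mem_singleton] at he
      subst he
      have h1 := rep_size_le' e d (by simpa using hd)
      have h2 : 1 * 2 ^ d ≤ 2 ^ j * 2 ^ d := Nat.mul_le_mul_right _ Nat.one_le_two_pow
      omega
    · intro z
      simp
  | succ K ih =>
    cases F with
    | lit v b =>
      refine ⟨[lit v b], ?_, ?_, ?_⟩
      · simpa using rep_one_le (K + 1) j
      · intro e he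
        rw [List.mem_singleton] at he
        subst he
        have : 0 < 2 ^ j * 2 ^ d := by positivity
        show 1 ≤ 2 ^ j * 2 ^ d
        omega
      · intro z
        simp
    | cst b =>
      refine ⟨[cst b], ?_, ?_, ?_⟩
      · simpa using rep_one_le (K + 1) j
      · intro e he
        rw [List.mem_singleton] at he
        subst he
        simp [size]
      · intro z
        simp
    | or F G =>
      have hd' : max F.depth G.depth + 1 ≤ K + 1 + d := hd
      obtain ⟨l1, h11, h12, h13⟩ := ih j F (by have := le_max_left F.depth G.depth; omega)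
        (fun p hp' => by have := hp _ (rep_mem_or_left hp'); simpa using this)
      obtain ⟨l2, h21, h22, h23⟩ := ih j G (by have := le_max_right F.depth G.depth; omega)
        (fun p hp' => by have := hp _ (rep_mem_or_right hp'); simpa using this)
      refine ⟨l1 ++ l2, ?_, ?_, ?_⟩
      · rw [List.length_append]
        have := rep_pow_step K (2 ^ j) Nat.one_le_two_pow
        omega
      · intro e he
        rw [List.mem_append] at he
        rcases he with he | he
        · exact h12 e he
        · exact h22 e he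
      · intro z
        simp only [eval, h13 z, h23 z, List.any_append]
    | and F G =>
      have hd' : max F.depth G.depth + 1 ≤ K + 1 + d := hd
      obtain ⟨p0, hp0⟩ := rep_paths_ne (K + 1) (Fm.and F G)
      have hj : 1 ≤ j := (rep_and_exists hp0).trans (hp p0 hp0)
      obtain ⟨j, rfl⟩ : ∃ j', j = j' + 1 := ⟨j - 1, by omega⟩
      obtain ⟨l1, h11, h12, h13⟩ := ih j F (by have := le_max_left F.depth G.depth; omega)
        (fun p hp' => by have := hp _ (rep_mem_and_left hp'); simpa using this)
      obtain ⟨l2, h21, h22, h23⟩ := ih j G (by have := le_max_right F.depth G.depth; omega)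
        (fun p hp' => by have := hp _ (rep_mem_and_right hp'); simpa using this)
      refine ⟨repProd l1 l2, ?_, ?_, ?_⟩
      · rw [rep_prod_length]
        exact (Nat.mul_le_mul h11 h21).trans (rep_pow_sq K j)
      · intro e he
        rw [rep_prod_mem] at he
        obtain ⟨a, ha, b, hb, rfl⟩ := he
        have h1 := h12 a ha
        have h2 := h22 b hb
        show a.size + b.size ≤ 2 ^ (j + 1) * 2 ^ d
        rw [pow_succ]
        nlinarith
      · intro z
        rw [rep_prod_any]
        simp only [eval, h13 z, h23 z]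

/-- List version of `HasRep`. -/
def RepL {V : Type} (s K W : ℕ) (f : (V → Bool) → Bool) : Prop :=
  ∃ (L : List (ℕ × List (Fm V))) (G : List Bool → Bool),
    (∀ v ∈ L, 1 ≤ v.1 ∧ v.2.length ≤ 2 ^ (K * v.1) ∧ ∀ e ∈ v.2, e.size ≤ v.1 * s) ∧
    (L.map Prod.fst).sum ≤ W ∧
    ∀ z, f z = G (L.map (fun v => v.2.any (fun e => e.eval z)))

theorem rep_single {V : Type} (s K W w : ℕ) (f : (V → Bool) → Bool) (hw : 1 ≤ w) (hwW : w ≤ W)
    (l : List (Fm V)) (hl : l.length ≤ 2 ^ (K * w)) (hs : ∀ e ∈ l, e.size ≤ w * s)
    (g : Bool → Bool) (hf : ∀ z, f z = g (l.any (fun e => e.eval z))) :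
    RepL s K W f := by
  refine ⟨[(w, l)], fun bs => g (bs.headD false), ?_, ?_, ?_⟩
  · intro v hv
    rw [List.mem_singleton] at hv
    subst hv
    exact ⟨hw, hl, hs⟩
  · simpa using hwW
  · intro z
    simpa using hf z

theorem rep_combine {V : Type} (s K W1 W2 W : ℕ) (f1 f2 f : (V → Bool) → Bool)
    (hW : W1 + W2 ≤ W) (h1 : RepL s K W1 f1) (h2 : RepL s K W2 f2)
    (g : Bool → Bool → Bool) (hf : ∀ z, f z = g (f1 z) (f2 z)) :
    RepL s (K + 1) W f := by
  obtain ⟨L1, G1, h11, h12, h13⟩ := h1
  obtain ⟨L2, G2, h21, h22, h23⟩ := h2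
  refine ⟨L1 ++ L2, fun bs => g (G1 (bs.take L1.length)) (G2 (bs.drop L1.length)), ?_, ?_, ?_⟩
  · intro v hv
    rw [List.mem_append] at hv
    rcases hv with hv | hv
    · exact ⟨(h11 v hv).1, (h11 v hv).2.1.trans (rep_pow_mono _ _), (h11 v hv).2.2⟩
    · exact ⟨(h21 v hv).1, (h21 v hv).2.1.trans (rep_pow_mono _ _), (h21 v hv).2.2⟩
  · rw [List.map_append, List.sum_append]
    omega
  · intro z
    rw [hf z, h13 z, h23 z, List.map_append]
    have e1 : (List.map (fun v : ℕ × List (Fm V) => v.2.any (fun e => e.eval z)) L1 ++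
        List.map (fun v : ℕ × List (Fm V) => v.2.any (fun e => e.eval z)) L2).take L1.length =
        List.map (fun v : ℕ × List (Fm V) => v.2.any (fun e => e.eval z)) L1 := by
      rw [List.take_append_of_le_length (by simp)]
      exact List.take_of_length_le (by simp)
    have e2 : (List.map (fun v : ℕ × List (Fm V) => v.2.any (fun e => e.eval z)) L1 ++
        List.map (fun v : ℕ × List (Fm V) => v.2.any (fun e => e.eval z)) L2).drop L1.length =
        List.map (fun v : ℕ × List (Fm V) => v.2.any (fun e => e.eval z)) L2 := by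
      have : L1.length =
        (List.map (fun v : ℕ × List (Fm V) => v.2.any (fun e => e.eval z)) L1).length := by simp
      rw [this, List.drop_left]
    show _ = g (G1 (List.take L1.length _)) (G2 (List.drop L1.length _))
    rw [e1, e2]

theorem repL_main {V : Type} (K q1 q2 d : ℕ) (F : Fm V) (hd : F.depth ≤ K + d)
    (hp : ∀ p ∈ F.paths K, p.2 ≤ q1 ∨ p.1 ≤ q2) :
    RepL (2 ^ d) K (2 ^ (q1 + q2 + 1)) F.eval := by
  induction K generalizing q1 q2 F with
  | zero =>
    refine rep_single _ _ _ 1 _ le_rfl Nat.one_le_two_pow [F] (by simp) ?_ id (by simp)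
    intro e he
    rw [List.mem_singleton] at he
    subst he
    rw [one_mul]
    exact rep_size_le' e d (by simpa using hd)
  | succ K ih =>
    cases F with
    | lit v b =>
      refine rep_single _ _ _ 1 _ le_rfl Nat.one_le_two_pow [lit v b] ?_ ?_ id (by simp)
      · simpa using (Nat.one_le_two_pow : 1 ≤ 2 ^ (K + 1))
      · intro e he
        rw [List.mem_singleton] at he
        subst he
        simpa [size] using (Nat.one_le_two_pow : 1 ≤ 2 ^ d)
    | cst b =>
      refine rep_single _ _ _ 1 _ le_rfl Nat.one_le_two_pow [cst b] ?_ ?_ id (by simp)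
      · simpa using (Nat.one_le_two_pow : 1 ≤ 2 ^ (K + 1))
      · intro e he
        rw [List.mem_singleton] at he
        subst he
        simp [size]
    | and F G =>
      have hd' : max F.depth G.depth + 1 ≤ K + 1 + d := hd
      have hdF : F.depth ≤ K + d := by have := le_max_left F.depth G.depth; omega
      have hdG : G.depth ≤ K + d := by have := le_max_right F.depth G.depth; omega
      rcases Nat.eq_zero_or_pos q2 with rfl | hq2
      · obtain ⟨l, hl1, hl2, hl3⟩ := rep_andType (K + 1) d q1 (Fm.and F G) hd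
          (fun p hp' => by
            rcases hp p hp' with h | h
            · exact h
            · have := rep_and_exists hp'
              omega)
        refine rep_single _ _ _ (2 ^ q1) _ Nat.one_le_two_pow ?_ l hl1 hl2 Bool.not hl3
        exact Nat.pow_le_pow_right (by norm_num) (by omega)
      · obtain ⟨q2, rfl⟩ : ∃ q', q2 = q' + 1 := ⟨q2 - 1, by omega⟩
        have r1 := ih q1 q2 F hdF (fun p hp' => by
          have := hp _ (rep_mem_and_left hp')
          simpa using this)
        have r2 := ih q1 q2 G hdG (fun p hp' => by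
          have := hp _ (rep_mem_and_right hp')
          simpa using this)
        refine rep_combine _ _ _ _ _ _ _ _ ?_ r1 r2 Bool.and (fun z => rfl)
        have : q1 + (q2 + 1) + 1 = (q1 + q2 + 1) + 1 := by omega
        rw [this, pow_succ 2 (q1 + q2 + 1)]
        omega
    | or F G =>
      have hd' : max F.depth G.depth + 1 ≤ K + 1 + d := hd
      have hdF : F.depth ≤ K + d := by have := le_max_left F.depth G.depth; omega
      have hdG : G.depth ≤ K + d := by have := le_max_right F.depth G.depth; omega
      rcases Nat.eq_zero_or_pos q1 with rfl | hq1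
      · obtain ⟨l, hl1, hl2, hl3⟩ := rep_orType (K + 1) d q2 (Fm.or F G) hd
          (fun p hp' => by
            rcases hp p hp' with h | h
            · have := rep_or_exists hp'
              omega
            · exact h)
        refine rep_single _ _ _ (2 ^ q2) _ Nat.one_le_two_pow ?_ l hl1 hl2 id hl3
        exact Nat.pow_le_pow_right (by norm_num) (by omega)
      · obtain ⟨q1, rfl⟩ : ∃ q', q1 = q' + 1 := ⟨q1 - 1, by omega⟩
        have r1 := ih q1 q2 F hdF (fun p hp' => by
          have := hp _ (rep_mem_or_left hp')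
          simpa using this)
        have r2 := ih q1 q2 G hdG (fun p hp' => by
          have := hp _ (rep_mem_or_right hp')
          simpa using this)
        refine rep_combine _ _ _ _ _ _ _ _ ?_ r1 r2 Bool.or (fun z => rfl)
        have : q1 + 1 + q2 + 1 = (q1 + q2 + 1) + 1 := by omega
        rw [this, pow_succ 2 (q1 + q2 + 1)]
        omega

/-- `f` is an arbitrary function `G` of `r` ORs, the `v`-th OR being over `M v ≤ 2^(K w_v)`
formulas of size at most `w_v s`, where `∑ w_v ≤ W`. -/
def HasRep {V : Type} (s K W : ℕ) (f : (V → Bool) → Bool) : Prop :=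
  ∃ (r : ℕ) (w M : Fin r → ℕ) (e : (v : Fin r) → Fin (M v) → Fm V)
    (G : (Fin r → Bool) → Bool),
    (∀ v, 1 ≤ w v) ∧ (∑ v, w v ≤ W) ∧ (∀ v, M v ≤ 2 ^ (K * w v)) ∧
    (∀ v σ, (e v σ).size ≤ w v * s) ∧
    ∀ z, f z = G (fun v => decide (∃ σ, (e v σ).eval z = true))

theorem rep_transfer {V : Type} (s K W : ℕ) (f : (V → Bool) → Bool) (h : RepL s K W f) :
    HasRep s K W f := by
  obtain ⟨L, G, h1, h2, h3⟩ := h
  refine ⟨L.length, fun v => (L.get v).1, fun v => (L.get v).2.length,
    fun v σ => (L.get v).2.get σ, fun u => G (List.ofFn u), ?_, ?_, ?_, ?_, ?_⟩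
  · intro v
    exact (h1 _ (List.get_mem L v)).1
  · have : ∑ v : Fin L.length, (L.get v).1 = (L.map Prod.fst).sum := by
      rw [← List.sum_ofFn]
      congr 1
      apply List.ext_get
      · simp
      · intro n h1 h2
        simp
    rw [this]
    exact h2
  · intro v
    exact (h1 _ (List.get_mem L v)).2.1
  · intro v σ
    exact (h1 _ (List.get_mem L v)).2.2 _ (List.get_mem _ σ)
  · intro z
    rw [h3 z]
    congr 1
    apply List.ext_get
    · simp
    · intro n h1 h2
      have hn : n < L.length := by simpa using h1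
      simp only [List.get_eq_getElem, List.getElem_map, List.getElem_ofFn]
      rw [Bool.eq_iff_iff, List.any_eq_true, decide_eq_true_iff]
      constructor
      · rintro ⟨e, he, hz⟩
        obtain ⟨i, hi⟩ := List.mem_iff_get.mp he
        refine ⟨i, ?_⟩
        rw [List.get_eq_getElem] at hi
        rw [hi]
        exact hz
      · rintro ⟨i, hz⟩
        exact ⟨_, List.getElem_mem _, hz⟩

theorem hasRep_of_paths {V : Type} (K q1 q2 d : ℕ) (F : Fm V) (hd : F.depth ≤ K + d)
    (hp : ∀ p ∈ F.paths K, p.2 ≤ q1 ∨ p.1 ≤ q2) :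
    HasRep (2 ^ d) K (2 ^ (q1 + q2 + 1)) F.eval :=
  rep_transfer _ _ _ _ (repL_main K q1 q2 d F hd hp)

end UnbTop
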