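import Pool.Agent.H.MP_027d00_lc.unb.Defs

/-!
# One step of Subbotovskaya shrinkage (job A)
-/

set_option autoImplicit false

namespace UnbTop

open Fm

variable {V : Type} [DecidableEq V]

/-- number of leaves with variable `x` -/
def shrinkOcc (x : V) : Fm V → ℕ
  | lit v _ => if v = x then 1 else 0
  | cst _ => 0
  | Fm.and F G => shrinkOcc x F + shrinkOcc x G
  | Fm.or F G => shrinkOcc x F + shrinkOcc x G

/-- constant-free formulas without the simplest redundancies -/
def ShrinkGood : Fm V → Prop
  | lit _ _ => True
  | cst _ => False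
  | Fm.and F G => ShrinkGood F ∧ ShrinkGood G ∧ (∀ x c, F = lit x c → shrinkOcc x G = 0) ∧
      (∀ x c, G = lit x c → shrinkOcc x F = 0)
  | Fm.or F G => ShrinkGood F ∧ ShrinkGood G ∧ (∀ x c, F = lit x c → shrinkOcc x G = 0) ∧
      (∀ x c, G = lit x c → shrinkOcc x F = 0)

/-- substitute a constant for a variable -/
def shrinkSubst (x : V) (b : Bool) : Fm V → Fm V
  | lit v c => if v = x then cst (b == c) else lit v c
  | cst c => cst c
  | Fm.and F G => Fm.and (shrinkSubst x b F) (shrinkSubst x b G)
  | Fm.or F G => Fm.or (shrinkSubst x b F) (shrinkSubst x b G)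

theorem shrinkSubst_eval (x : V) (b : Bool) (F : Fm V) (z : V → Bool) :
    (shrinkSubst x b F).eval z = F.eval (Function.update z x b) := by
  induction F with
  | lit v c =>
    by_cases h : v = x
    · subst h; simp [shrinkSubst, Fm.eval]
    · simp [shrinkSubst, Fm.eval, h]
  | cst c => simp [shrinkSubst, Fm.eval]
  | and F G hF hG => simp [shrinkSubst, Fm.eval, hF, hG]
  | or F G hF hG => simp [shrinkSubst, Fm.eval, hF, hG]

theorem shrinkSubst_size (x : V) (b : Bool) (F : Fm V) :
    (shrinkSubst x b F).size + shrinkOcc x F = F.size := by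
  induction F with
  | lit v c =>
    by_cases h : v = x <;> simp [shrinkSubst, shrinkOcc, Fm.size, h]
  | cst c => simp [shrinkSubst, shrinkOcc, Fm.size]
  | and F G hF hG => simp only [shrinkSubst, shrinkOcc, Fm.size]; omega
  | or F G hF hG => simp only [shrinkSubst, shrinkOcc, Fm.size]; omega

theorem shrinkSubst_varsIn (U : Finset V) (x : V) (b : Bool) (F : Fm V) (hF : F.VarsIn U) :
    (shrinkSubst x b F).VarsIn U := by
  induction F with
  | lit v c =>
    by_cases h : v = x
    · simp [shrinkSubst, Fm.VarsIn, h]
    · simpa [shrinkSubst, Fm.VarsIn, h] using hF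
  | cst c => simp [shrinkSubst, Fm.VarsIn]
  | and F G hF' hG' =>
    simp only [Fm.VarsIn] at hF
    simp only [shrinkSubst, Fm.VarsIn]
    exact ⟨hF' hF.1, hG' hF.2⟩
  | or F G hF' hG' =>
    simp only [Fm.VarsIn] at hF
    simp only [shrinkSubst, Fm.VarsIn]
    exact ⟨hF' hF.1, hG' hF.2⟩

theorem shrinkGood_size (F : Fm V) (hF : ShrinkGood F) : 1 ≤ F.size := by
  induction F with
  | lit v c => simp [Fm.size]
  | cst c => simp [ShrinkGood] at hF
  | and F G hF' hG' =>
    simp only [ShrinkGood] at hF
    have := hF' hF.1
    simp only [Fm.size]; omega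
  | or F G hF' hG' =>
    simp only [ShrinkGood] at hF
    have := hF' hF.1
    simp only [Fm.size]; omega

/-- simplification -/
theorem shrink_good (U : Finset V) (n : ℕ) : ∀ F : Fm V, F.VarsIn U → F.size ≤ n →
    ∃ F' : Fm V, (ShrinkGood F' ∨ ∃ b, F' = cst b) ∧ F'.VarsIn U ∧ (∀ z, F'.eval z = F.eval z) ∧
      F'.size ≤ F.size := by
  induction n using Nat.strong_induction_on with
  | _ n IH =>
  intro F
  induction F with
  | lit v c =>
    intro hU hn
    exact ⟨lit v c, Or.inl (by simp [ShrinkGood]), hU, fun z => rfl, le_rfl⟩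
  | cst c =>
    intro hU hn
    exact ⟨cst c, Or.inr ⟨c, rfl⟩, hU, fun z => rfl, le_rfl⟩
  | and F G hF hG =>
    intro hU hn
    simp only [Fm.VarsIn] at hU
    simp only [Fm.size] at hn
    obtain ⟨F', hF1, hF2, hF3, hF4⟩ := hF hU.1 (by omega)
    obtain ⟨G', hG1, hG2, hG3, hG4⟩ := hG hU.2 (by omega)
    rcases hF1 with hF1 | ⟨b, rfl⟩
    · rcases hG1 with hG1 | ⟨b, rfl⟩
      · by_cases hr1 : ∃ x c, F' = lit x c ∧ shrinkOcc x G' ≠ 0
        · obtain ⟨x, c, rfl, hx⟩ := hr1
          have hs := shrinkSubst_size x c G'
          simp only [Fm.size] at hF4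
          obtain ⟨H, hH1, hH2, hH3, hH4⟩ := IH (1 + (shrinkSubst x c G').size) (by omega)
            (Fm.and (lit x c) (shrinkSubst x c G'))
            ⟨hF2, shrinkSubst_varsIn U x c G' hG2⟩ (by simp [Fm.size])
          refine ⟨H, hH1, hH2, fun z => ?_, ?_⟩
          · rw [hH3 z]
            simp only [Fm.eval]
            rw [← hF3 z, ← hG3 z, shrinkSubst_eval]
            simp only [Fm.eval]
            by_cases hz : z x = c
            · rw [← hz, Function.update_eq_self]
            · have : (z x == c) = false := by simpa using hz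
              rw [this]; simp
          · simp only [Fm.size] at hH4 ⊢
            omega
        · by_cases hr2 : ∃ x c, G' = lit x c ∧ shrinkOcc x F' ≠ 0
          · obtain ⟨x, c, rfl, hx⟩ := hr2
            have hs := shrinkSubst_size x c F'
            simp only [Fm.size] at hG4
            obtain ⟨H, hH1, hH2, hH3, hH4⟩ := IH ((shrinkSubst x c F').size + 1) (by omega)
              (Fm.and (shrinkSubst x c F') (lit x c))
              ⟨shrinkSubst_varsIn U x c F' hF2, hG2⟩ (by simp [Fm.size])
            refine ⟨H, hH1, hH2, fun z => ?_, ?_⟩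
            · rw [hH3 z]
              simp only [Fm.eval]
              rw [← hF3 z, ← hG3 z, shrinkSubst_eval]
              simp only [Fm.eval]
              by_cases hz : z x = c
              · rw [← hz, Function.update_eq_self]
              · have : (z x == c) = false := by simpa using hz
                rw [this]; simp
            · simp only [Fm.size] at hH4 ⊢
              omega
          · refine ⟨Fm.and F' G', Or.inl ⟨hF1, hG1, ?_, ?_⟩, ⟨hF2, hG2⟩, fun z => ?_, ?_⟩
            · intro x c h
              by_contra hx
              exact hr1 ⟨x, c, h, hx⟩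
            · intro x c h
              by_contra hx
              exact hr2 ⟨x, c, h, hx⟩
            · simp only [Fm.eval]; rw [hF3, hG3]
            · simp only [Fm.size]; omega
      · cases b with
        | true =>
          refine ⟨F', Or.inl hF1, hF2, fun z => ?_, ?_⟩
          · have := hG3 z
            simp only [Fm.eval] at this
            simp only [Fm.eval]; rw [hF3, ← this]; simp
          · simp only [Fm.size]; omega
        | false =>
          refine ⟨cst false, Or.inr ⟨_, rfl⟩, trivial, fun z => ?_, ?_⟩
          · have := hG3 z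
            simp only [Fm.eval] at this
            simp only [Fm.eval]; rw [← this]; simp
          · simp [Fm.size]
    · cases b with
      | true =>
        refine ⟨G', hG1, hG2, fun z => ?_, ?_⟩
        · have := hF3 z
          simp only [Fm.eval] at this
          simp only [Fm.eval]; rw [hG3, ← this]; simp
        · simp only [Fm.size]; omega
      | false =>
        refine ⟨cst false, Or.inr ⟨_, rfl⟩, trivial, fun z => ?_, ?_⟩
        · have := hF3 z
          simp only [Fm.eval] at this
          simp only [Fm.eval]; rw [← this]; simp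
        · simp [Fm.size]
  | or F G hF hG =>
    intro hU hn
    simp only [Fm.VarsIn] at hU
    simp only [Fm.size] at hn
    obtain ⟨F', hF1, hF2, hF3, hF4⟩ := hF hU.1 (by omega)
    obtain ⟨G', hG1, hG2, hG3, hG4⟩ := hG hU.2 (by omega)
    rcases hF1 with hF1 | ⟨b, rfl⟩
    · rcases hG1 with hG1 | ⟨b, rfl⟩
      · by_cases hr1 : ∃ x c, F' = lit x c ∧ shrinkOcc x G' ≠ 0
        · obtain ⟨x, c, rfl, hx⟩ := hr1
          have hs := shrinkSubst_size x (!c) G'
          simp only [Fm.size] at hF4
          obtain ⟨H, hH1, hH2, hH3, hH4⟩ := IH (1 + (shrinkSubst x (!c) G').size) (by omega)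
            (Fm.or (lit x c) (shrinkSubst x (!c) G'))
            ⟨hF2, shrinkSubst_varsIn U x (!c) G' hG2⟩ (by simp [Fm.size])
          refine ⟨H, hH1, hH2, fun z => ?_, ?_⟩
          · rw [hH3 z]
            simp only [Fm.eval]
            rw [← hF3 z, ← hG3 z, shrinkSubst_eval]
            simp only [Fm.eval]
            by_cases hz : z x = c
            · have : (z x == c) = true := by simpa using hz
              rw [this]; simp
            · have hz' : z x = !c := by
                cases h1 : z x <;> cases h2 : c <;> simp_all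
              rw [← hz', Function.update_eq_self]
          · simp only [Fm.size] at hH4 ⊢
            omega
        · by_cases hr2 : ∃ x c, G' = lit x c ∧ shrinkOcc x F' ≠ 0
          · obtain ⟨x, c, rfl, hx⟩ := hr2
            have hs := shrinkSubst_size x (!c) F'
            simp only [Fm.size] at hG4
            obtain ⟨H, hH1, hH2, hH3, hH4⟩ := IH ((shrinkSubst x (!c) F').size + 1) (by omega)
              (Fm.or (shrinkSubst x (!c) F') (lit x c))
              ⟨shrinkSubst_varsIn U x (!c) F' hF2, hG2⟩ (by simp [Fm.size])
            refine ⟨H, hH1, hH2, fun z => ?_, ?_⟩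
            · rw [hH3 z]
              simp only [Fm.eval]
              rw [← hF3 z, ← hG3 z, shrinkSubst_eval]
              simp only [Fm.eval]
              by_cases hz : z x = c
              · have : (z x == c) = true := by simpa using hz
                rw [this]; simp
              · have hz' : z x = !c := by
                  cases h1 : z x <;> cases h2 : c <;> simp_all
                rw [← hz', Function.update_eq_self]
            · simp only [Fm.size] at hH4 ⊢
              omega
          · refine ⟨Fm.or F' G', Or.inl ⟨hF1, hG1, ?_, ?_⟩, ⟨hF2, hG2⟩, fun z => ?_, ?_⟩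
            · intro x c h
              by_contra hx
              exact hr1 ⟨x, c, h, hx⟩
            · intro x c h
              by_contra hx
              exact hr2 ⟨x, c, h, hx⟩
            · simp only [Fm.eval]; rw [hF3, hG3]
            · simp only [Fm.size]; omega
      · cases b with
        | false =>
          refine ⟨F', Or.inl hF1, hF2, fun z => ?_, ?_⟩
          · have := hG3 z
            simp only [Fm.eval] at this
            simp only [Fm.eval]; rw [hF3, ← this]; simp
          · simp only [Fm.size]; omega
        | true =>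
          refine ⟨cst true, Or.inr ⟨_, rfl⟩, trivial, fun z => ?_, ?_⟩
          · have := hG3 z
            simp only [Fm.eval] at this
            simp only [Fm.eval]; rw [← this]; simp
          · simp [Fm.size]
    · cases b with
      | false =>
        refine ⟨G', hG1, hG2, fun z => ?_, ?_⟩
        · have := hF3 z
          simp only [Fm.eval] at this
          simp only [Fm.eval]; rw [hG3, ← this]; simp
        · simp only [Fm.size]; omega
      | true =>
        refine ⟨cst true, Or.inr ⟨_, rfl⟩, trivial, fun z => ?_, ?_⟩
        · have := hF3 z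
          simp only [Fm.eval] at this
          simp only [Fm.eval]; rw [← this]; simp
        · simp [Fm.size]

/-- restriction of a good formula -/
theorem shrink_restrict (U : Finset V) (x : V) (F : Fm V) (hF : ShrinkGood F) (hU : F.VarsIn U)
    (hx : ∀ c, F ≠ lit x c) : ∃ G : Bool → Fm V,
      (∀ b z, (G b).eval z = F.eval (Function.update z x b)) ∧
      (∀ b, (G b).VarsIn (U.erase x)) ∧
      (∀ b, (G b).size + shrinkOcc x F ≤ F.size) ∧
      (G true).size + (G false).size + 3 * shrinkOcc x F ≤ 2 * F.size := by
  induction F with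
  | lit v c =>
    have hv : v ≠ x := fun h => hx c (by rw [h])
    refine ⟨fun _ => lit v c, fun b z => ?_, fun b => ?_, fun b => ?_, ?_⟩
    · simp [Fm.eval, hv]
    · simp only [Fm.VarsIn] at hU ⊢
      exact Finset.mem_erase.2 ⟨hv, hU⟩
    · simp [shrinkOcc, hv]
    · simp [shrinkOcc, hv, Fm.size]
  | cst c => simp [ShrinkGood] at hF
  | and F1 F2 h1 h2 =>
    simp only [ShrinkGood] at hF
    simp only [Fm.VarsIn] at hU
    by_cases hl1 : ∃ c, F1 = lit x c
    · obtain ⟨c, rfl⟩ := hl1
      have hocc := hF.2.2.1 x c rfl
      obtain ⟨G, hG1, hG2, hG3, hG4⟩ := h2 hF.2.1 hU.2 (by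
        intro c' h'
        rw [h'] at hocc
        simp [shrinkOcc] at hocc)
      have hs := shrinkGood_size F2 hF.2.1
      refine ⟨fun b => if b = c then G b else cst false, fun b z => ?_, fun b => ?_, fun b => ?_, ?_⟩
      · by_cases hb : b = c
        · simp [Fm.eval, hb, hG1]
        · simp [Fm.eval, hb]
      · by_cases hb : b = c
        · simp only [hb, if_true]; exact hG2 c
        · simp [hb, Fm.VarsIn]
      · have := hG3 b
        by_cases hb : b = c
        · subst hb
          simp only [if_true, Fm.size, shrinkOcc]; omega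
        · simp only [hb, if_false, Fm.size, shrinkOcc, if_true]; omega
      · have h3 := hG3 true
        have h4 := hG3 false
        cases c
        · simp only [Fm.size, shrinkOcc, if_true, Bool.true_eq_false, if_false]; omega
        · simp only [Fm.size, shrinkOcc, if_true, Bool.false_eq_true, if_false]; omega
    · by_cases hl2 : ∃ c, F2 = lit x c
      · obtain ⟨c, rfl⟩ := hl2
        have hocc := hF.2.2.2 x c rfl
        obtain ⟨G, hG1, hG2, hG3, hG4⟩ := h1 hF.1 hU.1 (by
          intro c' h'
          exact hl1 ⟨c', h'⟩)
        have hs := shrinkGood_size F1 hF.1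
        refine ⟨fun b => if b = c then G b else cst false, fun b z => ?_, fun b => ?_,
          fun b => ?_, ?_⟩
        · by_cases hb : b = c
          · simp [Fm.eval, hb, hG1]
          · simp [Fm.eval, hb]
        · by_cases hb : b = c
          · simp only [hb, if_true]; exact hG2 c
          · simp [hb, Fm.VarsIn]
        · have := hG3 b
          by_cases hb : b = c
          · subst hb
            simp only [if_true, Fm.size, shrinkOcc]; omega
          · simp only [hb, if_false, Fm.size, shrinkOcc, if_true]; omega
        · have h3 := hG3 true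
          have h4 := hG3 false
          cases c
          · simp only [Fm.size, shrinkOcc, if_true, Bool.true_eq_false, if_false]; omega
          · simp only [Fm.size, shrinkOcc, if_true, Bool.false_eq_true, if_false]; omega
      · obtain ⟨G, hG1, hG2, hG3, hG4⟩ := h1 hF.1 hU.1 (fun c h => hl1 ⟨c, h⟩)
        obtain ⟨H, hH1, hH2, hH3, hH4⟩ := h2 hF.2.1 hU.2 (fun c h => hl2 ⟨c, h⟩)
        refine ⟨fun b => Fm.and (G b) (H b), fun b z => ?_, fun b => ⟨hG2 b, hH2 b⟩,
          fun b => ?_, ?_⟩
        · simp only [Fm.eval]; rw [hG1, hH1]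
        · have := hG3 b
          have := hH3 b
          simp only [Fm.size, shrinkOcc]; omega
        · simp only [Fm.size, shrinkOcc]; omega
  | or F1 F2 h1 h2 =>
    simp only [ShrinkGood] at hF
    simp only [Fm.VarsIn] at hU
    by_cases hl1 : ∃ c, F1 = lit x c
    · obtain ⟨c, rfl⟩ := hl1
      have hocc := hF.2.2.1 x c rfl
      obtain ⟨G, hG1, hG2, hG3, hG4⟩ := h2 hF.2.1 hU.2 (by
        intro c' h'
        rw [h'] at hocc
        simp [shrinkOcc] at hocc)
      have hs := shrinkGood_size F2 hF.2.1
      refine ⟨fun b => if b = c then cst true else G b, fun b z => ?_, fun b => ?_, fun b => ?_, ?_⟩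
      · by_cases hb : b = c
        · simp [Fm.eval, hb]
        · simp [Fm.eval, hb, hG1]
      · by_cases hb : b = c
        · simp [hb, Fm.VarsIn]
        · simp only [hb, if_false]; exact hG2 b
      · have := hG3 b
        by_cases hb : b = c
        · subst hb
          simp only [if_true, Fm.size, shrinkOcc]; omega
        · simp only [hb, if_false, Fm.size, shrinkOcc, if_true]; omega
      · have h3 := hG3 true
        have h4 := hG3 false
        cases c
        · simp only [Fm.size, shrinkOcc, if_true, Bool.true_eq_false, if_false]; omega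
        · simp only [Fm.size, shrinkOcc, if_true, Bool.false_eq_true, if_false]; omega
    · by_cases hl2 : ∃ c, F2 = lit x c
      · obtain ⟨c, rfl⟩ := hl2
        have hocc := hF.2.2.2 x c rfl
        obtain ⟨G, hG1, hG2, hG3, hG4⟩ := h1 hF.1 hU.1 (by
          intro c' h'
          exact hl1 ⟨c', h'⟩)
        have hs := shrinkGood_size F1 hF.1
        refine ⟨fun b => if b = c then cst true else G b, fun b z => ?_, fun b => ?_,
          fun b => ?_, ?_⟩
        · by_cases hb : b = c
          · simp [Fm.eval, hb]
          · simp [Fm.eval, hb, hG1]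
        · by_cases hb : b = c
          · simp [hb, Fm.VarsIn]
          · simp only [hb, if_false]; exact hG2 b
        · have := hG3 b
          by_cases hb : b = c
          · subst hb
            simp only [if_true, Fm.size, shrinkOcc]; omega
          · simp only [hb, if_false, Fm.size, shrinkOcc, if_true]; omega
        · have h3 := hG3 true
          have h4 := hG3 false
          cases c
          · simp only [Fm.size, shrinkOcc, if_true, Bool.true_eq_false, if_false]; omega
          · simp only [Fm.size, shrinkOcc, if_true, Bool.false_eq_true, if_false]; omega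
      · obtain ⟨G, hG1, hG2, hG3, hG4⟩ := h1 hF.1 hU.1 (fun c h => hl1 ⟨c, h⟩)
        obtain ⟨H, hH1, hH2, hH3, hH4⟩ := h2 hF.2.1 hU.2 (fun c h => hl2 ⟨c, h⟩)
        refine ⟨fun b => Fm.or (G b) (H b), fun b z => ?_, fun b => ⟨hG2 b, hH2 b⟩,
          fun b => ?_, ?_⟩
        · simp only [Fm.eval]; rw [hG1, hH1]
        · have := hG3 b
          have := hH3 b
          simp only [Fm.size, shrinkOcc]; omega
        · simp only [Fm.size, shrinkOcc]; omega

theorem shrinkOcc_sum (U : Finset V) (F : Fm V) (hF : F.VarsIn U) :
    ∑ x ∈ U, shrinkOcc x F = F.size := by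
  induction F with
  | lit v c =>
    simp only [Fm.VarsIn] at hF
    simp only [shrinkOcc, Fm.size]
    rw [Finset.sum_ite_eq U v]
    simp [hF]
  | cst c => simp [shrinkOcc, Fm.size]
  | and F G h1 h2 =>
    simp only [Fm.VarsIn] at hF
    simp only [shrinkOcc, Fm.size, Finset.sum_add_distrib]
    rw [h1 hF.1, h2 hF.2]
  | or F G h1 h2 =>
    simp only [Fm.VarsIn] at hF
    simp only [shrinkOcc, Fm.size, Finset.sum_add_distrib]
    rw [h1 hF.1, h2 hF.2]

/-- One step of shrinkage: some variable can be fixed so that both restrictions have size at most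
`(1 - 1/u)` times the old size and their sizes add up to at most `(2 - 3/u)` times it. -/
theorem shrink_step (U : Finset V) (hU : 2 ≤ U.card) (F : Fm V) (hF : F.VarsIn U) :
    ∃ x ∈ U, ∃ G : Bool → Fm V,
      (∀ b z, (G b).eval z = F.eval (Function.update z x b)) ∧
      (∀ b, (G b).VarsIn (U.erase x)) ∧
      (∀ b, ((G b).size : ℝ) ≤ F.size * (1 - 1 / (U.card : ℝ))) ∧
      ((G true).size : ℝ) + (G false).size ≤ F.size * (2 - 3 / (U.card : ℝ)) := by
  have hu : (2 : ℝ) ≤ (U.card : ℝ) := by exact_mod_cast hU
  have hu0 : (0 : ℝ) < (U.card : ℝ) := by linarith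
  have hp1 : (0 : ℝ) ≤ 1 - 1 / (U.card : ℝ) := by
    rw [sub_nonneg, div_le_one hu0]; linarith
  have hp2 : (0 : ℝ) ≤ 2 - 3 / (U.card : ℝ) := by
    rw [sub_nonneg, div_le_iff₀ hu0]; linarith
  have hs0 : (0 : ℝ) ≤ (F.size : ℝ) := Nat.cast_nonneg _
  obtain ⟨F', h1, h2, h3, h4⟩ := shrink_good U F.size F hF le_rfl
  rcases h1 with h1 | ⟨b, rfl⟩
  · by_cases hl : ∃ x c, F' = lit x c
    · obtain ⟨x, c, rfl⟩ := hl
      refine ⟨x, h2, fun b => cst (b == c), fun b z => ?_, fun b => trivial, fun b => ?_, ?_⟩
      · rw [← h3]; simp [Fm.eval]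
      · simp only [Fm.size, Nat.cast_zero]; positivity
      · simp only [Fm.size, Nat.cast_zero, add_zero]; positivity
    · have hsum := shrinkOcc_sum U F' h2
      have hne : U.Nonempty := Finset.card_pos.1 (by omega)
      obtain ⟨x, hxU, hx⟩ : ∃ x ∈ U, F'.size ≤ U.card * shrinkOcc x F' := by
        by_contra hcon
        push Not at hcon
        have : ∑ x ∈ U, U.card * shrinkOcc x F' < ∑ x ∈ U, F'.size :=
          Finset.sum_lt_sum_of_nonempty hne hcon
        rw [← Finset.mul_sum, hsum] at this
        simp at this
      obtain ⟨G, hG1, hG2, hG3, hG4⟩ := shrink_restrict U x F' h1 h2 (fun c h => hl ⟨x, c, h⟩)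
      have hx' : (F'.size : ℝ) / U.card ≤ (shrinkOcc x F' : ℝ) := by
        rw [div_le_iff₀ hu0]
        have : (F'.size : ℝ) ≤ (U.card : ℝ) * (shrinkOcc x F' : ℝ) := by exact_mod_cast hx
        linarith
      have h4' : (F'.size : ℝ) ≤ (F.size : ℝ) := by exact_mod_cast h4
      refine ⟨x, hxU, G, fun b z => ?_, hG2, fun b => ?_, ?_⟩
      · rw [hG1, h3]
      · have hb : ((G b).size : ℝ) + (shrinkOcc x F' : ℝ) ≤ (F'.size : ℝ) := by
          exact_mod_cast hG3 b
        calc ((G b).size : ℝ) ≤ F'.size - F'.size / U.card := by linarith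
          _ = F'.size * (1 - 1 / (U.card : ℝ)) := by ring
          _ ≤ F.size * (1 - 1 / (U.card : ℝ)) := by gcongr
      · have hb : ((G true).size : ℝ) + ((G false).size : ℝ) + 3 * (shrinkOcc x F' : ℝ)
            ≤ 2 * (F'.size : ℝ) := by
          exact_mod_cast hG4
        calc ((G true).size : ℝ) + ((G false).size : ℝ)
              ≤ 2 * F'.size - 3 * (F'.size / U.card) := by linarith
          _ = F'.size * (2 - 3 / (U.card : ℝ)) := by ring
          _ ≤ F.size * (2 - 3 / (U.card : ℝ)) := by gcongr
  · obtain ⟨x, hxU⟩ : U.Nonempty := Finset.card_pos.1 (by omega)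
    refine ⟨x, hxU, fun _ => cst b, fun b' z => ?_, fun b => trivial, fun b => ?_, ?_⟩
    · rw [← h3]; simp [Fm.eval]
    · simp only [Fm.size, Nat.cast_zero]; positivity
    · simp only [Fm.size, Nat.cast_zero, add_zero]; positivity

end UnbTop
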