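import Pool.Agent.H.MP_027d00_lc.unb.Core
import Pool.Agent.H.MP_027d00_lc.unb.Params
import Pool.Agent.H.MP_027d00_lc.unb.Func

/-!
# Circuits whose top part is unbalanced between AND and OR gates
-/

set_option autoImplicit false

namespace Pool.Agent.Results.MP_027d00_lc.UnbalancedTop

open UnbTop Filter

/-- The block length `⌊n^γ⌋`. -/
noncomputable def blk (γ : ℝ) (n : ℕ) : ℕ := ⌊(n : ℝ) ^ γ⌋₊

theorem card_inp (m J N : ℕ) : Fintype.card (Inp m J N) = 2 * m + J * m + N := by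
  have e : Inp m J N ≃ (Fin m ⊕ Fin m) ⊕ ((Fin J × Fin m) ⊕ Fin N) :=
    { toFun := fun v => match v with
        | Inp.p i => Sum.inl (Sum.inl i)
        | Inp.b i => Sum.inl (Sum.inr i)
        | Inp.x j i => Sum.inr (Sum.inl (j, i))
        | Inp.y i => Sum.inr (Sum.inr i)
      invFun := fun v => match v with
        | Sum.inl (Sum.inl i) => Inp.p i
        | Sum.inl (Sum.inr i) => Inp.b i
        | Sum.inr (Sum.inl q) => Inp.x q.1 q.2
        | Sum.inr (Sum.inr i) => Inp.y i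
      left_inv := by
        intro v
        cases v <;> rfl
      right_inv := by
        intro v
        rcases v with (v | v) | (v | v) <;> rfl }
  rw [Fintype.card_congr e]
  simp only [Fintype.card_sum, Fintype.card_prod, Fintype.card_fin]
  ring

theorem result (γ α β η ε : ℝ) (hγ0 : 0 < γ) (hγ : γ < 1) (hα : 0 ≤ α) (hβ : 0 ≤ β) (hη : 0 ≤ η)
    (hsum : α + β + η < γ) (hε : 0 < ε) :
    ∀ᶠ n : ℕ in atTop,
      Nat.card (Inp (blk γ n) (n / (4 * blk γ n)) (n / 4)) ≤ n ∧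
      ∀ K : ℕ, (K : ℝ) ≤ (n : ℝ) ^ η →
        ∀ F : Fm (Inp (blk γ n) (n / (4 * blk γ n)) (n / 4)),
          (∀ z, F.eval z = polyFn (blk γ n) (n / (4 * blk γ n)) (n / 4) z) →
          (∀ p ∈ F.paths K, (p.2 : ℝ) ≤ α * Real.logb 2 n ∨ (p.1 : ℝ) ≤ β * Real.logb 2 n) →
          K + (5 / 2 - 3 / 2 * γ - α - β - ε) * Real.logb 2 n < F.depth := by
  filter_upwards [params γ α β η ε hγ0 hγ hα hβ hη hsum hε] with n hn
  obtain ⟨h1, k, κ, t, s0, B, hm, hk, hkN, ht, hs0, hκ, hJ, hB, hbig, hcount, hsize, hK⟩ :=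
    hn (blk γ n) (n / 4) (n / (4 * blk γ n)) _ _ _ rfl rfl rfl rfl rfl rfl
  refine ⟨by rw [Nat.card_eq_fintype_card, card_inp]; exact h1, ?_⟩
  intro K hKn F hF hp
  have hc := core (blk γ n) (n / 4) (n / (4 * blk γ n)) k κ t s0 B K ⌊α * Real.logb 2 n⌋₊
    ⌊β * Real.logb 2 n⌋₊ ⌈(5 / 2 - 3 / 2 * γ - α - β - ε) * Real.logb 2 n⌉₊ hm hk hkN ht hs0 hκ
    hJ hB hbig hcount hsize (hK K hKn) F hF
    (by
      intro p hpF
      rcases hp p hpF with h | h
      · left; exact Nat.le_floor h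
      · right; exact Nat.le_floor h)
  have h2 : (5 / 2 - 3 / 2 * γ - α - β - ε) * Real.logb 2 n ≤
      (⌈(5 / 2 - 3 / 2 * γ - α - β - ε) * Real.logb 2 n⌉₊ : ℝ) := Nat.le_ceil _
  have h3 : ((K + ⌈(5 / 2 - 3 / 2 * γ - α - β - ε) * Real.logb 2 n⌉₊ : ℕ) : ℝ) < F.depth := by
    exact_mod_cast hc
  push_cast at h3
  linarith

end Pool.Agent.Results.MP_027d00_lc.UnbalancedTop
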